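import Mathlib

/-!
# Products of four elements of the augmentation ideal of `⟨a, b⟩` are divisible by the loop value

`TL4 d e1 e2 e3`: the relations of the Temperley–Lieb algebra on four strands.
-/

set_option autoImplicit false

namespace Pool.Agent.J4.H15.RU

/-- Temperley–Lieb relations for four strands -/
structure TL4 {R B : Type*} [CommRing R] [Ring B] [Algebra R B] (d : R) (e1 e2 e3 : B) : Prop where
  s1 : e1 * e1 = d • e1
  s2 : e2 * e2 = d • e2
  s3 : e3 * e3 = d • e3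
  r12 : e1 * e2 * e1 = e1
  r21 : e2 * e1 * e2 = e2
  r23 : e2 * e3 * e2 = e2
  r32 : e3 * e2 * e3 = e3
  c13 : e1 * e3 = e3 * e1

section alg

variable {R B : Type*} [CommRing R] [Ring B] [Algebra R B] {d : R} {e1 e2 e3 : B}

theorem TL4.swap (h : TL4 d e1 e2 e3) : TL4 d e3 e2 e1 where
  s1 := h.s3
  s2 := h.s2
  s3 := h.s1
  r12 := h.r32
  r21 := h.r23
  r23 := h.r21
  r32 := h.r12
  c13 := h.c13.symm

/-- `(a - 1) / f` for `a = (1 + f e₁)(1 - l' f e₃)` -/
def ya (f l' : R) (e1 e3 : B) : B := e1 - l' • e3 - (l' * f) • (e1 * e3)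

theorem n_sq (h : TL4 d e1 e2 e3) : (e1 * e3) * (e1 * e3) = (d * d) • (e1 * e3) := by
  have h1 : (e1 * e3) * (e1 * e3) = (e1 * e1) * (e3 * e3) := by
    rw [mul_assoc, ← mul_assoc e3 e1 e3, ← h.c13, mul_assoc e1 e3 e3, ← mul_assoc]
  rw [h1, h.s1, h.s3, smul_mul_assoc, mul_smul_comm, smul_smul]

theorem n_e1 (h : TL4 d e1 e2 e3) : (e1 * e3) * e1 = d • (e1 * e3) := by
  rw [mul_assoc, ← h.c13, ← mul_assoc, h.s1, smul_mul_assoc]

theorem n_e3 (h : TL4 d e1 e2 e3) : (e1 * e3) * e3 = d • (e1 * e3) := by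
  rw [mul_assoc, h.s3, mul_smul_comm]

theorem n2_e1 (h : TL4 d e1 e2 e3) : (e1 * e3 * e2) * e1 = e1 * e3 := by
  rw [h.c13, mul_assoc, mul_assoc, ← mul_assoc e1, h.r12]

theorem n2_e3 (h : TL4 d e1 e2 e3) : (e1 * e3 * e2) * e3 = e1 * e3 := by
  rw [mul_assoc, mul_assoc, ← mul_assoc e3, h.r32]

theorem n_ya (h : TL4 d e1 e2 e3) {f l l' : R} (hl : l * l' = 1) (hf : 1 + d * f = l) : 
    (e1 * e3) * ya f l' e1 e3 = 0 := by
  unfold ya
  rw [mul_sub, mul_sub, mul_smul_comm, mul_smul_comm, n_e1 h, n_e3 h, n_sq h, smul_smul, smul_smul,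
    ← sub_smul, ← sub_smul]
  have : d - l' * d - l' * f * (d * d) = 0 := by
    have h1 : l' * (1 + d * f) = 1 := by rw [hf, mul_comm, hl]
    linear_combination (-d) * h1
  rw [this, zero_smul]

theorem n2_ya (h : TL4 d e1 e2 e3) {f l l' : R} (hl : l * l' = 1) (hf : 1 + d * f = l) : 
    (e1 * e3 * e2) * ya f l' e1 e3 = 0 := by
  unfold ya
  rw [mul_sub, mul_sub, mul_smul_comm, mul_smul_comm, n2_e1 h, n2_e3 h, ← mul_assoc, n2_e1 h, n_e3 h,
    smul_smul]
  have : (e1 * e3) - l' • (e1 * e3) - (l' * f * d) • (e1 * e3) = (1 - l' - l' * f * d) • (e1 * e3) := by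
    rw [sub_smul, sub_smul, one_smul]
  rw [this]
  have : 1 - l' - l' * f * d = 0 := by
    have h1 : l' * (1 + d * f) = 1 := by rw [hf, mul_comm, hl]
    linear_combination (-1 : R) * h1
  rw [this, zero_smul]

/-- `a` and its inverse -/
theorem ya_mul (h : TL4 d e1 e2 e3) {f l l' : R} (hl : l * l' = 1) (hf : 1 + d * f = l) : 
    (1 + f • ya f l' e1 e3) * (1 + f • ya f l' e3 e1) = 1 := by
  have h1 : (1 + f • ya f l' e1 e3) = (1 + f • e1) * (1 - (l' * f) • e3) := by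
    unfold ya
    simp only [mul_sub, add_mul, mul_one, one_mul, smul_mul_assoc, mul_smul_comm, smul_sub, smul_smul]
    module
  have h2 : (1 + f • ya f l' e3 e1) = (1 + f • e3) * (1 - (l' * f) • e1) := by
    unfold ya
    simp only [mul_sub, add_mul, mul_one, one_mul, smul_mul_assoc, mul_smul_comm, smul_sub, smul_smul]
    module
  have h3 : (1 - (l' * f) • e3) * (1 + f • e3) = 1 := by
    simp only [sub_mul, mul_add, mul_one, one_mul, smul_mul_assoc, mul_smul_comm, smul_smul, h.s3]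
    have h4 : l' * (1 + d * f) = 1 := by rw [hf, mul_comm, hl]
    have h5 : f - l' * f - l' * f * (f * d) = 0 := by linear_combination (-f) * h4
    refine Eq.trans (b := 1 + (f - l' * f - l' * f * (f * d)) • e3) (by module) ?_
    rw [h5, zero_smul, add_zero]
  have h7 : (1 + f • e1) * (1 - (l' * f) • e1) = 1 := by
    simp only [mul_sub, add_mul, mul_one, one_mul, smul_mul_assoc, mul_smul_comm, smul_smul, h.s1]
    have h4 : l' * (1 + d * f) = 1 := by rw [hf, mul_comm, hl]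
    have h5 : f - l' * f - l' * f * (f * d) = 0 := by linear_combination (-f) * h4
    refine Eq.trans (b := 1 + (f - l' * f - l' * f * (f * d)) • e1) (by module) ?_
    rw [h5, zero_smul, add_zero]
  rw [h1, h2, mul_assoc, ← mul_assoc (1 - (l' * f) • e3), h3, one_mul, h7]

/-! ### the ideal -/

/-- the left ideal generated by `e₁e₃`, `e₁e₃e₂` and the loop value -/
def II (d : R) (e1 e2 e3 : B) : Ideal B := Ideal.span {e1 * e3, e1 * e3 * e2, algebraMap R B d}

theorem mem_II {z : B} : z ∈ II d e1 e2 e3 ↔ ∃ x x' w : B, z = x * (e1 * e3) + x' * (e1 * e3 * e2) + d • w := by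
  unfold II
  rw [Ideal.mem_span_insert]
  constructor
  · rintro ⟨a, z', hz', rfl⟩
    rw [Ideal.mem_span_insert] at hz'
    obtain ⟨b, z'', hz'', rfl⟩ := hz'
    rw [Ideal.mem_span_singleton'] at hz''
    obtain ⟨c, rfl⟩ := hz''
    exact ⟨a, b, c, by rw [Algebra.smul_def, Algebra.commutes, add_assoc]⟩
  · rintro ⟨x, x', w, rfl⟩
    refine ⟨x, x' * (e1 * e3 * e2) + d • w, ?_, by rw [add_assoc]⟩
    rw [Ideal.mem_span_insert]
    refine ⟨x', d • w, ?_, rfl⟩
    rw [Ideal.mem_span_singleton']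
    exact ⟨w, by rw [Algebra.smul_def, Algebra.commutes]⟩

theorem d_mem (x : B) : d • x ∈ II d e1 e2 e3 := mem_II.2 ⟨0, 0, x, by simp⟩

theorem n_mem : (e1 * e3) ∈ II d e1 e2 e3 := mem_II.2 ⟨1, 0, 0, by simp⟩

theorem II_right_gen (h : TL4 d e1 e2 e3) {z : B} (hz : z ∈ II d e1 e2 e3) :
    z * e1 ∈ II d e1 e2 e3 ∧ z * e2 ∈ II d e1 e2 e3 ∧ z * e3 ∈ II d e1 e2 e3 := by
  obtain ⟨x, x', w, rfl⟩ := mem_II.1 hz
  refine ⟨?_, ?_, ?_⟩
  · rw [mem_II]
    refine ⟨d • x + x', 0, w * e1, ?_⟩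
    rw [add_mul, add_mul, mul_assoc x, n_e1 h, mul_assoc x', n2_e1 h, smul_mul_assoc, mul_smul_comm, 
      add_mul, smul_mul_assoc, zero_mul, add_zero]
  · rw [mem_II]
    refine ⟨0, x + d • x', w * e2, ?_⟩
    rw [add_mul, add_mul, mul_assoc x, mul_assoc x', mul_assoc (e1 * e3) e2 e2, h.s2, smul_mul_assoc, 
      mul_smul_comm, mul_smul_comm, add_mul, smul_mul_assoc, zero_mul, zero_add]
  · rw [mem_II]
    refine ⟨d • x + x', 0, w * e3, ?_⟩
    rw [add_mul, add_mul, mul_assoc x, n_e3 h, mul_assoc x', n2_e3 h, smul_mul_assoc, mul_smul_comm, 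
      add_mul, smul_mul_assoc, zero_mul, add_zero]

theorem II_smul {z : B} (r : R) (hz : z ∈ II d e1 e2 e3) : r • z ∈ II d e1 e2 e3 := by
  rw [Algebra.smul_def]
  exact Ideal.mul_mem_left _ _ hz

theorem II_right (h : TL4 d e1 e2 e3) (hgen : ∀ x : B, x ∈ Algebra.adjoin R ({e1, e2, e3} : Set B)) 
    (x : B) : ∀ {z : B}, z ∈ II d e1 e2 e3 → z * x ∈ II d e1 e2 e3 := by
  induction hgen x using Algebra.adjoin_induction with
  | mem x hx =>
    intro z hz
    obtain ⟨h1, h2, h3⟩ := II_right_gen h hz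
    rcases hx with rfl | rfl | rfl
    · exact h1
    · exact h2
    · exact h3
  | algebraMap r =>
    intro z hz
    rw [← Algebra.commutes, ← Algebra.smul_def]
    exact II_smul r hz
  | add x y _ _ hx hy =>
    intro z hz
    rw [mul_add]
    exact Ideal.add_mem _ (hx hz) (hy hz)
  | mul x y _ _ hx hy =>
    intro z hz
    rw [← mul_assoc]
    exact hy (hx hz)

/-! ### triple products -/

variable (h : TL4 d e1 e2 e3) (hgen : ∀ x : B, x ∈ Algebra.adjoin R ({e1, e2, e3} : Set B))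
include h

theorem EE_mem : (e1 - e3) * (e1 - e3) ∈ II d e1 e2 e3 := by
  have : (e1 - e3) * (e1 - e3) = d • (e1 + e3) - (2 : R) • (e1 * e3) := by
    rw [sub_mul, mul_sub, mul_sub, h.s1, h.s3, ← h.c13, two_smul, smul_add]
    abel
  rw [this]
  exact Ideal.sub_mem _ (d_mem _) (II_smul _ n_mem)

theorem eEe : e2 * (e1 - e3) * e2 = 0 := by
  rw [mul_sub, sub_mul, h.r21, h.r23, sub_self]

include hgen

/-- `E x E x' E` -/
theorem tri {A A' : R} (x x' : B) (hx : x = 1 ∨ x = A • (1 : B) + A' • e2 ∨ x = A' • (1 : B) + A • e2)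
    (hx' : x' = 1 ∨ x' = A • (1 : B) + A' • e2 ∨ x' = A' • (1 : B) + A • e2) :
    (e1 - e3) * x * (e1 - e3) * x' * (e1 - e3) ∈ II d e1 e2 e3 := by
  set E := e1 - e3 with hE
  have hEE : E * E ∈ II d e1 e2 e3 := EE_mem h
  have h2 : e2 * E * e2 = 0 := eEe h
  have hr : ∀ {z : B}, z ∈ II d e1 e2 e3 → ∀ x, z * x ∈ II d e1 e2 e3 := fun hz x => II_right h hgen x hz
  -- general coefficients
  have hgen2 : ∀ (α β α' β' : R), E * (α • (1 : B) + β • e2) * E * (α' • (1 : B) + β' • e2) * E ∈ 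
      II d e1 e2 e3 := by
    intro α β α' β'
    have h3 : E * (α • (1 : B) + β • e2) * E * (α' • (1 : B) + β' • e2) * E = 
        α • ((E * E) * ((α' • (1 : B) + β' • e2) * E)) + 
        β • (α' • (E * e2 * (E * E)) + β' • (E * (e2 * E * e2) * E)) := by
      simp only [mul_add, add_mul, mul_smul_comm, smul_mul_assoc, mul_one, one_mul, smul_add, smul_smul, 
        mul_assoc]
      module
    rw [h3, h2, mul_zero, zero_mul, smul_zero, add_zero]
    exact Ideal.add_mem _ (II_smul _ (hr hEE _)) (II_smul _ (II_smul _ (Ideal.mul_mem_left _ _ hEE)))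
  have hone : ∀ y : B, (y = 1 ∨ y = A • (1 : B) + A' • e2 ∨ y = A' • (1 : B) + A • e2) → 
      ∃ α β : R, y = α • (1 : B) + β • e2 := by
    rintro y (rfl | rfl | rfl)
    · exact ⟨1, 0, by simp⟩
    · exact ⟨A, A', rfl⟩
    · exact ⟨A', A, rfl⟩
  obtain ⟨α, β, rfl⟩ := hone x hx
  obtain ⟨α', β', rfl⟩ := hone x' hx'
  exact hgen2 α β α' β'

end alg

end Pool.Agent.J4.H15.RU
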