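import Pool.Agent.J4.H15.RU.Tl

/-!
# Bounds for elements of the Temperley–Lieb algebra on a set of values of `A`
-/

set_option autoImplicit false

namespace Pool.Agent.J4.H15.RU

open LaurentPolynomial Pool.Agent.H891R2.Jones Pool.Agent.W639.RB Pool.Agent.Y463.SK Pool.Agent.Y463.MP
  Pool.Agent.Y463.RW

/-- evaluation at a nonzero complex number -/
noncomputable def eA (A : ℂˣ) : ℤ[T;T⁻¹] →+* ℂ := LaurentPolynomial.eval₂ (Int.castRingHom ℂ) A

/-- the biggest set -/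
def SM : Set ℂˣ := {A | ‖(A : ℂ)‖ ≤ 2 ∧ ‖((A⁻¹ : ℂˣ) : ℂ)‖ ≤ 2}

theorem eA_bdd (p : ℤ[T;T⁻¹]) : ∃ C : ℝ, 0 ≤ C ∧ ∀ A ∈ SM, ‖eA A p‖ ≤ C := by
  induction p using LaurentPolynomial.induction_on' with
  | add p q hp hq =>
    obtain ⟨C, hC, h1⟩ := hp
    obtain ⟨C', hC', h2⟩ := hq
    refine ⟨C + C', add_nonneg hC hC', fun A hA => ?_⟩
    rw [map_add]
    exact (norm_add_le _ _).trans (add_le_add (h1 A hA) (h2 A hA))
  | C_mul_T n a =>
    refine ⟨‖(a : ℂ)‖ * 2 ^ n.natAbs, by positivity, fun A hA => ?_⟩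
    unfold eA
    rw [eval₂_C_mul_T, norm_mul]
    refine mul_le_mul (le_of_eq rfl) ?_ (norm_nonneg _) (norm_nonneg _)
    rcases Int.natAbs_eq n with hn | hn
    · rw [hn, zpow_natCast, Units.val_pow_eq_pow_val, norm_pow, Int.natAbs_natCast]
      exact pow_le_pow_left₀ (norm_nonneg _) hA.1 _
    · rw [hn, zpow_neg, zpow_natCast, ← inv_pow, Units.val_pow_eq_pow_val, norm_pow, Int.natAbs_neg, 
        Int.natAbs_natCast]
      exact pow_le_pow_left₀ (norm_nonneg _) hA.2 _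

/-- the spanning words -/
noncomputable def wz (j : Fin (Nat.factorial 4)) : TLZ 4 := 
  ⟨wj (by norm_num : 0 < 4) j, wl_mem_adjoin (4 - 1) _ (wj_mem _ j)⟩

theorem wz_repr (x : TLZ 4) : ∃ r : Fin (Nat.factorial 4) → ℤ[T;T⁻¹], x = ∑ j, r j • wz j := by
  obtain ⟨r, hr⟩ := mem_adjoin_repr x.1 (by norm_num : 0 < 4) x.2
  refine ⟨r, Subtype.ext ?_⟩
  rw [hr]
  simp [wz]

/-- `x` has a representation with coefficients of total size at most `c` on `S` -/
def Bd (S : Set ℂˣ) (c : ℝ) (x : TLZ 4) : Prop := 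
  ∃ r : Fin (Nat.factorial 4) → ℤ[T;T⁻¹], x = ∑ j, r j • wz j ∧ ∀ A ∈ S, ∑ j, ‖eA A (r j)‖ ≤ c

theorem Bd.mono {S S' : Set ℂˣ} {c c' : ℝ} {x : TLZ 4} (h : Bd S c x) (hS : S' ⊆ S) (hc : c ≤ c') : 
    Bd S' c' x := by
  obtain ⟨r, h1, h2⟩ := h
  exact ⟨r, h1, fun A hA => (h2 A (hS hA)).trans hc⟩

theorem Bd.add {S : Set ℂˣ} {c c' : ℝ} {x y : TLZ 4} (h : Bd S c x) (h' : Bd S c' y) : 
    Bd S (c + c') (x + y) := by
  obtain ⟨r, h1, h2⟩ := h
  obtain ⟨r', h1', h2'⟩ := h'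
  refine ⟨fun j => r j + r' j, ?_, fun A hA => ?_⟩
  · simp only [add_smul, Finset.sum_add_distrib, ← h1, ← h1']
  · refine le_trans (Finset.sum_le_sum fun j _ => ?_) 
      ((Finset.sum_add_distrib (s := Finset.univ) (f := fun j => ‖eA A (r j)‖) 
        (g := fun j => ‖eA A (r' j)‖)).le.trans (add_le_add (h2 A hA) (h2' A hA)))
    rw [map_add]
    exact norm_add_le _ _

theorem Bd.neg {S : Set ℂˣ} {c : ℝ} {x : TLZ 4} (h : Bd S c x) : Bd S c (-x) := by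
  obtain ⟨r, h1, h2⟩ := h
  refine ⟨fun j => - r j, ?_, fun A hA => ?_⟩
  · simp only [neg_smul, Finset.sum_neg_distrib, ← h1]
  · simp only [map_neg, norm_neg]
    exact h2 A hA

theorem Bd.sub {S : Set ℂˣ} {c c' : ℝ} {x y : TLZ 4} (h : Bd S c x) (h' : Bd S c' y) : 
    Bd S (c + c') (x - y) := by
  rw [sub_eq_add_neg]
  exact h.add h'.neg

theorem Bd.smul {S : Set ℂˣ} {c e : ℝ} {x : TLZ 4} (h : Bd S c x) {p : ℤ[T;T⁻¹]} (he : 0 ≤ e)
    (hp : ∀ A ∈ S, ‖eA A p‖ ≤ e) : Bd S (e * c) (p • x) := by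
  obtain ⟨r, h1, h2⟩ := h
  refine ⟨fun j => p * r j, ?_, fun A hA => ?_⟩
  · rw [h1, Finset.smul_sum]
    simp only [smul_smul]
  · simp only [map_mul, norm_mul]
    rw [← Finset.mul_sum]
    exact mul_le_mul (hp A hA) (h2 A hA) (Finset.sum_nonneg fun _ _ => norm_nonneg _) he

theorem Bd.exists (x : TLZ 4) : ∃ C : ℝ, 0 ≤ C ∧ Bd SM C x := by
  obtain ⟨r, hr⟩ := wz_repr x
  choose C hC h1 using fun j => eA_bdd (r j)
  exact ⟨∑ j, C j, Finset.sum_nonneg fun j _ => hC j, r, hr, fun A hA => 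
    Finset.sum_le_sum fun j _ => h1 j A hA⟩

theorem Bd.zero (S : Set ℂˣ) : Bd S 0 (0 : TLZ 4) := ⟨fun _ => 0, by simp, by simp⟩

theorem Bd.sum {S : Set ℂˣ} {ι : Type*} (s : Finset ι) {c : ι → ℝ} {x : ι → TLZ 4} 
    (h : ∀ i ∈ s, Bd S (c i) (x i)) : Bd S (∑ i ∈ s, c i) (∑ i ∈ s, x i) := by
  classical
  induction s using Finset.induction_on with
  | empty => simpa using Bd.zero S
  | insert i s hi ih =>
    rw [Finset.sum_insert hi, Finset.sum_insert hi]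
    exact (h i (Finset.mem_insert_self _ _)).add (ih fun j hj => h j (Finset.mem_insert_of_mem hj))

/-- the constant of the multiplication -/
theorem Bd.exists_mul : ∃ K : ℝ, 1 ≤ K ∧ ∀ (S : Set ℂˣ), S ⊆ SM → ∀ (c c' : ℝ) (x y : TLZ 4), 0 ≤ c → 0 ≤ c' →
    Bd S c x → Bd S c' y → Bd S (K * (c * c')) (x * y) := by
  choose C hC h1 using fun (p : Fin (Nat.factorial 4) × Fin (Nat.factorial 4)) => Bd.exists (wz p.1 * wz p.2)
  refine ⟨1 + ∑ p, C p, ?_, ?_⟩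
  · have := Finset.sum_nonneg fun p (_ : p ∈ Finset.univ) => hC p
    linarith
  · rintro S hS c c' x y hc hc' ⟨r, hr, h2⟩ ⟨r', hr', h2'⟩
    choose q hq h3 using h1
    have hxy : x * y = ∑ k, (∑ p : Fin (Nat.factorial 4) × Fin (Nat.factorial 4), 
        (r p.1 * r' p.2) * q p k) • wz k := by
      rw [hr, hr', Finset.sum_mul_sum, ← Finset.sum_product']
      simp only [Finset.sum_smul]
      rw [Finset.sum_comm]
      refine Finset.sum_congr rfl fun p _ => ?_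
      rw [smul_mul_smul_comm, hq p, Finset.smul_sum]
      simp only [smul_smul]
    refine ⟨_, hxy, fun A hA => ?_⟩
    have hK : ∀ p, ∑ k, ‖eA A (q p k)‖ ≤ 1 + ∑ p, C p := by
      intro p
      refine (h3 p A (hS hA)).trans ?_
      have := Finset.single_le_sum (fun p (_ : p ∈ Finset.univ) => hC p) (Finset.mem_univ p)
      linarith
    calc ∑ k, ‖eA A (∑ p : Fin (Nat.factorial 4) × Fin (Nat.factorial 4), (r p.1 * r' p.2) * q p k)‖ 
        ≤ ∑ k, ∑ p : Fin (Nat.factorial 4) × Fin (Nat.factorial 4), 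
          ‖eA A (r p.1)‖ * ‖eA A (r' p.2)‖ * ‖eA A (q p k)‖ := by
          refine Finset.sum_le_sum fun k _ => ?_
          rw [map_sum]
          refine (norm_sum_le _ _).trans (Finset.sum_le_sum fun p _ => ?_)
          rw [map_mul, map_mul, norm_mul, norm_mul]
      _ = ∑ p : Fin (Nat.factorial 4) × Fin (Nat.factorial 4), 
          (‖eA A (r p.1)‖ * ‖eA A (r' p.2)‖) * ∑ k, ‖eA A (q p k)‖ := by
          rw [Finset.sum_comm]
          refine Finset.sum_congr rfl fun p _ => ?_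
          rw [Finset.mul_sum]
      _ ≤ ∑ p : Fin (Nat.factorial 4) × Fin (Nat.factorial 4), 
          (‖eA A (r p.1)‖ * ‖eA A (r' p.2)‖) * (1 + ∑ p, C p) := by
          refine Finset.sum_le_sum fun p _ => ?_
          exact mul_le_mul_of_nonneg_left (hK p) (mul_nonneg (norm_nonneg _) (norm_nonneg _))
      _ = (1 + ∑ p, C p) * ((∑ j, ‖eA A (r j)‖) * (∑ j, ‖eA A (r' j)‖)) := by
          rw [← Finset.sum_mul, mul_comm, Finset.sum_mul_sum, ← Finset.sum_product']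
          rfl
      _ ≤ (1 + ∑ p, C p) * (c * c') := by
          apply mul_le_mul_of_nonneg_left
          · exact mul_le_mul (h2 A hA) (h2' A hA) (Finset.sum_nonneg fun _ _ => norm_nonneg _) hc
          · have := Finset.sum_nonneg fun p (_ : p ∈ Finset.univ) => hC p
            linarith

/-- the constant of a functional -/
theorem Bd.exists_fun (φ : TLZ 4 →ₗ[ℤ[T;T⁻¹]] ℤ[T;T⁻¹]) : ∃ K : ℝ, 0 ≤ K ∧ ∀ (S : Set ℂˣ), S ⊆ SM → 
    ∀ (c : ℝ) (x : TLZ 4), Bd S c x → ∀ A ∈ S, ‖eA A (φ x)‖ ≤ K * c := by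
  choose C hC h1 using fun j => eA_bdd (φ (wz j))
  have h0 : 0 ≤ ∑ j, C j := Finset.sum_nonneg fun j _ => hC j
  refine ⟨∑ j, C j, h0, ?_⟩
  rintro S hS c x ⟨r, hr, h2⟩ A hA
  rw [hr, map_sum, map_sum]
  refine (norm_sum_le _ _).trans ?_
  refine le_trans (Finset.sum_le_sum (g := fun j => ‖eA A (r j)‖ * ∑ j, C j) fun j _ => ?_) ?_
  · rw [map_smul, smul_eq_mul, map_mul, norm_mul]
    refine mul_le_mul_of_nonneg_left ?_ (norm_nonneg _)
    exact (h1 j A (hS hA)).trans (Finset.single_le_sum (fun j _ => hC j) (Finset.mem_univ j))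
  · rw [← Finset.sum_mul, mul_comm]
    exact mul_le_mul_of_nonneg_left (h2 A hA) h0

end Pool.Agent.J4.H15.RU
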