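import Pool.Agent.J4.H15.RU.Dia
import Pool.Agent.TH561.PB.Mat

/-!
# The values of the functional of the closure of braids on four strands
-/

set_option autoImplicit false

namespace Pool.Agent.J4.H15.RU

open LaurentPolynomial Pool.Agent.H891R2.Jones Pool.Agent.W639.RB Pool.Agent.Y463.SK Pool.Agent.Y463.MP
  Pool.Agent.TH561

/-- the product of generators -/
noncomputable def EL (L : List ℕ) : TLZ 4 := (L.map (EZ 4)).prod

theorem EL_apply (L : List ℕ) (N : {N : ℕ // 3 ≤ N}) : 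
    ((EL L : TLZ 4) : BB 4) N = WP (ee 4 N.1 ((Fin 4 → Fin N.1) → ℂ)) L := by
  unfold EL WP
  induction L with
  | nil => rfl
  | cons i L ih =>
    rw [List.map_cons, List.prod_cons, Subalgebra.coe_mul, BB_mul, ih, List.map_cons, List.prod_cons]
    rfl

/-- the functional of the closure -/
noncomputable def ph : TLZ 4 →ₗ[ℤ[T;T⁻¹]] ℤ[T;T⁻¹] := PhiS (by norm_num : 0 < 4) (braidClosure 4)

theorem Zg_closure (A : ℂ) (N : ℕ) (g : (Fin 4 → Fin N) → ((Fin 4 → Fin N) → ℂ)) : 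
    Zg A N (braidClosure 4) g = Matrix.trace (Matrix.of g) := by
  unfold Zg Matrix.trace
  show (∑ col : Fin 4 → Fin N, Pool.Agent.H891R2.Jones.WW A [] [] col * g (col ∘ id) (col ∘ id)) = _
  refine Finset.sum_congr rfl fun col _ => ?_
  have : Pool.Agent.H891R2.Jones.WW A ([] : List (Fin 4 × Fin 4)) [] col = 1 := by 
    simp [Pool.Agent.H891R2.Jones.WW]
  rw [this, one_mul]
  rfl

theorem ph_EL (L : List ℕ) (hL : ∀ i ∈ L, i + 1 < 4) (N : {N : ℕ // 3 ≤ N}) : 
    (N.1 : ℂ) * ev N.1 N.2 (ph (EL L)) = Matrix.trace (WP (KK 4 N.1) L) := by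
  unfold ph
  rw [PhiS_spec, EL_apply, Zg_closure, WP_of L hL]

theorem ev_dd (N : {N : ℕ // 3 ≤ N}) : ev N.1 N.2 dd = (N.1 : ℂ) := by
  unfold dd
  rw [map_sub, map_neg, map_pow, map_pow, ev_T1, ev_Tm1]
  exact (Ar_d N.1 N.2).symm

theorem ph_of {L : List ℕ} (hL : ∀ i ∈ L, i + 1 < 4) {j : ℕ} 
    (h : ∀ N : ℕ, N ≠ 0 → Matrix.trace (WP (KK 4 N) L) = (N : ℂ) ^ (j + 1)) : ph (EL L) = dd ^ j := by
  apply ev_unique
  intro N
  rw [ph_EL L hL, h N.1 (by have := N.2; omega), map_pow, ev_dd, pow_succ, mul_comm]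

theorem tr_nil (N : ℕ) : Matrix.trace (WP (KK 4 N) []) = (N : ℂ) ^ 4 := by
  rw [WP_nil, Matrix.trace_one]
  simp

/-- removing the last generator -/
theorem tr_last {N : ℕ} (hN : N ≠ 0) (r : ℕ) (L : List ℕ) (hr : r + 1 < 4) (hL : ∀ i ∈ L, i < r) {j : ℕ}
    (h : Matrix.trace (WP (KK 4 N) L) = (N : ℂ) ^ (j + 1)) : 
    Matrix.trace (WP (KK 4 N) (L ++ [r])) = (N : ℂ) ^ j := by
  have h1 := markov hN r L hr hL
  have hNC : (N : ℂ) ≠ 0 := Nat.cast_ne_zero.2 hN
  have h2 : WP (KK 4 N) (L ++ [r]) = WP (KK 4 N) L * KK 4 N r := by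
    unfold WP
    rw [List.map_append, List.prod_append, List.map_cons, List.map_nil, List.prod_cons, List.prod_nil, 
      mul_one]
  rw [h2]
  apply mul_left_cancel₀ hNC
  rw [h1, h, pow_succ, mul_comm]

theorem tr_comm {N : ℕ} (L L' : List ℕ) : 
    Matrix.trace (WP (KK 4 N) (L ++ L')) = Matrix.trace (WP (KK 4 N) (L' ++ L)) := by
  unfold WP
  rw [List.map_append, List.prod_append, List.map_append, List.prod_append, Matrix.trace_mul_comm]

theorem ph_nil : ph 1 = dd ^ 3 := ph_of (L := []) (by simp) (fun N _ => tr_nil N)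

theorem tr_one {N : ℕ} (hN : N ≠ 0) (i : ℕ) (hi : i < 3) : 
    Matrix.trace (WP (KK 4 N) [i]) = (N : ℂ) ^ 3 :=
  tr_last hN i [] (by omega) (by simp) (tr_nil N)

theorem tr_two {N : ℕ} (hN : N ≠ 0) (i j : ℕ) (hi : i < j) (hj : j < 3) : 
    Matrix.trace (WP (KK 4 N) [i, j]) = (N : ℂ) ^ 2 :=
  tr_last hN j [i] (by omega) (by simpa using hi) (tr_one hN i (by omega))

theorem ph_one (i : ℕ) (hi : i < 3) : ph (EZ 4 i) = dd ^ 2 := by
  have h := ph_of (L := [i]) (by simp; omega) (fun N hN => tr_one hN i hi)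
  rw [← h]
  unfold EL
  rw [List.map_cons, List.map_nil, List.prod_cons, List.prod_nil, mul_one]

theorem ph_two (i j : ℕ) (hi : i < j) (hj : j < 3) : ph (EZ 4 i * EZ 4 j) = dd := by
  have h := ph_of (L := [i, j]) (by simp; omega) (fun N hN => tr_two hN i j hi hj)
  rw [pow_one] at h
  rw [← h]
  unfold EL
  rw [List.map_cons, List.map_cons, List.map_nil, List.prod_cons, List.prod_cons, List.prod_nil, mul_one]

theorem ph_two' (i j : ℕ) (hi : i < j) (hj : j < 3) : ph (EZ 4 j * EZ 4 i) = dd := by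
  have h := ph_of (L := [j, i]) (by simp; omega) (fun N hN => by
    rw [show [j, i] = [j] ++ [i] from rfl, tr_comm]
    exact tr_two hN i j hi hj)
  rw [pow_one] at h
  rw [← h]
  unfold EL
  rw [List.map_cons, List.map_cons, List.map_nil, List.prod_cons, List.prod_cons, List.prod_nil, mul_one]

theorem ph_three : ph (EZ 4 0 * EZ 4 1 * EZ 4 2) = 1 := by
  have h := ph_of (L := [0, 1, 2]) (by decide) (fun N hN => 
    tr_last hN 2 [0, 1] (by norm_num) (by decide) (tr_two hN 0 1 (by norm_num) (by norm_num)))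
  rw [pow_zero] at h
  rw [← h]
  unfold EL
  simp only [List.map_cons, List.map_nil, List.prod_cons, List.prod_nil, mul_one, mul_assoc]

theorem ph_three' : ph (EZ 4 0 * EZ 4 2 * EZ 4 1) = 1 := by
  have h := ph_of (L := [0, 2, 1]) (by decide) (fun N hN => by
    rw [show [0, 2, 1] = [0, 2] ++ [1] from rfl, tr_comm]
    exact tr_last hN 2 [1, 0] (by norm_num) (by decide) (by
      rw [show [1, 0] = [1] ++ [0] from rfl, tr_comm]
      exact tr_two hN 0 1 (by norm_num) (by norm_num)))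
  rw [pow_zero] at h
  rw [← h]
  unfold EL
  simp only [List.map_cons, List.map_nil, List.prod_cons, List.prod_nil, mul_one, mul_assoc]

end Pool.Agent.J4.H15.RU
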