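import Pool.Agent.J4.H15.RU.Tl
import Pool.Agent.Y463.SK.Main

/-!
# Words inserted in a box of a diagram
-/

set_option autoImplicit false

namespace Pool.Agent.J4.H15.RU

open LaurentPolynomial Pool.Agent.H891R2.Jones Pool.Agent.W639.RB Pool.Agent.Y463.SK Pool.Agent.Y463.MP

theorem bracket_dia (O : Outer 4) (w : List (Letter 4)) : 
    (dia O w).bracket = PhiS (by norm_num : 0 < 4) O (Zw w) := by
  induction w generalizing O with
  | nil => 
    rw [show Zw [] = 1 from rfl, PhiS_one]
    rfl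
  | cons x w ih =>
    have h1 : Zw (x :: w) = sZ 4 (x.1, (x.2 : ℕ)) * Zw w := by
      unfold Zw
      rw [List.map_cons, List.prod_cons]
    rw [h1, ← PhiS_push, ← ih]
    rfl

theorem writhe_dia (O : Outer 4) (w : List (Letter 4)) : 
    (dia O w).writhe = owr O + costS (toN w) (pat O.up) := by
  show (draw O (toN w)).close.writhe = _
  rw [close_writhe, (draw_writhe (toN w) O (toN_lt w)).1]

/-! ### permutations -/

theorem permW_append (w w' : List (Letter 4)) : permW (w ++ w') = permW w * permW w' := by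
  simp [permW]

theorem permW_inv (w : List (Letter 4)) : permW (invW w) = (permW w)⁻¹ := by
  induction w with
  | nil => rfl
  | cons x w ih =>
    have h1 : invW (x :: w) = invW w ++ [(!x.1, x.2)] := by simp [invW]
    have h2 : x :: w = [x] ++ w := rfl
    rw [h1, permW_append, ih, h2, permW_append, mul_inv_rev]
    congr 1

theorem pure_wU {a b : List (Letter 4)} (ha : IsPure a) (hb : IsPure b) (k : ℕ) : 
    IsPure (wU a b k) := by
  unfold IsPure at *
  induction k with
  | zero => rw [wU, permW_append, permW_append, permW_inv, ha, hb]; simp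
  | succ k ih =>
    rw [wU]
    simp only [permW_append, permW_inv, ha, hb, ih]
    simp

theorem costS_pure (w w' : List (Letter 4)) (hw : IsPure w) (U : ℕ → ℤ) : 
    costS (toN (w ++ w')) U = costS (toN w) U + costS (toN w') U := by
  rw [toN_append, costS_append, permL_of_pure hw]
  rfl

theorem costS_pure_inv (w : List (Letter 4)) (hw : IsPure w) (U : ℕ → ℤ) : 
    costS (toN (invW w)) U = - costS (toN w) U := by
  rw [toN_inv]
  have h := costS_inv (toN w) U
  rw [permL_of_pure hw] at h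
  exact h

theorem pure_inv {w : List (Letter 4)} (hw : IsPure w) : IsPure (invW w) := by
  unfold IsPure at *
  rw [permW_inv, hw, inv_one]

theorem pure_append {w w' : List (Letter 4)} (hw : IsPure w) (hw' : IsPure w') : IsPure (w ++ w') := by
  unfold IsPure at *
  rw [permW_append, hw, hw', one_mul]

theorem cost_wU {a b : List (Letter 4)} (ha : IsPure a) (hb : IsPure b) (k : ℕ) (U : ℕ → ℤ) : 
    costS (toN (wU a b (k + 1))) U = 0 := by
  have h1 := pure_wU ha hb k
  have h2 := pure_append (pure_append hb h1) (pure_inv hb)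
  rw [wU, costS_pure _ _ (pure_append ha (pure_append (pure_append (pure_append h1 h2) (pure_inv h1)) 
    (pure_inv h2))), costS_pure _ _ ha, costS_pure _ _ (pure_append (pure_append h1 h2) (pure_inv h1)),
    costS_pure _ _ (pure_append h1 h2), costS_pure _ _ h1, costS_pure_inv _ ha, costS_pure_inv _ h1, 
    costS_pure_inv _ h2]
  ring

theorem pure_wa {n : ℕ} (hn : Even n) : IsPure (wa n) := by
  unfold IsPure wa
  rw [permW_append]
  unfold permW
  rw [List.map_replicate, List.map_replicate, List.prod_replicate, List.prod_replicate]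
  obtain ⟨m, rfl⟩ := hn
  rw [← two_mul, pow_mul, pow_mul, pow_two, pow_two, Equiv.swap_mul_self, Equiv.swap_mul_self, one_pow, 
    one_mul]

theorem pure_wb {n : ℕ} (hn : Even n) : IsPure (wb n) := by
  have h := pure_wa hn
  unfold IsPure at *
  unfold wb
  rw [permW_append, permW_append, h, mul_one]
  simp [permW]

/-- the word `W(k, n)` -/
def WW (k n : ℕ) : List (Letter 4) := wU (wa n) (wb n) (k + 2)

theorem pure_WW (k : ℕ) {n : ℕ} (hn : Even n) : IsPure (WW k n) := pure_wU (pure_wa hn) (pure_wb hn) _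

theorem lam_even (m : ℕ) : (-(T (-1) : ℤ[T;T⁻¹]) ^ 4) ^ (2 * m) = T (-(8 * (m : ℤ))) := by
  rw [pow_mul, neg_pow_two, ← pow_mul, ← pow_mul, T_pow]
  congr 1
  push_cast
  ring

/-- the difference -/
theorem div_WW (k m : ℕ) : ∃ z : TLZ 4, Zw (WW k (2 * m)) - 1 = 
    ((T (-(8 * (m : ℤ))) - 1 : ℤ[T;T⁻¹]) ^ (2 ^ k)) • z := by
  apply div_all (l' := T (8 * (m : ℤ)))
  · rw [← T_add, neg_add_cancel, T_zero]
  · rw [fn_spec, lam_even]

/-- the normalised bracket changes by a multiple -/
theorem dvd_WW (O : Outer 4) (v : List (Letter 4)) (k m : ℕ) : 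
    ((T (8 * (m : ℤ)) - 1 : ℤ[T;T⁻¹]) ^ (2 ^ k)) ∣ 
      (dia O (WW k (2 * m) ++ v)).fPoly - (dia O v).fPoly := by
  obtain ⟨z, hz⟩ := div_WW k m
  have hp := pure_WW k (even_two_mul m)
  have hc : costS (toN (WW k (2 * m))) (pat O.up) = 0 := 
    cost_wU (pure_wa (even_two_mul m)) (pure_wb (even_two_mul m)) _ _
  have h1 : (dia O (WW k (2 * m) ++ v)).writhe = (dia O v).writhe := by
    rw [writhe_dia, writhe_dia, costS_pure _ _ hp, hc, zero_add]
  unfold Diagram.fPoly
  rw [h1, ← mul_sub, bracket_dia, bracket_dia, Zw_append, ← map_sub]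
  have h2 : Zw (WW k (2 * m)) * Zw v - Zw v = 
      ((T (-(8 * (m : ℤ))) - 1 : ℤ[T;T⁻¹]) ^ (2 ^ k)) • (z * Zw v) := by
    rw [← smul_mul_assoc, ← hz, sub_mul, one_mul]
  rw [h2, map_smul, smul_eq_mul]
  refine Dvd.dvd.mul_left (Dvd.dvd.mul_right ?_ _) _
  apply pow_dvd_pow_of_dvd
  refine ⟨-T (-(8 * (m : ℤ))), ?_⟩
  rw [mul_neg, sub_mul, ← T_add, add_neg_cancel, T_zero, one_mul, neg_sub]

/-- the diagrams are closed -/
theorem dia_closed (O : Outer 4) (hO : O.close.IsClosed) (w : List (Letter 4)) 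
    (h : ∀ j, O.up (permW w j) = O.up j) : (dia O w).IsClosed := by
  show (draw O (toN w)).close.IsClosed
  rw [closed_iff] at hO ⊢
  have h2 := (draw_writhe (toN w) O (toN_lt _)).2
  have h3 : (draw O (toN w)).up = O.up := by
    apply pat_inj
    rw [h2]
    funext i
    rw [Function.comp_apply]
    rcases Nat.lt_or_ge i 4 with hi | hi
    · have h4 := (permL_toN w).1 ⟨i, hi⟩
      simp only at h4
      rw [h4]
      unfold pat
      rw [dif_pos (Fin.is_lt _), dif_pos hi, Fin.eta, h]
    · rw [(permL_toN w).2 i hi]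
  rw [h3]
  exact good_draw _ _ O hO

/-- the standard word `σ₁ σ₂ σ₃` -/
def dl : List (Letter 4) := [(true, 0), (true, 1), (true, 2)]

theorem knot_WW (k : ℕ) {n : ℕ} (hn : Even n) (a b : Fin 4) : (permW (WW k n ++ dl)).SameCycle a b := by
  have h := pure_WW k hn
  unfold IsPure at h
  rw [permW_append, h, one_mul]
  have h1 : permW dl = Equiv.swap 0 1 * (Equiv.swap 1 2 * Equiv.swap 2 3) := by
    simp [permW, dl]
  rw [h1]
  have h2 : ∀ a b : Fin 4, ∃ i : Fin 4, ((Equiv.swap 0 1 * (Equiv.swap 1 2 * Equiv.swap 2 3) : 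
      Equiv.Perm (Fin 4)) ^ (i : ℕ)) a = b := by decide
  obtain ⟨i, hi⟩ := h2 a b
  exact ⟨i, by rw [zpow_natCast]; exact hi⟩

end Pool.Agent.J4.H15.RU
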