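import Pool.Agent.J4.H15.RU.Alg

/-!
# The filtration of the group generated by `a` and `b`
-/

set_option autoImplicit false

namespace Pool.Agent.J4.H15.RU

section filt

variable {R B : Type*} [CommRing R] [Ring B] [Algebra R B] {d : R} {e1 e2 e3 : B}

/-- the data: `A A' = 1`, `d = -A² - A'²`, `l l' = 1`, `1 + d f = l` -/
structure Dat (R : Type*) [CommRing R] (d A A' l l' f : R) : Prop where
  hA : A * A' = 1
  hd : d = -A ^ 2 - A' ^ 2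
  hl : l * l' = 1
  hf : 1 + d * f = l

/-- `σ₂` and its inverse -/
def ss (A A' : R) (e2 : B) : B := A • (1 : B) + A' • e2

theorem ss_mul (h : TL4 d e1 e2 e3) {A A' : R} (hA : A * A' = 1) (hd : d = -A ^ 2 - A' ^ 2) : 
    ss A A' e2 * ss A' A e2 = 1 := by
  unfold ss
  simp only [mul_add, add_mul, mul_smul_comm, smul_mul_assoc, mul_one, one_mul, smul_smul, h.s2]
  refine Eq.trans (b := (A * A') • (1 : B) + (A' * A' + A * A + A * A' * d) • e2) (by module) ?_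
  rw [hA, hd, one_smul]
  have : A' * A' + A * A + 1 * (-A ^ 2 - A' ^ 2) = 0 := by ring
  rw [this, zero_smul, add_zero]

/-- the generators -/
def Ys (A A' f l' : R) (e1 e2 e3 : B) : Set B :=
  {ya f l' e1 e3, ya f l' e3 e1, ss A A' e2 * ya f l' e1 e3 * ss A' A e2, 
    ss A A' e2 * ya f l' e3 e1 * ss A' A e2}

variable {A A' l l' f : R}

theorem ya_cong (h : TL4 d e1 e2 e3) (hD : Dat R d A A' l l' f) : 
    ∃ i ∈ II d e1 e2 e3, ya f l' e1 e3 = (e1 - e3) + i := by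
  refine ⟨d • ((l' * f) • e3) - (l' * f) • (e1 * e3), 
    Ideal.sub_mem _ (d_mem _) (II_smul _ n_mem), ?_⟩
  unfold ya
  have h4 : l' * (1 + d * f) = 1 := by rw [hD.hf, mul_comm, hD.hl]
  have h5 : l' • e3 = e3 - (d * (l' * f)) • e3 := by
    have : l' = 1 - d * (l' * f) := by linear_combination h4
    conv_lhs => rw [this]
    rw [sub_smul, one_smul]
  rw [h5, smul_smul]
  abel

theorem ya_cong' (h : TL4 d e1 e2 e3) (hD : Dat R d A A' l l' f) : 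
    ∃ i ∈ II d e1 e2 e3, ya f l' e3 e1 = -(e1 - e3) + i := by
  refine ⟨d • ((l' * f) • e1) - (l' * f) • (e1 * e3), 
    Ideal.sub_mem _ (d_mem _) (II_smul _ n_mem), ?_⟩
  unfold ya
  have h4 : l' * (1 + d * f) = 1 := by rw [hD.hf, mul_comm, hD.hl]
  have h5 : l' • e1 = e1 - (d * (l' * f)) • e1 := by
    have : l' = 1 - d * (l' * f) := by linear_combination h4
    conv_lhs => rw [this]
    rw [sub_smul, one_smul]
  rw [h5, smul_smul, h.c13]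
  abel

/-- every generator is `± g E g⁻¹` modulo the ideal -/
theorem Ys_cong (h : TL4 d e1 e2 e3) (hgen : ∀ x : B, x ∈ Algebra.adjoin R ({e1, e2, e3} : Set B))
    (hD : Dat R d A A' l l' f) {y : B} (hy : y ∈ Ys A A' f l' e1 e2 e3) : 
    ∃ (g g' : B) (ε : ℤ) (i : B), ((g = 1 ∧ g' = 1) ∨ (g = ss A A' e2 ∧ g' = ss A' A e2)) ∧ 
      i ∈ II d e1 e2 e3 ∧ y = ε • (g * (e1 - e3) * g') + i := by
  obtain ⟨i, hi, h1⟩ := ya_cong h hD
  obtain ⟨j, hj, h2⟩ := ya_cong' h hD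
  rcases hy with rfl | rfl | rfl | rfl
  · exact ⟨1, 1, 1, i, Or.inl ⟨rfl, rfl⟩, hi, by rw [h1, one_mul, mul_one, one_smul]⟩
  · exact ⟨1, 1, -1, j, Or.inl ⟨rfl, rfl⟩, hj, by rw [h2, one_mul, mul_one, neg_one_smul]⟩
  · refine ⟨_, _, 1, ss A A' e2 * i * ss A' A e2, Or.inr ⟨rfl, rfl⟩, ?_, ?_⟩
    · exact II_right h hgen _ (Ideal.mul_mem_left _ _ hi)
    · rw [h1, one_smul, mul_add, add_mul]
  · refine ⟨_, _, -1, ss A A' e2 * j * ss A' A e2, Or.inr ⟨rfl, rfl⟩, ?_, ?_⟩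
    · exact II_right h hgen _ (Ideal.mul_mem_left _ _ hj)
    · rw [h2, neg_one_smul, mul_add, add_mul, mul_neg, neg_mul]

theorem gg_cases (h : TL4 d e1 e2 e3) (hD : Dat R d A A' l l' f) {g g' k k' : B} 
    (h1 : (g = 1 ∧ g' = 1) ∨ (g = ss A A' e2 ∧ g' = ss A' A e2))
    (h2 : (k = 1 ∧ k' = 1) ∨ (k = ss A A' e2 ∧ k' = ss A' A e2)) : 
    g' * k = 1 ∨ g' * k = A • (1 : B) + A' • e2 ∨ g' * k = A' • (1 : B) + A • e2 := by
  rcases h1 with ⟨rfl, rfl⟩ | ⟨rfl, rfl⟩ <;> rcases h2 with ⟨rfl, rfl⟩ | ⟨rfl, rfl⟩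
  · left; rw [mul_one]
  · right; left; rw [one_mul]; rfl
  · right; right; rw [mul_one]; rfl
  · left
    exact ss_mul h (by rw [mul_comm]; exact hD.hA) (by rw [hD.hd]; ring)

/-- three factors -/
theorem triple (h : TL4 d e1 e2 e3) (hgen : ∀ x : B, x ∈ Algebra.adjoin R ({e1, e2, e3} : Set B))
    (hD : Dat R d A A' l l' f) {y1 y2 y3 : B} (h1 : y1 ∈ Ys A A' f l' e1 e2 e3) 
    (h2 : y2 ∈ Ys A A' f l' e1 e2 e3) (h3 : y3 ∈ Ys A A' f l' e1 e2 e3) : 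
    y1 * y2 * y3 ∈ II d e1 e2 e3 := by
  have hr : ∀ {z : B}, z ∈ II d e1 e2 e3 → ∀ x, z * x ∈ II d e1 e2 e3 := fun hz x => II_right h hgen x hz
  obtain ⟨g1, g1', ε1, i1, hg1, hi1, rfl⟩ := Ys_cong h hgen hD h1
  obtain ⟨g2, g2', ε2, i2, hg2, hi2, rfl⟩ := Ys_cong h hgen hD h2
  obtain ⟨g3, g3', ε3, i3, hg3, hi3, rfl⟩ := Ys_cong h hgen hD h3
  set E := e1 - e3 with hE
  have hm : E * (g1' * g2) * E * (g2' * g3) * E ∈ II d e1 e2 e3 := 
    tri h hgen _ _ (gg_cases h hD hg1 hg2) (gg_cases h hD hg2 hg3)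
  have key : (ε1 • (g1 * E * g1') + i1) * (ε2 • (g2 * E * g2') + i2) * (ε3 • (g3 * E * g3') + i3) = 
      (ε1 * ε2 * ε3) • (g1 * (E * (g1' * g2) * E * (g2' * g3) * E) * g3') + 
      (ε1 • (g1 * E * g1') + i1) * (ε2 • (g2 * E * g2') + i2) * i3 + 
      ((ε1 • (g1 * E * g1') + i1) * i2) * (ε3 • (g3 * E * g3')) + 
      i1 * ((ε2 • (g2 * E * g2')) * (ε3 • (g3 * E * g3'))) := by
    simp only [mul_add, add_mul, mul_smul_comm, smul_mul_assoc, smul_smul, mul_assoc, smul_add]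
    module
  rw [key]
  refine Ideal.add_mem _ (Ideal.add_mem _ (Ideal.add_mem _ ?_ ?_) ?_) ?_
  · exact zsmul_mem (hr (Ideal.mul_mem_left _ _ hm) _) _
  · exact Ideal.mul_mem_left _ _ hi3
  · exact hr (Ideal.mul_mem_left _ _ hi2) _
  · exact hr hi1 _

/-- four factors -/
theorem quad (h : TL4 d e1 e2 e3) (hgen : ∀ x : B, x ∈ Algebra.adjoin R ({e1, e2, e3} : Set B))
    (hD : Dat R d A A' l l' f) {y1 y2 y3 y4 : B} (h1 : y1 ∈ Ys A A' f l' e1 e2 e3) 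
    (h2 : y2 ∈ Ys A A' f l' e1 e2 e3) (h3 : y3 ∈ Ys A A' f l' e1 e2 e3) 
    (h4 : y4 ∈ Ys A A' f l' e1 e2 e3) : ∃ w : B, y1 * y2 * y3 * y4 = d • w := by
  obtain ⟨x, x', w, hz⟩ := mem_II.1 (triple h hgen hD h1 h2 h3)
  have ha := n_ya h hD.hl hD.hf
  have hb := n2_ya h hD.hl hD.hf
  have ha' : (e1 * e3) * ya f l' e3 e1 = 0 := by
    have := n_ya h.swap hD.hl hD.hf
    rwa [← h.c13] at this
  have hb' : (e1 * e3 * e2) * ya f l' e3 e1 = 0 := by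
    have := n2_ya h.swap hD.hl hD.hf
    rwa [← h.c13] at this
  have hs1 : (e1 * e3) * ss A A' e2 = A • (e1 * e3) + A' • (e1 * e3 * e2) := by
    unfold ss
    rw [mul_add, mul_smul_comm, mul_smul_comm, mul_one]
  have hs2 : (e1 * e3 * e2) * ss A A' e2 = (A + A' * d) • (e1 * e3 * e2) := by
    unfold ss
    rw [mul_add, mul_smul_comm, mul_smul_comm, mul_one, mul_assoc (e1 * e3), h.s2, mul_smul_comm, 
      smul_smul, ← add_smul]
  have hn : (e1 * e3) * y4 = 0 ∧ (e1 * e3 * e2) * y4 = 0 := by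
    rcases h4 with rfl | rfl | rfl | rfl
    · exact ⟨ha, hb⟩
    · exact ⟨ha', hb'⟩
    · constructor
      · rw [← mul_assoc, ← mul_assoc, hs1, add_mul, smul_mul_assoc, smul_mul_assoc, ha, hb]; simp
      · rw [← mul_assoc, ← mul_assoc, hs2, smul_mul_assoc, hb]; simp
    · constructor
      · rw [← mul_assoc, ← mul_assoc, hs1, add_mul, smul_mul_assoc, smul_mul_assoc, ha', hb']; simp
      · rw [← mul_assoc, ← mul_assoc, hs2, smul_mul_assoc, hb']; simp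
  refine ⟨w * y4, ?_⟩
  rw [hz, add_mul, add_mul, mul_assoc x, hn.1, mul_assoc x', hn.2, mul_zero, mul_zero, zero_add, 
    zero_add, smul_mul_assoc]

/-! ### submodules -/

/-- the multiples of `c` -/
def Dm (c : R) : Submodule R B := LinearMap.range (LinearMap.lsmul R B c)

theorem mem_Dm {c : R} {z : B} : z ∈ (Dm c : Submodule R B) ↔ ∃ w, z = c • w := by
  unfold Dm
  rw [LinearMap.mem_range]
  constructor
  · rintro ⟨w, rfl⟩; exact ⟨w, rfl⟩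
  · rintro ⟨w, rfl⟩; exact ⟨w, rfl⟩

theorem Dm_mul (c c' : R) : (Dm c * Dm c' : Submodule R B) ≤ Dm (c * c') := by
  rw [Submodule.mul_le]
  intro x hx y hy
  rw [mem_Dm] at hx hy ⊢
  obtain ⟨w, rfl⟩ := hx
  obtain ⟨w', rfl⟩ := hy
  exact ⟨w * w', by rw [smul_mul_assoc, mul_smul_comm, smul_smul]⟩

/-- the span of the products of at least `j` elements of `Y` -/
def JJ (Y : Submodule R B) (j : ℕ) : Submodule R B := ⨆ i : ℕ, Y ^ (j + i)

theorem JJ_mul (Y : Submodule R B) (i j : ℕ) : JJ Y i * JJ Y j ≤ JJ Y (i + j) := by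
  unfold JJ
  rw [Submodule.iSup_mul]
  refine iSup_le fun a => ?_
  rw [Submodule.mul_iSup]
  refine iSup_le fun b => ?_
  rw [← pow_add]
  have : i + a + (j + b) = i + j + (a + b) := by omega
  rw [this]
  exact le_iSup (fun k => Y ^ (i + j + k)) (a + b)

theorem mul_mem_JJ (Y : Submodule R B) {i j : ℕ} {x y : B} (hx : x ∈ JJ Y i) (hy : y ∈ JJ Y j) : 
    x * y ∈ JJ Y (i + j) := JJ_mul Y i j (Submodule.mul_mem_mul hx hy)

theorem mul_mem_JJ0 (Y : Submodule R B) {x y : B} (hx : x ∈ JJ Y 0) (hy : y ∈ JJ Y 0) : 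
    x * y ∈ JJ Y 0 := by
  have h1 := mul_mem_JJ Y hx hy
  rwa [add_zero] at h1

theorem one_mem_JJ (Y : Submodule R B) : (1 : B) ∈ JJ Y 0 := by
  have h1 : Y ^ (0 + 0) ≤ JJ Y 0 := le_iSup (fun k => Y ^ (0 + k)) 0
  apply h1
  rw [add_zero, pow_zero]
  exact Submodule.one_le.1 le_rfl

theorem JJ_anti (Y : Submodule R B) {i j : ℕ} (h : i ≤ j) : JJ Y j ≤ JJ Y i := by
  unfold JJ
  refine iSup_le fun a => ?_
  have : j + a = i + (j - i + a) := by omega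
  rw [this]
  exact le_iSup (fun k => Y ^ (i + k)) (j - i + a)

theorem Y_le (Y : Submodule R B) : Y ≤ JJ Y 1 := by
  have h1 : Y ^ (1 + 0) ≤ JJ Y 1 := le_iSup (fun k => Y ^ (1 + k)) 0
  rwa [add_zero, pow_one] at h1

theorem Y4 (S : Set B) (hq : ∀ y1 ∈ S, ∀ y2 ∈ S, ∀ y3 ∈ S, ∀ y4 ∈ S, ∃ w : B, y1 * y2 * y3 * y4 = d • w) :
    Submodule.span R S * Submodule.span R S * Submodule.span R S * Submodule.span R S ≤ Dm d := by
  rw [Submodule.span_mul_span, Submodule.span_mul_span, Submodule.span_mul_span, Submodule.span_le]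
  intro z hz
  obtain ⟨z3, hz3, y4, h4, rfl⟩ := Set.mem_mul.1 hz
  obtain ⟨z2, hz2, y3, h3, rfl⟩ := Set.mem_mul.1 hz3
  obtain ⟨y1, h1, y2, h2, rfl⟩ := Set.mem_mul.1 hz2
  exact mem_Dm.2 (hq y1 h1 y2 h2 y3 h3 y4 h4)

theorem Ypow (Y : Submodule R B) (h4 : Y * Y * Y * Y ≤ Dm d) (i : ℕ) : ∀ k : ℕ, 
    Y ^ (4 * k + i) ≤ Dm (d ^ k)
  | 0 => by
    intro z _
    rw [mem_Dm]
    exact ⟨z, by rw [pow_zero, one_smul]⟩
  | (k+1) => by
    have e1 : 4 * (k + 1) + i = 1 + (1 + (1 + (1 + (4 * k + i)))) := by omega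
    rw [e1, pow_add, pow_add, pow_add, pow_add, pow_one, pow_succ' d k, ← mul_assoc, ← mul_assoc, 
      ← mul_assoc]
    exact le_trans (mul_le_mul' h4 (Ypow Y h4 i k)) (Dm_mul _ _)

/-- products of `4 k` generators are divisible by `d ^ k` -/
theorem JJ_four (h : TL4 d e1 e2 e3) (hgen : ∀ x : B, x ∈ Algebra.adjoin R ({e1, e2, e3} : Set B))
    (hD : Dat R d A A' l l' f) (k : ℕ) : 
    JJ (Submodule.span R (Ys A A' f l' e1 e2 e3)) (4 * k) ≤ Dm (d ^ k) := 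
  iSup_le fun i => Ypow _ (Y4 _ (fun _ h1 _ h2 _ h3 _ h4 => quad h hgen hD h1 h2 h3 h4)) i k

/-! ### group elements -/

/-- `g - 1` is `f ^ j` times an element of the `j`-th step -/
def Deep (Y : Submodule R B) (f : R) (j : ℕ) (g : B) : Prop := ∃ z ∈ JJ Y j, g = 1 + f ^ j • z

theorem Deep.mem {Y : Submodule R B} {j : ℕ} {g : B} (h : Deep Y f j g) : g ∈ JJ Y 0 := by
  obtain ⟨z, hz, rfl⟩ := h
  exact Submodule.add_mem _ (one_mem_JJ Y) (Submodule.smul_mem _ _ (JJ_anti Y (Nat.zero_le _) hz))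

theorem Deep.comm {Y : Submodule R B} {i j : ℕ} {g h : Bˣ} (hg : Deep Y f i (g : B)) 
    (hh : Deep Y f j (h : B)) (hg' : ((g⁻¹ : Bˣ) : B) ∈ JJ Y 0) (hh' : ((h⁻¹ : Bˣ) : B) ∈ JJ Y 0) : 
    Deep Y f (i + j) ((g * h * g⁻¹ * h⁻¹ : Bˣ) : B) := by
  obtain ⟨z, hz, h1⟩ := hg
  obtain ⟨w, hw, h2⟩ := hh
  refine ⟨(z * w - w * z) * (((g⁻¹ : Bˣ) : B) * ((h⁻¹ : Bˣ) : B)), ?_, ?_⟩
  · have h3 : z * w - w * z ∈ JJ Y (i + j) := by
      have h8 := mul_mem_JJ Y hw hz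
      rw [Nat.add_comm j i] at h8
      exact Submodule.sub_mem _ (mul_mem_JJ Y hz hw) h8
    have h4 : ((g⁻¹ : Bˣ) : B) * ((h⁻¹ : Bˣ) : B) ∈ JJ Y 0 := mul_mem_JJ0 Y hg' hh'
    have := mul_mem_JJ Y h3 h4
    rwa [add_zero] at this
  · have h5 : f ^ (i + j) • (z * w - w * z) = (g : B) * h - h * g := by
      rw [h1, h2, pow_add]
      generalize f ^ i = α
      generalize f ^ j = β
      have e1 : (1 + α • z) * (1 + β • w) = 1 + α • z + β • w + (α * β) • (z * w) := by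
        rw [mul_add, mul_one, add_mul, one_mul, smul_mul_smul_comm]
        abel
      have e2 : (1 + β • w) * (1 + α • z) = 1 + α • z + β • w + (α * β) • (w * z) := by
        rw [mul_add, mul_one, add_mul, one_mul, smul_mul_smul_comm, mul_comm β α]
        abel
      rw [e1, e2, smul_sub]
      abel
    have h6 : (h : B) * g * (((g⁻¹ : Bˣ) : B) * ((h⁻¹ : Bˣ) : B)) = 1 := by
      rw [mul_assoc, ← mul_assoc (g : B), Units.mul_inv, one_mul, Units.mul_inv]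
    have h7 : ((g * h * g⁻¹ * h⁻¹ : Bˣ) : B) = (g : B) * h * (((g⁻¹ : Bˣ) : B) * ((h⁻¹ : Bˣ) : B)) := by
      rw [Units.val_mul, Units.val_mul, Units.val_mul, mul_assoc ((g : B) * h)]
    rw [← smul_mul_assoc, h5, sub_mul, h6, h7]
    rw [add_sub_cancel]

theorem Deep.conj {Y : Submodule R B} {i : ℕ} {g a : Bˣ} (hg : Deep Y f i (g : B)) 
    (ha : (a : B) ∈ JJ Y 0) (ha' : ((a⁻¹ : Bˣ) : B) ∈ JJ Y 0) : 
    Deep Y f i ((a * g * a⁻¹ : Bˣ) : B) := by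
  obtain ⟨z, hz, h1⟩ := hg
  refine ⟨a * z * ((a⁻¹ : Bˣ) : B), ?_, ?_⟩
  · have h2 := mul_mem_JJ Y (mul_mem_JJ Y ha hz) ha'
    rwa [zero_add, add_zero] at h2
  · rw [Units.val_mul, Units.val_mul, h1, mul_add, add_mul, mul_one, Units.mul_inv, mul_smul_comm, 
      smul_mul_assoc]

/-- the iterated commutators -/
def uu {G : Type*} [Group G] (a b : G) : ℕ → G
  | 0 => a * b * a⁻¹
  | (k+1) => a * (uu a b k * (b * uu a b k * b⁻¹) * (uu a b k)⁻¹ * (b * uu a b k * b⁻¹)⁻¹) * a⁻¹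

theorem uu_deep {Y : Submodule R B} {a b : Bˣ} (ha : Deep Y f 1 (a : B)) (hb : Deep Y f 1 (b : B)) 
    (ha' : ((a⁻¹ : Bˣ) : B) ∈ JJ Y 0) (hb' : ((b⁻¹ : Bˣ) : B) ∈ JJ Y 0) (k : ℕ) : 
    Deep Y f (2 ^ k) ((uu a b k : Bˣ) : B) ∧ (((uu a b k)⁻¹ : Bˣ) : B) ∈ JJ Y 0 := by
  have hm : ∀ {x y : B}, x ∈ JJ Y 0 → y ∈ JJ Y 0 → x * y ∈ JJ Y 0 := fun hx hy => mul_mem_JJ0 Y hx hy
  have ha0 := ha.mem
  have hb0 := hb.mem
  induction k with
  | zero =>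
    constructor
    · exact Deep.conj hb ha0 ha'
    · unfold uu
      rw [mul_inv_rev, mul_inv_rev, inv_inv, Units.val_mul, Units.val_mul]
      exact hm ha0 (hm hb' ha')
  | succ k ih =>
    obtain ⟨h1, h2⟩ := ih
    have h3 : Deep Y f (2 ^ k) ((b * uu a b k * b⁻¹ : Bˣ) : B) := Deep.conj h1 hb0 hb'
    have h4 : (((b * uu a b k * b⁻¹)⁻¹ : Bˣ) : B) ∈ JJ Y 0 := by
      rw [mul_inv_rev, mul_inv_rev, inv_inv, Units.val_mul, Units.val_mul]
      exact hm hb0 (hm h2 hb')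
    have h5 := Deep.comm h1 h3 h2 h4
    have h6 : 2 ^ (k + 1) = 2 ^ k + 2 ^ k := by ring
    constructor
    · rw [h6]
      exact Deep.conj h5 ha0 ha'
    · have key : ∀ a U V : Bˣ, (a * (U * V * U⁻¹ * V⁻¹) * a⁻¹)⁻¹ = a * (V * (U * (V⁻¹ * U⁻¹))) * a⁻¹ := by
        intro a U V
        group
      have h7 : ((uu a b (k+1))⁻¹ : Bˣ) = a * ((b * uu a b k * b⁻¹) * (uu a b k * ((b * uu a b k * b⁻¹)⁻¹ * 
        (uu a b k)⁻¹))) * a⁻¹ := key a (uu a b k) (b * uu a b k * b⁻¹)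
      rw [h7, Units.val_mul, Units.val_mul, Units.val_mul, Units.val_mul (uu a b k), 
        Units.val_mul ((b * uu a b k * b⁻¹)⁻¹)]
      exact hm (hm ha0 (hm h3.mem (hm h1.mem (hm h4 h2)))) ha'

end filt

end Pool.Agent.J4.H15.RU
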