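import Pool.Agent.J4.H15.RU.Rk

/-!
# The steps in an abstract algebra
-/

set_option autoImplicit false

namespace Pool.Agent.J4.H15.RU

open Polynomial

variable {L B : Type*} [Field L] [Ring B] [Algebra L B]

theorem nzc {a b d c1 c2 c3 c4 : L} (ha : a ≠ 0) (hb : b ≠ 0) (hd : d ≠ 0) 
    (h1 : c1 ≠ 0) (h2 : c2 ≠ 0) (h3 : c3 ≠ 0) (h4 : c4 ≠ 0) : 
    (c1 * c2 * c3 * c4 * ((b * d⁻¹ ^ 2) * (a * d⁻¹ ^ 2) * (b * d⁻¹ ^ 2))) * (-(b ^ 3) * d⁻¹) ≠ 0 := by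
  simp [ha, hb, hd, h1, h2, h3, h4]

theorem TopIs.ofC (b : B) : TopIs (C b) 0 b := ⟨by simp, by simp⟩

/-- the polynomial of a step -/
noncomputable def QQ (Ap Am Bp Bm : B[X]) (z z' : B) : B[X] := 
  Ap * C z * Am * Bp * C z * Bm * Ap * C z' * Am * Bp * C z' * Bm

theorem QQ_ev (x : L) {Ap Am Bp Bm : B[X]} {α α' β β' z z' : B} (hAp : evx x Ap = x • α) 
    (hAm : evx x Am = x • α') (hBp : evx x Bp = x • β) (hBm : evx x Bm = x • β') : 
    evx x (QQ Ap Am Bp Bm z z') = 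
      x ^ 8 • ((α * z * α') * (β * z * β') * (α * z' * α') * (β * z' * β')) := by
  unfold QQ
  simp only [map_mul, hAp, hAm, hBp, hBm, evx_C, smul_mul_assoc, mul_smul_comm, smul_smul, mul_assoc]
  congr 1
  ring

variable {a b d : L} {P M e : B}

theorem good_one (H : PMe a b d P M e) (hee : e * e = d • e) (hTh : P * e * M ≠ 0) {Ap Am Bp Bm : B[X]} 
    (hAp : TopIs Ap 2 P) (hAm : TopIs Am 2 M) (hBp : TopIs Bp 2 (PMe.cj a b e P)) 
    (hBm : TopIs Bm 2 (PMe.cj a b e M)) {z z' : B} {c1 c2 c3 c4 : L} (h1 : P * z * M = c1 • (P * e * M)) 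
    (h2 : P * sg b a e * z * sg a b e * M = c2 • (P * e * M)) 
    (h3 : P * z' * M = c3 • (P * e * M)) (h4 : P * sg b a e * z' * sg a b e * M = c4 • (P * e * M)) 
    (n1 : c1 ≠ 0) (n2 : c2 ≠ 0) (n3 : c3 ≠ 0) (n4 : c4 ≠ 0) : 
    ∃ R : Finset L, R.card ≤ 32 ∧ ∀ x : L, x ∉ R → ∀ α α' β β' : B, evx x Ap = x • α → 
      evx x Am = x • α' → evx x Bp = x • β → evx x Bm = x • β' → 
      P * ((α * z * α') * (β * z * β') * (α * z' * α') * (β * z' * β')) * M ≠ 0 ∧ 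
      P * sg b a e * ((α * z * α') * (β * z * β') * (α * z' * α') * (β * z' * β')) * sg a b e * M ≠ 0 := by
  classical
  have t1 : TopIs (QQ Ap Am Bp Bm z z') (2 * 8) _ := 
    (((((((((((hAp.mul (TopIs.ofC z)).mul hAm).mul hBp).mul (TopIs.ofC z)).mul hBm).mul hAp).mul 
      (TopIs.ofC z')).mul hAm).mul hBp).mul (TopIs.ofC z')).mul hBm)
  rw [step_top1 H h1 h2 h3 h4] at t1
  have hk := nzc H.a0 H.b0 H.d0 n1 n2 n3 n4
  obtain ⟨R1, r1, g1⟩ := nz_set (L := L) _ 8 (by norm_num) _ t1 P M (by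
    rw [cond1 H]
    exact smul_ne_zero hk hTh)
  obtain ⟨R2, r2, g2⟩ := nz_set (L := L) _ 8 (by norm_num) _ t1 (P * sg b a e) (sg a b e * M) (by
    rw [cond2 H hee]
    exact smul_ne_zero hk hTh)
  refine ⟨R1 ∪ R2, (Finset.card_union_le _ _).trans (by omega), fun x hx α α' β β' e1 e2 e3 e4 => ?_⟩
  rw [Finset.mem_union, not_or] at hx
  have k1 := g1 x hx.1
  have k2 := g2 x hx.2
  rw [QQ_ev x e1 e2 e3 e4, mul_smul_comm, smul_mul_assoc] at k1 k2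
  refine ⟨right_ne_zero_of_smul k1, ?_⟩
  have := right_ne_zero_of_smul k2
  rwa [← mul_assoc] at this

/-- the same for the inverse of the step -/
theorem good_two (H : PMe a b d P M e) (hee : e * e = d • e) (hTh : P * e * M ≠ 0) {Ap Am Bp Bm : B[X]} 
    (hAp : TopIs Ap 2 P) (hAm : TopIs Am 2 M) (hBp : TopIs Bp 2 (PMe.cj a b e P)) 
    (hBm : TopIs Bm 2 (PMe.cj a b e M)) {z z' : B} {c1 c2 c3 c4 : L} (h1 : P * z * M = c1 • (P * e * M)) 
    (h2 : P * sg b a e * z * sg a b e * M = c2 • (P * e * M)) 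
    (h3 : P * z' * M = c3 • (P * e * M)) (h4 : P * sg b a e * z' * sg a b e * M = c4 • (P * e * M)) 
    (n1 : c1 ≠ 0) (n2 : c2 ≠ 0) (n3 : c3 ≠ 0) (n4 : c4 ≠ 0) : 
    ∃ R : Finset L, R.card ≤ 32 ∧ ∀ x : L, x ∉ R → ∀ α α' β β' : B, evx x Ap = x • α → 
      evx x Am = x • α' → evx x Bp = x • β → evx x Bm = x • β' → 
      P * ((β * z * β') * (α * z * α') * (β * z' * β') * (α * z' * α')) * M ≠ 0 ∧ 
      P * sg b a e * ((β * z * β') * (α * z * α') * (β * z' * β') * (α * z' * α')) * sg a b e * M ≠ 0 := by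
  classical
  have t1 : TopIs (QQ Bp Bm Ap Am z z') (2 * 8) _ := 
    (((((((((((hBp.mul (TopIs.ofC z)).mul hBm).mul hAp).mul (TopIs.ofC z)).mul hAm).mul hBp).mul 
      (TopIs.ofC z')).mul hBm).mul hAp).mul (TopIs.ofC z')).mul hAm)
  rw [step_top2 H h1 h2 h3 h4] at t1
  have hk := nzc (a := b) (b := a) H.b0 H.a0 H.d0 n1 n2 n3 n4
  obtain ⟨R1, r1, g1⟩ := nz_set (L := L) _ 8 (by norm_num) _ t1 P M (by
    rw [cond3 H]
    exact smul_ne_zero hk hTh)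
  obtain ⟨R2, r2, g2⟩ := nz_set (L := L) _ 8 (by norm_num) _ t1 (P * sg b a e) (sg a b e * M) (by
    rw [cond4 H hee]
    exact smul_ne_zero hk hTh)
  refine ⟨R1 ∪ R2, (Finset.card_union_le _ _).trans (by omega), fun x hx α α' β β' e1 e2 e3 e4 => ?_⟩
  rw [Finset.mem_union, not_or] at hx
  have k1 := g1 x hx.1
  have k2 := g2 x hx.2
  rw [QQ_ev x e3 e4 e1 e2, mul_smul_comm, smul_mul_assoc] at k1 k2
  refine ⟨right_ne_zero_of_smul k1, ?_⟩
  have := right_ne_zero_of_smul k2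
  rwa [← mul_assoc] at this

/-- the base -/
theorem good_base (H : PMe a b d P M e) (hTh : P * e * M ≠ 0) {p : B[X]} {l : ℕ} (hl : 1 ≤ l) {κ : L} 
    (hκ : κ ≠ 0) (ht : TopIs p (2 * l) (κ • (P * e * M))) : 
    ∃ R : Finset L, ∀ x : L, x ∉ R → ∀ z : B, evx x p = x ^ l • z → 
      P * z * M ≠ 0 ∧ P * sg b a e * z * sg a b e * M ≠ 0 := by
  classical
  obtain ⟨R1, r1, g1⟩ := nz_set (L := L) _ l hl _ ht P M (by
    rw [cond5 H]
    exact smul_ne_zero hκ hTh)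
  obtain ⟨R2, r2, g2⟩ := nz_set (L := L) _ l hl _ ht (P * sg b a e) (sg a b e * M) (by
    rw [cond6 H]
    exact smul_ne_zero (mul_ne_zero hκ (pow_ne_zero _ (inv_ne_zero H.d0))) hTh)
  refine ⟨R1 ∪ R2, fun x hx z hz => ?_⟩
  rw [Finset.mem_union, not_or] at hx
  have k1 := g1 x hx.1
  have k2 := g2 x hx.2
  rw [hz, mul_smul_comm, smul_mul_assoc] at k1 k2
  refine ⟨right_ne_zero_of_smul k1, ?_⟩
  have := right_ne_zero_of_smul k2
  rwa [← mul_assoc] at this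

/-- the last conjugation -/
theorem good_fin (H : PMe a b d P M e) {Ap Am Bp Bm : B[X]} 
    (hAp : TopIs Ap 2 P) (hAm : TopIs Am 2 M) (hBp : TopIs Bp 2 (PMe.cj a b e P)) 
    (hBm : TopIs Bm 2 (PMe.cj a b e M)) {z : B} {c2 : L} 
    (h2 : P * sg b a e * z * sg a b e * M = c2 • (P * e * M)) (n2 : c2 ≠ 0) (φ : B →ₗ[L] L) (D : B) 
    (hφ : ∀ κ : L, κ ≠ 0 → φ (κ • (P * e * M) * D) ≠ 0) (F : L) : 
    ∃ R : Finset L, R.card ≤ 8 ∧ ∀ x : L, x ≠ 0 → x ∉ R → ∀ α α' β β' : B, evx x Ap = x • α → 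
      evx x Am = x • α' → evx x Bp = x • β → evx x Bm = x • β' → 
      φ ((α * (β * z * β') * α') * D) ≠ F := by
  classical
  have t1 : TopIs (Ap * Bp * C z * Bm * Am) (2 * 4) _ := 
    ((((hAp.mul hBp).mul (TopIs.ofC z)).mul hBm).mul hAm)
  rw [fin_top H h2] at t1
  obtain ⟨R, r, g⟩ := root_set _ 4 (by norm_num) _ t1 (φ ∘ₗ LinearMap.mulRight L D) (by
    show φ ((c2 * d⁻¹ ^ 2) • (P * e * M) * D) ≠ 0
    exact hφ _ (mul_ne_zero n2 (pow_ne_zero _ (inv_ne_zero H.d0)))) F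
  refine ⟨R, r, fun x hx0 hx α α' β β' e1 e2 e3 e4 h0 => hx (g x ?_)⟩
  show φ (evx x (Ap * Bp * C z * Bm * Am) * D) = _
  have : evx x (Ap * Bp * C z * Bm * Am) = x ^ 4 • (α * (β * z * β') * α') := by
    simp only [map_mul, e1, e2, e3, e4, evx_C, smul_mul_assoc, mul_smul_comm, smul_smul, mul_assoc]
    congr 1
    ring
  rw [this, smul_mul_assoc, map_smul, h0, smul_eq_mul]

end Pool.Agent.J4.H15.RU
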