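import Pool.Agent.J4.H15.RU.Stp

/-!
# The limit statement
-/

set_option autoImplicit false

namespace Pool.Agent.J4.H15.RU

open LaurentPolynomial Pool.Agent.H891R2.Jones Pool.Agent.W639.RB Pool.Agent.Y463.SK Pool.Agent.Y463.MP

/-- zero contribution to the writhe -/
def Cz (w : List (Letter 4)) : Prop := ∀ U : ℕ → ℤ, costS (toN w) U = 0

theorem pure_cjw {g z : List (Letter 4)} (hg : IsPure g) (hz : IsPure z) : IsPure (cjw g z) := 
  pure_append (pure_append hg hz) (pure_inv hg)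

theorem pure_cmw {G H : List (Letter 4)} (hG : IsPure G) (hH : IsPure H) : IsPure (cmw G H) := 
  pure_append (pure_append (pure_append hG hH) (pure_inv hG)) (pure_inv hH)

theorem Cz_cjw {g z : List (Letter 4)} (hg : IsPure g) (hz : IsPure z) (hc : Cz z) : Cz (cjw g z) := by
  intro U
  unfold cjw
  rw [costS_pure _ _ (pure_append hg hz), costS_pure _ _ hg, costS_pure_inv _ hg, hc]
  ring

theorem Cz_cmw {G H : List (Letter 4)} (hG : IsPure G) (hH : IsPure H) : Cz (cmw G H) := by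
  intro U
  unfold cmw
  rw [costS_pure _ _ (pure_append (pure_append hG hH) (pure_inv hG)), costS_pure _ _ (pure_append hG hH), 
    costS_pure _ _ hG, costS_pure_inv _ hG, costS_pure_inv _ hH]
  ring

theorem region {N : ℕ} (hN : 1 ≤ N) (q : ℕ) {η : ℝ} (hη : 0 < η) : ∃ r : ℝ, 0 < r ∧ 
    ∀ A : ℂˣ, ‖(A : ℂ) ^ (4 * N) - 1‖ ≤ r → A ∈ SM ∧ ‖(((A : ℂ) ^ (4 * N)) ^ q)⁻¹ - 1‖ ≤ η := by
  have hcont : ContinuousAt (fun u : ℂ => (u ^ q)⁻¹ - 1) 1 := 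
    (((continuous_pow q).continuousAt).inv₀ (by simp)).sub continuousAt_const
  obtain ⟨δ, hδ, h⟩ := Metric.continuousAt_iff.1 hcont η hη
  refine ⟨min (δ / 2) (1 / 2), lt_min (half_pos hδ) (by norm_num), fun A hA => ?_⟩
  have hA1 : ‖(A : ℂ) ^ (4 * N) - 1‖ ≤ 1 / 2 := hA.trans (min_le_right _ _)
  have hA2 : ‖(A : ℂ) ^ (4 * N) - 1‖ < δ := lt_of_le_of_lt (hA.trans (min_le_left _ _)) (half_lt_self hδ)
  have hn : 4 * N ≠ 0 := by omega
  have u1 : ‖(A : ℂ) ^ (4 * N)‖ ≤ 3 / 2 := by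
    have := norm_add_le ((A : ℂ) ^ (4 * N) - 1) 1
    rw [sub_add_cancel, norm_one] at this
    linarith
  have u2 : 1 / 2 ≤ ‖(A : ℂ) ^ (4 * N)‖ := by
    have := norm_sub_norm_le (1 : ℂ) ((A : ℂ) ^ (4 * N))
    rw [norm_one, norm_sub_rev] at this
    linarith
  refine ⟨⟨?_, ?_⟩, ?_⟩
  · by_contra hc
    push Not at hc
    have := le_self_pow₀ (by linarith : (1 : ℝ) ≤ ‖(A : ℂ)‖) hn
    rw [norm_pow] at u1
    linarith
  · by_contra hc
    push Not at hc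
    have h1 := le_self_pow₀ (by linarith : (1 : ℝ) ≤ ‖((A⁻¹ : ℂˣ) : ℂ)‖) hn
    have h2 : ‖((A⁻¹ : ℂˣ) : ℂ)‖ ^ (4 * N) * ‖(A : ℂ) ^ (4 * N)‖ = 1 := by
      rw [norm_pow, ← mul_pow, ← norm_mul, Units.inv_mul, norm_one, one_pow]
    nlinarith
  · have h1 := h (x := (A : ℂ) ^ (4 * N)) (by rw [dist_eq_norm]; exact hA2)
    rw [dist_eq_norm] at h1
    simp only [one_pow, inv_one, sub_self, sub_zero] at h1
    exact h1.le

/-- the sequence -/
theorem seqW {N : ℕ} (hN : 1 ≤ N) : ∃ r : ℝ, 0 < r ∧ ∃ δ : ℝ, 0 < δ ∧ 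
    ({A : ℂˣ | ‖(A : ℂ) ^ (4 * N) - 1‖ ≤ r} ⊆ SM) ∧ ∀ j : ℕ, ∃ z : List (Letter 4), JJp z ∧ 
      Sm {A : ℂˣ | ‖(A : ℂ) ^ (4 * N) - 1‖ ≤ r} (δ / 2 ^ j) z ∧ 
      Dv ((T (4 * (N : ℤ)) - 1) ^ (2 ^ j)) z ∧ IsPure z ∧ Cz z := by
  obtain ⟨j0, hJ⟩ := J_base hN
  set m0 : ℕ := N * (j0 + 1) with hm0
  obtain ⟨δ, hδ, hhalf⟩ := halve 65
  obtain ⟨y, hy⟩ := div_WW 0 m0
  rw [pow_zero, pow_one] at hy
  obtain ⟨C1, hC1, b1⟩ := Bd.exists y
  obtain ⟨C2, hC2, b2⟩ := Bd.exists (-(Zw (invW (WW 0 (2 * m0))) * y))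
  obtain ⟨r, hr, hreg⟩ := region hN (2 * (j0 + 1)) (η := δ / (C1 + C2 + 1)) (by positivity)
  have hev : ∀ A : ℂˣ, eA A (T (-(8 * (m0 : ℤ))) - 1) = (((A : ℂ) ^ (4 * N)) ^ (2 * (j0 + 1)))⁻¹ - 1 := by
    intro A
    unfold eA
    rw [map_sub, map_one, eval₂_T]
    congr 1
    have : (8 * (m0 : ℤ)) = ((4 * N * (2 * (j0 + 1)) : ℕ) : ℤ) := by rw [hm0]; push_cast; ring
    rw [this, zpow_neg, zpow_natCast, ← pow_mul]
    simp
  refine ⟨r, hr, δ, hδ, fun A hA => (hreg A hA).1, fun j => ?_⟩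
  have hS : {A : ℂˣ | ‖(A : ℂ) ^ (4 * N) - 1‖ ≤ r} ⊆ SM := fun A hA => (hreg A hA).1
  have hp : ∀ A ∈ {A : ℂˣ | ‖(A : ℂ) ^ (4 * N) - 1‖ ≤ r}, 
      ‖eA A (T (-(8 * (m0 : ℤ))) - 1)‖ ≤ δ / (C1 + C2 + 1) := by
    intro A hA
    rw [hev]
    exact (hreg A hA).2
  induction j with
  | zero =>
    refine ⟨WW 0 (2 * m0), hJ, ⟨?_, ?_⟩, ?_, pure_WW 0 (even_two_mul m0), 
      fun U => cost_wU (pure_wa (even_two_mul m0)) (pure_wb (even_two_mul m0)) _ U⟩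
    · rw [hy]
      refine ((b1.mono hS le_rfl).smul (by positivity) hp).mono subset_rfl ?_
      rw [pow_zero, div_one, div_mul_eq_mul_div, div_le_iff₀ (by positivity)]
      nlinarith
    · have : Zw (invW (WW 0 (2 * m0))) - 1 = (T (-(8 * (m0 : ℤ))) - 1 : ℤ[T;T⁻¹]) • 
          (-(Zw (invW (WW 0 (2 * m0))) * y)) := by
        rw [smul_neg, ← mul_smul_comm, ← hy, mul_sub, mul_one, Zw_inv', neg_sub]
      rw [this]
      refine ((b2.mono hS le_rfl).smul (by positivity) hp).mono subset_rfl ?_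
      rw [pow_zero, div_one, div_mul_eq_mul_div, div_le_iff₀ (by positivity)]
      nlinarith
    · have h1 : (T (4 * (N : ℤ)) - 1 : ℤ[T;T⁻¹]) ∣ T (-(8 * (m0 : ℤ))) - 1 := by
        have e1 : (T (4 * (N : ℤ)) - 1 : ℤ[T;T⁻¹]) ∣ T (-(4 * (N : ℤ))) - 1 := by
          refine ⟨-T (-(4 * (N : ℤ))), ?_⟩
          rw [mul_neg, sub_mul, ← T_add, add_neg_cancel, T_zero, one_mul, neg_sub]
        have e2 : (T (-(8 * (m0 : ℤ))) : ℤ[T;T⁻¹]) = (T (-(4 * (N : ℤ)))) ^ (2 * (j0 + 1)) := by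
          rw [T_pow]
          congr 1
          rw [hm0]
          push_cast
          ring
        rw [e2]
        exact e1.trans (sub_one_dvd_pow_sub_one _ _)
      obtain ⟨g, hg⟩ := h1
      exact ⟨g • y, by rw [hy, hg, pow_zero, pow_one, smul_smul]⟩
  | succ j ih =>
    obtain ⟨z, h1, h2, h3, h4, h5⟩ := ih
    obtain ⟨m, hm, hJ'⟩ := J_step z h1
    refine ⟨stp m z, hJ', ?_, ?_, pure_cmw (pure_cjw (pure_wa (even_two_mul m)) h4) 
      (pure_cjw (pure_wb (even_two_mul m)) h4), Cz_cmw (pure_cjw (pure_wa (even_two_mul m)) h4) 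
      (pure_cjw (pure_wb (even_two_mul m)) h4)⟩
    · have := hhalf _ hS (δ / 2 ^ j) (by positivity) (div_le_self hδ.le (one_le_pow₀ (by norm_num))) z h2 m hm
      refine this.mono subset_rfl (le_of_eq ?_)
      rw [pow_succ, div_div]
    · have := h3.stp m
      rwa [← pow_add, ← two_mul, ← pow_succ'] at this

/-- the normalisation factor -/
noncomputable def kap (w : ℤ) : ℤ[T;T⁻¹] := (if Even w then 1 else -1) * T (-3 * w)

theorem kap_ne (w : ℤ) : kap w ≠ 0 := by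
  have h1 : kap w * kap w * T (6 * w) = 1 := by
    unfold kap
    have h2 : (T (-3 * w) : ℤ[T;T⁻¹]) * T (-3 * w) * T (6 * w) = 1 := by
      rw [← T_add, ← T_add, ← T_zero]
      congr 1
      ring
    split_ifs
    · linear_combination h2
    · linear_combination h2
  intro h
  rw [h, zero_mul, zero_mul] at h1
  exact zero_ne_one h1

theorem fPoly_sub (O : Outer 4) (W v : List (Letter 4)) (hp : IsPure W) (hc : Cz W) : 
    (dia O (W ++ v)).fPoly - (dia O v).fPoly = 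
      kap (dia O v).writhe * PhiS (by norm_num : 0 < 4) O ((Zw W - 1) * Zw v) := by
  have h1 : (dia O (W ++ v)).writhe = (dia O v).writhe := by
    rw [writhe_dia, writhe_dia, costS_pure _ _ hp, hc, zero_add]
  unfold Diagram.fPoly kap
  rw [h1, ← mul_sub, bracket_dia, bracket_dia, Zw_append, ← map_sub, sub_mul, one_mul]

theorem main {N : ℕ} (hN : 1 ≤ N) : ∃ r : ℝ, 0 < r ∧ ∃ W : ℕ → List (Letter 4), 
    (∀ j, IsPure (W j)) ∧ 
    (∀ (O : Outer 4) (v : List (Letter 4)), 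
      (∀ j, (T (4 * (N : ℤ)) - 1 : ℤ[T;T⁻¹]) ^ (2 ^ j) ∣ (dia O (W j ++ v)).fPoly - (dia O v).fPoly) ∧ 
      ∀ ε : ℝ, 0 < ε → ∃ j0 : ℕ, ∀ j ≥ j0, ∀ A : ℂˣ, ‖(A : ℂ) ^ (4 * N) - 1‖ ≤ r → 
        ‖eA A ((dia O (W j ++ v)).fPoly - (dia O v).fPoly)‖ < ε) ∧ 
    (∀ j, (dia (braidClosure 4) (W j ++ dl)).fPoly ≠ (dia (braidClosure 4) dl).fPoly) := by
  obtain ⟨r, hr, δ, hδ, hS, hz⟩ := seqW hN
  obtain ⟨C, hC, hfin⟩ := fin_small 9
  choose z hJ hsm hdv hpu hcz using hz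
  choose m hm hne using fun j => J_fin (z j) (hJ j) (al (ph (Zw dl)))
  have hpure : ∀ j, IsPure (fin (m j) (z j)) := fun j => 
    pure_cjw (pure_wa (even_two_mul _)) (pure_cjw (pure_wb (even_two_mul _)) (hpu j))
  have hCz : ∀ j, Cz (fin (m j) (z j)) := fun j => 
    Cz_cjw (pure_wa (even_two_mul _)) (pure_cjw (pure_wb (even_two_mul _)) (hpu j)) 
      (Cz_cjw (pure_wb (even_two_mul _)) (hpu j) (hcz j))
  refine ⟨r, hr, fun j => fin (m j) (z j), hpure, fun O v => ⟨fun j => ?_, fun ε hε => ?_⟩, fun j => ?_⟩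
  · rw [fPoly_sub O _ v (hpure j) (hCz j)]
    obtain ⟨y, hy⟩ := (hdv j).fin (m j)
    rw [hy, smul_mul_assoc, map_smul, smul_eq_mul]
    exact Dvd.dvd.mul_left (Dvd.dvd.mul_right dvd_rfl _) _
  · obtain ⟨K, hK, hmul⟩ := Bd.exists_mul
    obtain ⟨K', hK', hfun⟩ := Bd.exists_fun (PhiS (by norm_num : 0 < 4) O)
    obtain ⟨Cv, hCv, bv⟩ := Bd.exists (Zw v)
    obtain ⟨Ck, hCk, bk⟩ := eA_bdd (kap (dia O v).writhe)
    have hK0 : 0 ≤ K := by linarith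
    set E : ℝ := Ck * (K' * (K * (C * δ * Cv))) with hE
    have hE0 : 0 ≤ E := by positivity
    obtain ⟨j0, hj0⟩ : ∃ j0 : ℕ, E / ε < 2 ^ j0 := pow_unbounded_of_one_lt _ (by norm_num)
    refine ⟨j0, fun j hj A hA => ?_⟩
    rw [fPoly_sub O _ v (hpure j) (hCz j), map_mul, norm_mul]
    have h1 := hfin _ hS (δ / 2 ^ j) (by positivity) (z j) (hsm j) (m j) (hm j)
    have h2 := hmul _ hS (C * (δ / 2 ^ j)) Cv _ _ (by positivity) hCv h1.1 (bv.mono hS le_rfl)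
    have h3 := hfun _ hS _ _ h2 A hA
    have h4 := bk A (hS hA)
    calc ‖eA A (kap (dia O v).writhe)‖ * ‖eA A (PhiS (by norm_num : 0 < 4) O ((Zw (fin (m j) (z j)) - 1) * Zw v))‖ 
        ≤ Ck * (K' * (K * (C * (δ / 2 ^ j) * Cv))) := 
          mul_le_mul h4 h3 (norm_nonneg _) hCk
      _ = E / 2 ^ j := by rw [hE]; ring
      _ ≤ E / 2 ^ j0 := by
          apply div_le_div_of_nonneg_left hE0 (by positivity)
          exact pow_le_pow_right₀ (by norm_num) hj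
      _ < ε := by
          rw [div_lt_iff₀ hε] at hj0
          rw [div_lt_iff₀ (by positivity), mul_comm]
          exact hj0
  · intro h
    have h1 := fPoly_sub (braidClosure 4) (fin (m j) (z j)) dl (hpure j) (hCz j)
    rw [h, sub_self] at h1
    have h2 := (mul_eq_zero.1 h1.symm).resolve_left (kap_ne _)
    rw [sub_mul, one_mul, map_sub, sub_eq_zero, ← Zw_append] at h2
    apply hne j
    show al (PhiS (by norm_num : 0 < 4) (braidClosure 4) _) = al (PhiS (by norm_num : 0 < 4) (braidClosure 4) _)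
    rw [h2]

end Pool.Agent.J4.H15.RU
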