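import Pool.Agent.J4.H15.RU.Top

/-!
# The two idempotents in the Temperley–Lieb algebra
-/

set_option autoImplicit false

namespace Pool.Agent.J4.H15.RU

variable {L B : Type*} [Field L] [Ring B] [Algebra L B]

/-- abstract form -/
theorem pme_idem {a b d : L} (ab : a * b = 1) (hd : d = -a ^ 2 - b ^ 2) (d0 : d ≠ 0) {p q e : B} 
    (pp : p * p = p) (qq : q * q = q) (pq : q * p = p * q) (pep : p * e * p = d⁻¹ • p) 
    (qeq : q * e * q = d⁻¹ • q) (eqe : e * q * e = d⁻¹ • e) : 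
    PMe a b d (p - p * q) (q - p * q) e := by
  have e1 : p - p * q = p * (1 - q) := by rw [mul_sub, mul_one]
  have e1' : p - p * q = (1 - q) * p := by rw [sub_mul, one_mul, pq]
  have e2 : q - p * q = (1 - p) * q := by rw [sub_mul, one_mul]
  have e2' : q - p * q = q * (1 - p) := by rw [mul_sub, mul_one, pq]
  have hq : (1 - q) * (1 - q) = 1 - q := by rw [mul_sub, mul_one, sub_mul, one_mul, qq, sub_self, sub_zero]
  have hp : (1 - p) * (1 - p) = 1 - p := by rw [mul_sub, mul_one, sub_mul, one_mul, pp, sub_self, sub_zero]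
  have hq0 : (1 - q) * q = 0 := by rw [sub_mul, one_mul, qq, sub_self]
  have hq0' : q * (1 - q) = 0 := by rw [mul_sub, mul_one, qq, sub_self]
  have hp0 : (1 - p) * p = 0 := by rw [sub_mul, one_mul, pp, sub_self]
  have hp0' : p * (1 - p) = 0 := by rw [mul_sub, mul_one, pp, sub_self]
  have hPeP : (p - p * q) * e * (p - p * q) = d⁻¹ • (p - p * q) := by
    calc (p - p * q) * e * (p - p * q) = ((1 - q) * p) * e * (p * (1 - q)) := by rw [← e1', ← e1]
      _ = (1 - q) * (p * e * p) * (1 - q) := by simp only [mul_assoc]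
      _ = d⁻¹ • ((1 - q) * p * (1 - q)) := by rw [pep, mul_smul_comm, smul_mul_assoc]
      _ = d⁻¹ • (p - p * q) := by rw [← e1', e1, mul_assoc, hq]
  refine ⟨ab, hd, d0, ?_, ?_, ?_, ?_, hPeP, ?_, ?_⟩
  · calc (p - p * q) * (p - p * q) = ((1 - q) * p) * (p * (1 - q)) := by rw [← e1', ← e1]
      _ = (1 - q) * (p * p) * (1 - q) := by simp only [mul_assoc]
      _ = p - p * q := by rw [pp, ← e1', e1, mul_assoc, hq]
  · calc (q - p * q) * (q - p * q) = (q * (1 - p)) * ((1 - p) * q) := by rw [← e2', ← e2]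
      _ = q * ((1 - p) * (1 - p)) * q := by simp only [mul_assoc]
      _ = q - p * q := by rw [hp, ← e2', e2, mul_assoc, qq]
  · calc (p - p * q) * (q - p * q) = (p * (1 - q)) * (q * (1 - p)) := by rw [← e1, ← e2']
      _ = p * ((1 - q) * q) * (1 - p) := by simp only [mul_assoc]
      _ = 0 := by rw [hq0, mul_zero, zero_mul]
  · calc (q - p * q) * (p - p * q) = (q * (1 - p)) * (p * (1 - q)) := by rw [← e2', ← e1]
      _ = q * ((1 - p) * p) * (1 - q) := by simp only [mul_assoc]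
      _ = 0 := by rw [hp0, mul_zero, zero_mul]
  · calc (q - p * q) * e * (q - p * q) = ((1 - p) * q) * e * (q * (1 - p)) := by rw [← e2, ← e2']
      _ = (1 - p) * (q * e * q) * (1 - p) := by simp only [mul_assoc]
      _ = d⁻¹ • ((1 - p) * q * (1 - p)) := by rw [qeq, mul_smul_comm, smul_mul_assoc]
      _ = d⁻¹ • (q - p * q) := by rw [← e2, e2', mul_assoc, hp]
  · have h0 : (p - p * q) * e * (p * q) = 0 := by
      calc (p - p * q) * e * (p * q) = ((1 - q) * p) * e * (p * q) := by rw [← e1']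
        _ = (1 - q) * (p * e * p) * q := by simp only [mul_assoc]
        _ = d⁻¹ • ((1 - q) * p * q) := by rw [pep, mul_smul_comm, smul_mul_assoc]
        _ = 0 := by rw [← e1', e1, mul_assoc, hq0, mul_zero, smul_zero]
    calc (p - p * q) * e * (q - p * q) * e * (p - p * q) = 
        (p - p * q) * (e * q * e) * (p - p * q) - (p - p * q) * e * (p * q) * e * (p - p * q) := by
          rw [mul_sub ((p - p * q) * e) q (p * q), sub_mul, sub_mul]
          simp only [mul_assoc]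
      _ = (d⁻¹ ^ 2) • (p - p * q) := by
          rw [h0, zero_mul, zero_mul, sub_zero, eqe, mul_smul_comm, smul_mul_assoc, hPeP, smul_smul, pow_two]

section tl

variable {a b d : L} {e1 e2 e3 : B}

theorem half_idem {e : B} (d0 : d ≠ 0) (h : e * e = d • e) : (d⁻¹ • e) * (d⁻¹ • e) = d⁻¹ • e := by
  rw [smul_mul_smul_comm, h, smul_smul, mul_assoc, inv_mul_cancel₀ d0, mul_one]

theorem pme_TL (h : TL4 d e1 e2 e3) (ab : a * b = 1) (hd : d = -a ^ 2 - b ^ 2) (d0 : d ≠ 0) : 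
    PMe a b d (d⁻¹ • e1 - (d⁻¹ • e1) * (d⁻¹ • e3)) (d⁻¹ • e3 - (d⁻¹ • e1) * (d⁻¹ • e3)) e2 := by
  apply pme_idem ab hd d0 (half_idem d0 h.s1) (half_idem d0 h.s3)
  · rw [smul_mul_smul_comm, smul_mul_smul_comm, h.c13]
  · rw [smul_mul_assoc, smul_mul_smul_comm, h.r12, smul_smul]
  · rw [smul_mul_assoc, smul_mul_smul_comm, h.r32, smul_smul]
  · rw [mul_smul_comm, smul_mul_assoc, h.r23]

/-- the product with `σ₁ σ₂ σ₃` -/
theorem theta_D (h : TL4 d e1 e2 e3) (ab : a * b = 1) (hd : d = -a ^ 2 - b ^ 2) (d0 : d ≠ 0) : 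
    ((d⁻¹ • e1 - (d⁻¹ • e1) * (d⁻¹ • e3)) * e2 * (d⁻¹ • e3 - (d⁻¹ • e1) * (d⁻¹ • e3))) * 
      ((a • 1 + b • e1) * (a • 1 + b • e2) * (a • 1 + b • e3)) = 
    a • ((d⁻¹ ^ 2) • (e1 * e2) - (d⁻¹ ^ 3) • (e1 * e3 * e2)) := by
  have h1 : (d⁻¹ • e3 - (d⁻¹ • e1) * (d⁻¹ • e3)) * e1 = 0 := by
    simp only [sub_mul, smul_mul_assoc, mul_smul_comm, smul_smul]
    rw [mul_assoc e1 e3 e1, ← h.c13, ← mul_assoc, h.s1, smul_mul_assoc, smul_smul, mul_assoc, 
      inv_mul_cancel₀ d0, mul_one, sub_self]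
  have h2 : (d⁻¹ • e1 - (d⁻¹ • e1) * (d⁻¹ • e3)) * e2 * (d⁻¹ • e3 - (d⁻¹ • e1) * (d⁻¹ • e3)) = 
      (d⁻¹ ^ 2) • (e1 * e2 * e3) - (d⁻¹ ^ 3) • (e1 * e3) := by
    simp only [sub_mul, mul_sub, smul_mul_assoc, mul_smul_comm, smul_smul]
    have k1 : e1 * e2 * (e1 * e3) = e1 * e3 := by rw [← mul_assoc, h.r12]
    have k2 : e1 * e3 * e2 * e3 = e1 * e3 := by rw [mul_assoc, mul_assoc, ← mul_assoc e3, h.r32]
    have k3 : e1 * e3 * e2 * (e1 * e3) = d • (e1 * e3) := by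
      rw [← mul_assoc, n2_e1 h, mul_assoc, h.s3, mul_smul_comm]
    rw [k1, k2, k3, smul_smul]
    match_scalars
    · ring
    · field_simp
      ring
  have h3 : e3 * ((a • 1 + b • e2) * (a • 1 + b • e3)) = e3 * e2 := by
    have k0 : b * a = 1 := by rw [mul_comm, ab]
    have : e3 * ((a • 1 + b • e2) * (a • 1 + b • e3)) = 
        (a * a) • e3 + (b * a) • (e3 * e3) + (a * b) • (e3 * e2) + (b * b) • (e3 * e2 * e3) := by
      simp only [add_mul, mul_add, smul_mul_assoc, mul_smul_comm, smul_smul, one_mul, mul_one, smul_add, 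
        mul_assoc]
      abel
    rw [this, h.s3, h.r32, k0, ab, one_smul, one_smul]
    have e : (a * a + d + b * b) = 0 := by rw [hd]; ring
    have : (a * a) • e3 + d • e3 + e3 * e2 + (b * b) • e3 = (a * a + d + b * b) • e3 + e3 * e2 := by module
    rw [this, e, zero_smul, zero_add]
  have h4 : ((d⁻¹ • e1 - (d⁻¹ • e1) * (d⁻¹ • e3)) * e2 * (d⁻¹ • e3 - (d⁻¹ • e1) * (d⁻¹ • e3))) * 
      ((a • 1 + b • e1) * (a • 1 + b • e2) * (a • 1 + b • e3)) = 
      a • (((d⁻¹ • e1 - (d⁻¹ • e1) * (d⁻¹ • e3)) * e2 * (d⁻¹ • e3 - (d⁻¹ • e1) * (d⁻¹ • e3))) * 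
        ((a • 1 + b • e2) * (a • 1 + b • e3))) := by
    have : ∀ z w : B, w * e1 = 0 → z * w * (a • 1 + b • e1) = a • (z * w) := by
      intro z w hw
      rw [mul_assoc, mul_add, mul_smul_comm, mul_smul_comm, hw, smul_zero, add_zero, mul_one, 
        mul_smul_comm]
    rw [mul_assoc (a • (1 : B) + b • e1), ← mul_assoc, this _ _ h1, smul_mul_assoc]
  rw [h4, h2]
  congr 1
  rw [sub_mul, smul_mul_assoc, smul_mul_assoc, mul_assoc (e1 * e2) e3, h3, mul_assoc e1 e3, h3]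
  congr 1
  · rw [mul_assoc e1 e2, ← mul_assoc e2 e3 e2, h.r23]
  · rw [mul_assoc]

/-- the polynomial with leading coefficient `P` at the scalar `l` -/
theorem quad_ev (h : TL4 d e1 e2 e3) (d0 : d ≠ 0) {f l l' : L} (hl : l * l' = 1) (hf : 1 + d * f = l) : 
    l ^ 2 • (d⁻¹ • e1 - (d⁻¹ • e1) * (d⁻¹ • e3)) + 
      l • (1 - (d⁻¹ • e1 - (d⁻¹ • e1) * (d⁻¹ • e3)) - (d⁻¹ • e3 - (d⁻¹ • e1) * (d⁻¹ • e3))) + 
      (d⁻¹ • e3 - (d⁻¹ • e1) * (d⁻¹ • e3)) = l • (1 + f • ya f l' e1 e3) := by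
  unfold ya
  have hf' : f = d⁻¹ * (l - 1) := by
    rw [← hf]
    field_simp
    ring
  have hl0 : l ≠ 0 := left_ne_zero_of_mul_eq_one hl
  have hl' : l' = l⁻¹ := eq_inv_of_mul_eq_one_right hl
  simp only [smul_mul_assoc, mul_smul_comm, smul_smul]
  match_scalars
  · rw [hf']
    ring
  · rw [hf', hl']
    field_simp
    ring
  · rfl
  · rw [hf', hl']
    field_simp
    ring

end tl

end Pool.Agent.J4.H15.RU
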