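import Pool.Agent.J4.H15.RU.Pm

/-!
# `P x M` is a multiple of `P e M`, and the leading coefficients of the steps
-/

set_option autoImplicit false

namespace Pool.Agent.J4.H15.RU

open Polynomial

variable {L B : Type*} [Field L] [Ring B] [Algebra L B]

/-! ### the right ideal of `P` -/

/-- the right ideal generated by `P` -/
def RI (P M e : B) (y : B) : Prop := ∃ α β γ : L, y = α • P + β • (P * e) + γ • (P * e * M)

theorem RI.add {P M e y y' : B} (h : RI (L := L) P M e y) (h' : RI (L := L) P M e y') : 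
    RI (L := L) P M e (y + y') := by
  obtain ⟨α, β, γ, rfl⟩ := h
  obtain ⟨α', β', γ', rfl⟩ := h'
  exact ⟨α + α', β + β', γ + γ', by module⟩

theorem RI.smul (c : L) {P M e y : B} (h : RI (L := L) P M e y) : RI (L := L) P M e (c • y) := by
  obtain ⟨α, β, γ, rfl⟩ := h
  exact ⟨c * α, c * β, c * γ, by module⟩

theorem RI.self (P M e : B) : RI (L := L) P M e P := ⟨1, 0, 0, by module⟩

section ri

variable {a b d : L} {e1 e2 e3 : B}

/-- multiplication by the generators -/
theorem RI_gen (h : TL4 d e1 e2 e3) (d0 : d ≠ 0) {y : B} 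
    (hy : RI (L := L) (d⁻¹ • e1 - (d⁻¹ • e1) * (d⁻¹ • e3)) (d⁻¹ • e3 - (d⁻¹ • e1) * (d⁻¹ • e3)) e2 y) {x : B} 
    (hx : x = e1 ∨ x = e2 ∨ x = e3) : 
    RI (L := L) (d⁻¹ • e1 - (d⁻¹ • e1) * (d⁻¹ • e3)) (d⁻¹ • e3 - (d⁻¹ • e1) * (d⁻¹ • e3)) e2 (y * x) := by
  have k1 : e1 * e2 * (e1 * e3) = e1 * e3 := by rw [← mul_assoc, h.r12]
  have k2 : e1 * e3 * e2 * e3 = e1 * e3 := by rw [mul_assoc, mul_assoc, ← mul_assoc e3, h.r32]
  have k3 : e1 * e3 * e2 * (e1 * e3) = d • (e1 * e3) := by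
    rw [← mul_assoc, n2_e1 h, mul_assoc, h.s3, mul_smul_comm]
  have k4 : e1 * e3 * e1 = d • (e1 * e3) := n_e1 h
  have k5 : e1 * e3 * e3 = d • (e1 * e3) := n_e3 h
  have k6 : e1 * e3 * e2 * e1 = e1 * e3 := n2_e1 h
  have k7 : e1 * e2 * e3 * e2 = e1 * e2 := by rw [mul_assoc e1 e2, mul_assoc e1, h.r23]
  have k8 : e1 * e2 * e3 * e1 = e1 * e3 := by 
    rw [mul_assoc (e1 * e2), ← h.c13, k1]
  have k9 : e1 * e2 * e3 * e3 = d • (e1 * e2 * e3) := by
    rw [mul_assoc (e1 * e2), h.s3, mul_smul_comm]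
  have k10 : e1 * e3 * e2 * e2 = d • (e1 * e3 * e2) := by
    rw [mul_assoc (e1 * e3), h.s2, mul_smul_comm]
  have k11 : e1 * e2 * e2 = d • (e1 * e2) := by rw [mul_assoc, h.s2, mul_smul_comm]
  obtain ⟨α, β, γ, rfl⟩ := hy
  rcases hx with rfl | rfl | rfl
  · refine ⟨α * d + β, 0, 0, ?_⟩
    simp only [sub_mul, mul_sub, add_mul, smul_mul_assoc, mul_smul_comm, smul_smul, smul_sub, h.s1, k4, 
      h.r12, k6, k1, k2, k3, k8]
    match_scalars <;> first | ring1 | (field_simp; done) | (field_simp; ring1)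
  · refine ⟨0, α + β * d + γ * d⁻¹, 0, ?_⟩
    simp only [sub_mul, mul_sub, add_mul, smul_mul_assoc, mul_smul_comm, smul_smul, smul_sub, k1, k2, k3, k7,
      k10, k11]
    match_scalars <;> first | ring1 | (field_simp; done) | (field_simp; ring1)
  · refine ⟨0, 0, β * d + γ * d, ?_⟩
    simp only [sub_mul, mul_sub, add_mul, smul_mul_assoc, mul_smul_comm, smul_smul, smul_sub, k5, k2, k1, k3, 
      k9]
    match_scalars <;> first | ring1 | (field_simp; done) | (field_simp; ring1)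

end ri

theorem RI_M {a b d : L} {P M e : B} (H : PMe a b d P M e) {y : B} (hy : RI (L := L) P M e y) : 
    ∃ c : L, y * M = c • (P * e * M) := by
  obtain ⟨α, β, γ, rfl⟩ := hy
  refine ⟨β + γ, ?_⟩
  rw [add_mul, add_mul, smul_mul_assoc, smul_mul_assoc, smul_mul_assoc, H.PM, smul_zero, zero_add, H.th_M, 
    add_smul]

/-! ### leading coefficients of the step -/

section top

variable {a b d : L} {P M e : B}

/-- the conjugating element and its inverse -/
def sg (a b : L) (e : B) : B := a • 1 + b • e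

theorem sg_inv (hab : a * b = 1) (hd : d = -a ^ 2 - b ^ 2) (hee : e * e = d • e) : 
    sg b a e * sg a b e = 1 := by
  unfold sg
  simp only [mul_add, add_mul, mul_smul_comm, smul_mul_assoc, mul_one, one_mul, hee]
  match_scalars
  · linear_combination hab
  · rw [hd]
    linear_combination (-(a ^ 2) - b ^ 2) * hab

variable (H : PMe a b d P M e)
include H

omit H in
theorem cj_sg (x : B) : PMe.cj a b e x = sg a b e * x * sg b a e := rfl

theorem cf1 : a + b * d⁻¹ = -(a ^ 3) * d⁻¹ := by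
  have h1 := H.ab
  have h2 := H.hd
  have h3 : d * d⁻¹ = 1 := mul_inv_cancel₀ H.d0
  linear_combination (-a) * h3 + a * d⁻¹ * h2 - b * d⁻¹ * h1

theorem cf2 : b + a * d⁻¹ = -(b ^ 3) * d⁻¹ := by
  have h1 := H.ab
  have h2 := H.hd
  have h3 : d * d⁻¹ = 1 := mul_inv_cancel₀ H.d0
  linear_combination (-b) * h3 + b * d⁻¹ * h2 - a * d⁻¹ * h1

theorem PsP : P * sg a b e * P = (-(a ^ 3) * d⁻¹) • P := by
  unfold sg
  rw [mul_add, add_mul, mul_smul_comm, mul_smul_comm, smul_mul_assoc, smul_mul_assoc, mul_one, H.PP, H.PeP, 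
    smul_smul, ← add_smul, cf1 H]

theorem Ps'P : P * sg b a e * P = (-(b ^ 3) * d⁻¹) • P := by
  unfold sg
  rw [mul_add, add_mul, mul_smul_comm, mul_smul_comm, smul_mul_assoc, smul_mul_assoc, mul_one, H.PP, H.PeP, 
    smul_smul, ← add_smul, cf2 H]

theorem MsM : M * sg a b e * M = (-(a ^ 3) * d⁻¹) • M := by
  unfold sg
  rw [mul_add, add_mul, mul_smul_comm, mul_smul_comm, smul_mul_assoc, smul_mul_assoc, mul_one, H.MM, H.MeM, 
    smul_smul, ← add_smul, cf1 H]

theorem Ms'M : M * sg b a e * M = (-(b ^ 3) * d⁻¹) • M := by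
  unfold sg
  rw [mul_add, add_mul, mul_smul_comm, mul_smul_comm, smul_mul_assoc, smul_mul_assoc, mul_one, H.MM, H.MeM, 
    smul_smul, ← add_smul, cf2 H]

theorem ThTh (u v : L) : P * e * M * sg u v e * (P * e * M) = (v * d⁻¹ ^ 2) • (P * e * M) := by
  have h1 : P * e * M * sg u v e * (P * e * M) = (P * e) * (u • (M * P) + v • (M * e * P)) * (e * M) := by
    unfold sg
    simp only [mul_add, add_mul, mul_smul_comm, smul_mul_assoc, mul_one, mul_assoc]
  rw [h1, H.MP, smul_zero, zero_add, mul_smul_comm, smul_mul_assoc]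
  have h2 : P * e * (M * e * P) * (e * M) = (P * e * M * e * P) * (e * M) := by simp only [mul_assoc]
  rw [h2, H.PeMeP, smul_mul_assoc, smul_smul, ← mul_assoc]

variable {z z' : B} {c1 c2 c3 c4 : L}

theorem step_top1 (h1 : P * z * M = c1 • (P * e * M)) (h2 : P * sg b a e * z * sg a b e * M = c2 • (P * e * M)) 
    (h3 : P * z' * M = c3 • (P * e * M)) (h4 : P * sg b a e * z' * sg a b e * M = c4 • (P * e * M)) : 
    P * z * M * PMe.cj a b e P * z * PMe.cj a b e M * P * z' * M * PMe.cj a b e P * z' * PMe.cj a b e M = 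
    (c1 * c2 * c3 * c4 * ((b * d⁻¹ ^ 2) * (a * d⁻¹ ^ 2) * (b * d⁻¹ ^ 2))) • (P * e * M * sg b a e) := by
  have e0 : P * z * M * PMe.cj a b e P * z * PMe.cj a b e M * P * z' * M * PMe.cj a b e P * z' * 
      PMe.cj a b e M = (P * z * M) * sg a b e * (P * sg b a e * z * sg a b e * M) * sg b a e * 
      (P * z' * M) * sg a b e * (P * sg b a e * z' * sg a b e * M) * sg b a e := by
    rw [cj_sg, cj_sg]
    simp only [mul_assoc]
  rw [e0, h1, h2, h3, h4]
  simp only [smul_mul_assoc, mul_smul_comm, smul_smul, ThTh H]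
  congr 1
  ring

theorem step_top2 (h1 : P * z * M = c1 • (P * e * M)) (h2 : P * sg b a e * z * sg a b e * M = c2 • (P * e * M)) 
    (h3 : P * z' * M = c3 • (P * e * M)) (h4 : P * sg b a e * z' * sg a b e * M = c4 • (P * e * M)) : 
    PMe.cj a b e P * z * PMe.cj a b e M * P * z * M * PMe.cj a b e P * z' * PMe.cj a b e M * P * z' * M = 
    (c1 * c2 * c3 * c4 * ((a * d⁻¹ ^ 2) * (b * d⁻¹ ^ 2) * (a * d⁻¹ ^ 2))) • (sg a b e * (P * e * M)) := by
  have e0 : PMe.cj a b e P * z * PMe.cj a b e M * P * z * M * PMe.cj a b e P * z' * PMe.cj a b e M * P * 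
      z' * M = sg a b e * ((P * sg b a e * z * sg a b e * M) * sg b a e * (P * z * M) * sg a b e * 
      (P * sg b a e * z' * sg a b e * M) * sg b a e * (P * z' * M)) := by
    rw [cj_sg, cj_sg]
    simp only [mul_assoc]
  rw [e0, h1, h2, h3, h4]
  simp only [smul_mul_assoc, mul_smul_comm, smul_smul, ThTh H]
  congr 1
  ring

theorem fin_top (h2 : P * sg b a e * z * sg a b e * M = c2 • (P * e * M)) : 
    P * PMe.cj a b e P * z * PMe.cj a b e M * M = (c2 * d⁻¹ ^ 2) • (P * e * M) := by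
  have e0 : P * PMe.cj a b e P * z * PMe.cj a b e M * M = 
      (P * sg a b e * P) * (sg b a e * z * sg a b e) * (M * sg b a e * M) := by
    rw [cj_sg, cj_sg]
    simp only [mul_assoc]
  rw [e0, PsP H, Ms'M H]
  have e1 : P * (sg b a e * z * sg a b e) * M = c2 • (P * e * M) := by
    rw [← h2]
    simp only [mul_assoc]
  simp only [smul_mul_assoc, mul_smul_comm, smul_smul, e1]
  congr 1
  have := H.ab
  linear_combination (c2 * d⁻¹ ^ 2 * ((a * b) ^ 2 + a * b + 1)) * this

theorem cond1 (k : L) : P * (k • (P * e * M * sg b a e)) * M = (k * (-(b ^ 3) * d⁻¹)) • (P * e * M) := by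
  have : P * (P * e * M * sg b a e) * M = (P * P) * e * (M * sg b a e * M) := by simp only [mul_assoc]
  rw [mul_smul_comm, smul_mul_assoc, this, H.PP, Ms'M H, mul_smul_comm, smul_smul]

theorem cond2 (hee : e * e = d • e) (k : L) : 
    P * sg b a e * (k • (P * e * M * sg b a e)) * (sg a b e * M) = (k * (-(b ^ 3) * d⁻¹)) • (P * e * M) := by
  have : P * sg b a e * (P * e * M * sg b a e) * (sg a b e * M) = 
      (P * sg b a e * P) * e * M * (sg b a e * sg a b e) * M := by simp only [mul_assoc]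
  rw [mul_smul_comm, smul_mul_assoc, this, sg_inv H.ab H.hd hee, Ps'P H, mul_one]
  simp only [smul_mul_assoc, smul_smul]
  rw [H.th_M]

theorem cond3 (k : L) : P * (k • (sg a b e * (P * e * M))) * M = (k * (-(a ^ 3) * d⁻¹)) • (P * e * M) := by
  have : P * (sg a b e * (P * e * M)) * M = (P * sg a b e * P) * e * (M * M) := by simp only [mul_assoc]
  rw [mul_smul_comm, smul_mul_assoc, this, H.MM, PsP H, smul_mul_assoc, smul_mul_assoc, smul_smul]

theorem cond4 (hee : e * e = d • e) (k : L) : 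
    P * sg b a e * (k • (sg a b e * (P * e * M))) * (sg a b e * M) = (k * (-(a ^ 3) * d⁻¹)) • (P * e * M) := by
  have : P * sg b a e * (sg a b e * (P * e * M)) * (sg a b e * M) = 
      P * (sg b a e * sg a b e) * P * e * (M * sg a b e * M) := by simp only [mul_assoc]
  rw [mul_smul_comm, smul_mul_assoc, this, sg_inv H.ab H.hd hee, mul_one, H.PP, MsM H, mul_smul_comm, 
    smul_smul]

theorem cond5 (k : L) : P * (k • (P * e * M)) * M = k • (P * e * M) := by
  rw [mul_smul_comm, smul_mul_assoc, H.P_th, H.th_M]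

theorem cond6 (k : L) : P * sg b a e * (k • (P * e * M)) * (sg a b e * M) = (k * d⁻¹ ^ 2) • (P * e * M) := by
  have : P * sg b a e * (P * e * M) * (sg a b e * M) = 
      (P * sg b a e * P) * e * (M * sg a b e * M) := by simp only [mul_assoc]
  rw [mul_smul_comm, smul_mul_assoc, this, Ps'P H, MsM H]
  simp only [smul_mul_assoc, mul_smul_comm, smul_smul]
  congr 1
  have := H.ab
  linear_combination (k * d⁻¹ ^ 2 * ((a * b) ^ 2 + a * b + 1)) * this

end top

/-! ### roots -/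

theorem root_set (p : B[X]) (l : ℕ) (hl : 1 ≤ l) (c : B) (hp : TopIs p (2 * l) c) (φ : B →ₗ[L] L) 
    (hc : φ c ≠ 0) (F : L) : ∃ R : Finset L, R.card ≤ 2 * l ∧ ∀ x : L, φ (evx x p) = x ^ l * F → x ∈ R := by
  classical
  set Q : L[X] := (∑ i ∈ Finset.range (2 * l + 1), C (φ (p.coeff i)) * X ^ i) - C F * X ^ l with hQ
  have hcoef : Q.coeff (2 * l) ≠ 0 := by
    rw [hQ, coeff_sub, finsetSum_coeff]
    simp only [coeff_C_mul_X_pow]
    rw [Finset.sum_ite_eq, if_pos (Finset.mem_range.2 (Nat.lt_succ_self _)), if_neg (by omega), sub_zero, 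
      hp.top]
    exact hc
  have hQ0 : Q ≠ 0 := by
    intro h
    rw [h, coeff_zero] at hcoef
    exact hcoef rfl
  have hdeg : Q.natDegree ≤ 2 * l := by
    rw [hQ]
    refine (natDegree_sub_le_of_le (m := 2 * l) (n := 2 * l) ?_ ?_).trans (max_self _).le
    · apply natDegree_sum_le_of_forall_le
      intro i hi
      exact (natDegree_C_mul_X_pow_le _ _).trans (Nat.lt_succ_iff.1 (Finset.mem_range.1 hi))
    · exact (natDegree_C_mul_X_pow_le _ _).trans (by omega)
  refine ⟨Q.roots.toFinset, (Multiset.toFinset_card_le _).trans ((card_roots' Q).trans hdeg), ?_⟩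
  intro x hx
  rw [Multiset.mem_toFinset, mem_roots hQ0, IsRoot.def, hQ, eval_sub, eval_finsetSum]
  simp only [eval_mul, eval_C, eval_pow, eval_X]
  rw [mul_comm F, ← hx, sub_eq_zero]
  have h1 : evx x p = ∑ i ∈ Finset.range (2 * l + 1), x ^ i • p.coeff i := by
    unfold evx
    show eval₂ _ _ p = _
    rw [eval₂_eq_sum_range' _ (lt_of_le_of_lt hp.deg (Nat.lt_succ_self _))]
    refine Finset.sum_congr rfl fun i _ => ?_
    rw [RingHom.id_apply, ← map_pow, ← Algebra.commutes, Algebra.smul_def]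
  rw [h1, map_sum]
  refine Finset.sum_congr rfl fun i _ => ?_
  rw [map_smul, smul_eq_mul, mul_comm]

theorem nz_set (p : B[X]) (l : ℕ) (hl : 1 ≤ l) (c : B) (hp : TopIs p (2 * l) c) (u v : B) 
    (hc : u * c * v ≠ 0) : ∃ R : Finset L, R.card ≤ 2 * l ∧ ∀ x : L, x ∉ R → u * evx x p * v ≠ 0 := by
  obtain ⟨ψ, hψ⟩ : ∃ ψ : Module.Dual L B, ψ (u * c * v) ≠ 0 := by
    by_contra h
    push Not at h
    exact hc ((Module.forall_dual_apply_eq_zero_iff L _).1 h)
  obtain ⟨R, hR, h⟩ := root_set p l hl c hp 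
    (ψ ∘ₗ LinearMap.mulRight L v ∘ₗ LinearMap.mulLeft L u) hψ 0
  refine ⟨R, hR, fun x hx h0 => hx (h x ?_)⟩
  show ψ (u * evx x p * v) = _
  rw [h0, map_zero, mul_zero]

end Pool.Agent.J4.H15.RU
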