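import Pool.Agent.J4.H15.RU.Bd

/-!
# Commutators of small elements
-/

set_option autoImplicit false

namespace Pool.Agent.J4.H15.RU

open LaurentPolynomial Pool.Agent.H891R2.Jones Pool.Agent.W639.RB Pool.Agent.Y463.SK Pool.Agent.Y463.MP
  Pool.Agent.Y463.RW

/-- conjugation of words -/
def cjw (g z : List (Letter 4)) : List (Letter 4) := g ++ z ++ invW g

/-- commutator of words -/
def cmw (G H : List (Letter 4)) : List (Letter 4) := G ++ H ++ invW G ++ invW H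

theorem invW_append (w w' : List (Letter 4)) : invW (w ++ w') = invW w' ++ invW w := by
  unfold invW
  rw [List.map_append, List.reverse_append]

theorem invW_cjw (g z : List (Letter 4)) : invW (cjw g z) = cjw g (invW z) := by
  unfold cjw
  rw [invW_append, invW_append, invW_invW, List.append_assoc]

theorem invW_cmw (G H : List (Letter 4)) : invW (cmw G H) = cmw H G := by
  unfold cmw
  rw [invW_append, invW_append, invW_append, invW_invW, invW_invW]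
  simp only [List.append_assoc]

/-- the step -/
def stp (m : ℕ) (z : List (Letter 4)) : List (Letter 4) := 
  cmw (cjw (wa (2 * m)) z) (cjw (wb (2 * m)) z)

theorem Zw_cjw (g z : List (Letter 4)) : Zw (cjw g z) = Zw g * Zw z * Zw (invW g) := by
  unfold cjw
  rw [Zw_append, Zw_append]

theorem Zw_cmw (G H : List (Letter 4)) : Zw (cmw G H) = Zw G * Zw H * Zw (invW G) * Zw (invW H) := by
  unfold cmw
  rw [Zw_append, Zw_append, Zw_append]

theorem cjw_sub (g z : List (Letter 4)) : Zw (cjw g z) - 1 = Zw g * (Zw z - 1) * Zw (invW g) := by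
  rw [Zw_cjw, mul_sub, sub_mul, mul_one, Zw_inv]

theorem cmw_sub (G H : List (Letter 4)) : Zw (cmw G H) - 1 = 
    ((Zw G - 1) * (Zw H - 1) - (Zw H - 1) * (Zw G - 1)) * Zw (invW G) * Zw (invW H) := by
  have h1 : (Zw G - 1) * (Zw H - 1) - (Zw H - 1) * (Zw G - 1) = Zw G * Zw H - Zw H * Zw G := by
    simp only [sub_mul, mul_sub, one_mul, mul_one]
    abel
  rw [h1, Zw_cmw, sub_mul, sub_mul, mul_assoc (Zw H) (Zw G), Zw_inv, mul_one, Zw_inv]

/-- small on `S` together with the inverse -/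
def Sm (S : Set ℂˣ) (c : ℝ) (z : List (Letter 4)) : Prop := 
  Bd S c (Zw z - 1) ∧ Bd S c (Zw (invW z) - 1)

theorem Sm.mono {S S' : Set ℂˣ} {c c' : ℝ} {z : List (Letter 4)} (h : Sm S c z) (hS : S' ⊆ S) 
    (hc : c ≤ c') : Sm S' c' z := ⟨h.1.mono hS hc, h.2.mono hS hc⟩

theorem Sm.conj_ex : ∃ K : ℝ, 1 ≤ K ∧ ∀ (S : Set ℂˣ), S ⊆ SM → ∀ (c C : ℝ), 0 ≤ c → 0 ≤ C → 
    ∀ z g : List (Letter 4), Sm S c z → Bd S C (Zw g) → Bd S C (Zw (invW g)) → 
    Sm S (K * (C * c * C)) (cjw g z) := by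
  obtain ⟨K, hK, h⟩ := Bd.exists_mul
  have hK0 : 0 ≤ K := by linarith
  refine ⟨K * K, by nlinarith, ?_⟩
  intro S hS c C hc hC z g hz hg hg'
  constructor
  · rw [cjw_sub]
    have h1 := h S hS C c _ _ hC hc hg hz.1
    have h2 := h S hS _ C _ _ (by positivity) hC h1 hg'
    exact h2.mono subset_rfl (le_of_eq (by ring))
  · rw [invW_cjw, cjw_sub]
    have h1 := h S hS C c _ _ hC hc hg hz.2
    have h2 := h S hS _ C _ _ (by positivity) hC h1 hg'
    exact h2.mono subset_rfl (le_of_eq (by ring))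

theorem Sm.comm_ex : ∃ K : ℝ, 0 ≤ K ∧ ∀ (S : Set ℂˣ), S ⊆ SM → ∀ (c : ℝ), 0 ≤ c → 
    ∀ G H : List (Letter 4), Sm S c G → Sm S c H → 
    Sm S (K * (1 + c) ^ 2 * c ^ 2) (cmw G H) := by
  obtain ⟨K, hK, h⟩ := Bd.exists_mul
  obtain ⟨C, hC, h1⟩ := Bd.exists 1
  have hK0 : 0 ≤ K := by linarith
  refine ⟨2 * K ^ 3 * (1 + C) ^ 2, by positivity, ?_⟩
  intro S hS c hc G H hG hH
  have key : ∀ G H : List (Letter 4), Sm S c G → Sm S c H → 
      Bd S (2 * K ^ 3 * (1 + C) ^ 2 * (1 + c) ^ 2 * c ^ 2) (Zw (cmw G H) - 1) := by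
    intro G H hG hH
    have hone : Bd S C (1 : TLZ 4) := h1.mono hS le_rfl
    have hbd : ∀ w : List (Letter 4), Bd S c (Zw w - 1) → Bd S ((1 + C) * (1 + c)) (Zw w) := by
      intro w hw
      have := hw.add hone
      rw [sub_add_cancel] at this
      exact this.mono subset_rfl (by nlinarith)
    rw [cmw_sub]
    have e1 := (h S hS c c _ _ hc hc hG.1 hH.1).sub (h S hS c c _ _ hc hc hH.1 hG.1)
    have e2 := h S hS _ _ _ _ (by positivity) (by positivity) e1 (hbd _ hG.2)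
    have e3 := h S hS _ _ _ _ (by positivity) (by positivity) e2 (hbd _ hH.2)
    exact e3.mono subset_rfl (le_of_eq (by ring))
  refine ⟨key G H hG hH, ?_⟩
  rw [invW_cmw]
  exact key H G hH hG

/-- uniform bounds for the conjugating words -/
theorem gm_bdd (M : ℕ) : ∃ C : ℝ, 0 ≤ C ∧ ∀ m < M, Bd SM C (Zw (wa (2 * m))) ∧ 
    Bd SM C (Zw (invW (wa (2 * m)))) ∧ Bd SM C (Zw (wb (2 * m))) ∧ Bd SM C (Zw (invW (wb (2 * m)))) := by
  induction M with
  | zero => exact ⟨0, le_rfl, fun m hm => absurd hm (Nat.not_lt_zero m)⟩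
  | succ M ih =>
    obtain ⟨C, hC, h⟩ := ih
    obtain ⟨C1, hC1, h1⟩ := Bd.exists (Zw (wa (2 * M)))
    obtain ⟨C2, hC2, h2⟩ := Bd.exists (Zw (invW (wa (2 * M))))
    obtain ⟨C3, hC3, h3⟩ := Bd.exists (Zw (wb (2 * M)))
    obtain ⟨C4, hC4, h4⟩ := Bd.exists (Zw (invW (wb (2 * M))))
    refine ⟨C + C1 + C2 + C3 + C4, by positivity, fun m hm => ?_⟩
    rcases Nat.lt_succ_iff_lt_or_eq.1 hm with hm | rfl
    · obtain ⟨a1, a2, a3, a4⟩ := h m hm
      exact ⟨a1.mono subset_rfl (by linarith), a2.mono subset_rfl (by linarith), 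
        a3.mono subset_rfl (by linarith), a4.mono subset_rfl (by linarith)⟩
    · exact ⟨h1.mono subset_rfl (by linarith), h2.mono subset_rfl (by linarith), 
        h3.mono subset_rfl (by linarith), h4.mono subset_rfl (by linarith)⟩

/-- the step halves small bounds -/
theorem halve (M : ℕ) : ∃ δ : ℝ, 0 < δ ∧ ∀ (S : Set ℂˣ), S ⊆ SM → ∀ (c : ℝ), 0 ≤ c → c ≤ δ → 
    ∀ z : List (Letter 4), Sm S c z → ∀ m < M, Sm S (c / 2) (stp m z) := by
  obtain ⟨K1, hK1, h1⟩ := Sm.conj_ex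
  obtain ⟨K2, hK2, h2⟩ := Sm.comm_ex
  obtain ⟨C, hC, h3⟩ := gm_bdd M
  set E : ℝ := K1 * C * C with hE
  have hE0 : 0 ≤ E := by positivity
  set F : ℝ := K2 * (1 + E) ^ 2 * E ^ 2 with hF
  have hF0 : 0 ≤ F := by positivity
  refine ⟨1 / (2 * (F + 1)), by positivity, ?_⟩
  intro S hS c hc hcd z hz m hm
  obtain ⟨a1, a2, a3, a4⟩ := h3 m hm
  have hc1 : c ≤ 1 := hcd.trans (by rw [div_le_one (by positivity)]; linarith)
  have g1 := h1 S hS c C hc hC z _ hz (a1.mono hS le_rfl) (a2.mono hS le_rfl)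
  have g2 := h1 S hS c C hc hC z _ hz (a3.mono hS le_rfl) (a4.mono hS le_rfl)
  have g3 := h2 S hS (K1 * (C * c * C)) (by positivity) _ _ g1 g2
  refine g3.mono subset_rfl ?_
  have e1 : K1 * (C * c * C) = E * c := by rw [hE]; ring
  rw [e1]
  have e2 : (1 + E * c) ^ 2 ≤ (1 + E) ^ 2 := by
    apply pow_le_pow_left₀ (by positivity)
    nlinarith
  have e3 : K2 * (1 + E * c) ^ 2 * (E * c) ^ 2 ≤ F * c * c := by
    have : K2 * (1 + E * c) ^ 2 * (E * c) ^ 2 = (K2 * E ^ 2 * c ^ 2) * (1 + E * c) ^ 2 := by ring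
    rw [this]
    calc (K2 * E ^ 2 * c ^ 2) * (1 + E * c) ^ 2 ≤ (K2 * E ^ 2 * c ^ 2) * (1 + E) ^ 2 := 
          mul_le_mul_of_nonneg_left e2 (by positivity)
      _ = F * c * c := by rw [hF]; ring
  refine e3.trans ?_
  have e4 : F * c ≤ 1 / 2 := by
    calc F * c ≤ F * (1 / (2 * (F + 1))) := mul_le_mul_of_nonneg_left hcd hF0
      _ ≤ 1 / 2 := by
        rw [mul_one_div, div_le_div_iff₀ (by positivity) (by norm_num)]
        linarith
  nlinarith

/-- the last conjugation -/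
def fin (m : ℕ) (z : List (Letter 4)) : List (Letter 4) := cjw (wa (2 * m)) (cjw (wb (2 * m)) z)

theorem fin_small (M : ℕ) : ∃ C : ℝ, 0 ≤ C ∧ ∀ (S : Set ℂˣ), S ⊆ SM → ∀ (c : ℝ), 0 ≤ c → 
    ∀ z : List (Letter 4), Sm S c z → ∀ m < M, Sm S (C * c) (fin m z) := by
  obtain ⟨K1, hK1, h1⟩ := Sm.conj_ex
  obtain ⟨C, hC, h3⟩ := gm_bdd M
  refine ⟨K1 * C * (K1 * C * C) * C, by positivity, ?_⟩
  intro S hS c hc z hz m hm
  obtain ⟨a1, a2, a3, a4⟩ := h3 m hm
  have g1 := h1 S hS c C hc hC z _ hz (a3.mono hS le_rfl) (a4.mono hS le_rfl)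
  have g2 := h1 S hS _ C (by positivity) hC _ _ g1 (a1.mono hS le_rfl) (a2.mono hS le_rfl)
  exact g2.mono subset_rfl (le_of_eq (by ring))

/-! ### divisibility -/

/-- `f` divides `w - 1` -/
def Dv (f : ℤ[T;T⁻¹]) (w : List (Letter 4)) : Prop := ∃ y : TLZ 4, Zw w - 1 = f • y

theorem Dv.conj {f : ℤ[T;T⁻¹]} {z : List (Letter 4)} (h : Dv f z) (g : List (Letter 4)) : 
    Dv f (cjw g z) := by
  obtain ⟨y, hy⟩ := h
  exact ⟨Zw g * y * Zw (invW g), by rw [cjw_sub, hy, mul_smul_comm, smul_mul_assoc]⟩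

theorem Dv.comm {f g : ℤ[T;T⁻¹]} {G H : List (Letter 4)} (h : Dv f G) (h' : Dv g H) : 
    Dv (f * g) (cmw G H) := by
  obtain ⟨y, hy⟩ := h
  obtain ⟨y', hy'⟩ := h'
  refine ⟨(y * y' - y' * y) * Zw (invW G) * Zw (invW H), ?_⟩
  rw [cmw_sub, hy, hy', smul_mul_smul_comm, smul_mul_smul_comm, mul_comm g f, ← smul_sub, smul_mul_assoc, 
    smul_mul_assoc]

theorem Dv.stp {f : ℤ[T;T⁻¹]} {z : List (Letter 4)} (h : Dv f z) (m : ℕ) : Dv (f * f) (stp m z) := 
  (h.conj _).comm (h.conj _)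

theorem Dv.fin {f : ℤ[T;T⁻¹]} {z : List (Letter 4)} (h : Dv f z) (m : ℕ) : Dv f (fin m z) := 
  (h.conj _).conj _

end Pool.Agent.J4.H15.RU
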