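import Pool.Agent.J4.H15.RU.Cl

/-!
# The closure of `σ₁ σ₂ σ₃` is a diagram of the unknot
-/

set_option autoImplicit false

namespace Pool.Agent.J4.H15.RU

open LaurentPolynomial Pool.Agent.H891R2.Jones Pool.Agent.W639.RB Pool.Agent.Y463.SK Pool.Agent.Y463.MP


theorem closure_closed : (braidClosure 4).close.IsClosed := by
  intro p
  revert p
  show ∀ p : Fin 4, (braidClosure 4).close.starts.count p = 1 ∧ (braidClosure 4).close.ends.count p = 1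
  decide

theorem knot_dl {W : List (Letter 4)} (hW : IsPure W) (a b : Fin 4) : (permW (W ++ dl)).SameCycle a b := by
  unfold IsPure at hW
  rw [permW_append, hW, one_mul]
  have h1 : permW dl = Equiv.swap 0 1 * (Equiv.swap 1 2 * Equiv.swap 2 3) := by
    simp [permW, dl]
  rw [h1]
  have h2 : ∀ a b : Fin 4, ∃ i : Fin 4, ((Equiv.swap 0 1 * (Equiv.swap 1 2 * Equiv.swap 2 3) : 
      Equiv.Perm (Fin 4)) ^ (i : ℕ)) a = b := by decide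
  obtain ⟨i, hi⟩ := h2 a b
  exact ⟨i, by rw [zpow_natCast]; exact hi⟩

theorem ph_dl : ph (Zw dl) = -((T 1 : ℤ[T;T⁻¹])) ^ 9 := by
  have h0 : Zw dl = ss (T 1 : ℤ[T;T⁻¹]) (T (-1) : ℤ[T;T⁻¹]) (EZ 4 0) * ss (T 1 : ℤ[T;T⁻¹]) (T (-1) : ℤ[T;T⁻¹]) (EZ 4 1) * ss (T 1 : ℤ[T;T⁻¹]) (T (-1) : ℤ[T;T⁻¹]) (EZ 4 2) := by
    unfold Zw dl
    simp only [List.map_cons, List.map_nil, List.prod_cons, List.prod_nil, mul_one, mul_assoc]
    rfl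
  have h1 : Zw dl = ((T 1 : ℤ[T;T⁻¹]) ^ 3) • 1 + ((T 1 : ℤ[T;T⁻¹]) ^ 2 * (T (-1) : ℤ[T;T⁻¹])) • EZ 4 0 + ((T 1 : ℤ[T;T⁻¹]) ^ 2 * (T (-1) : ℤ[T;T⁻¹])) • EZ 4 1 + 
      ((T 1 : ℤ[T;T⁻¹]) ^ 2 * (T (-1) : ℤ[T;T⁻¹])) • EZ 4 2 + ((T 1 : ℤ[T;T⁻¹]) * (T (-1) : ℤ[T;T⁻¹]) ^ 2) • (EZ 4 0 * EZ 4 1) + ((T 1 : ℤ[T;T⁻¹]) * (T (-1) : ℤ[T;T⁻¹]) ^ 2) • (EZ 4 0 * EZ 4 2) + 
      ((T 1 : ℤ[T;T⁻¹]) * (T (-1) : ℤ[T;T⁻¹]) ^ 2) • (EZ 4 1 * EZ 4 2) + ((T (-1) : ℤ[T;T⁻¹]) ^ 3) • (EZ 4 0 * EZ 4 1 * EZ 4 2) := by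
    rw [h0]
    unfold ss
    simp only [add_mul, mul_add, smul_mul_assoc, mul_smul_comm, smul_smul, one_mul, mul_one, smul_add]
    generalize (T 1 : ℤ[T;T⁻¹]) = s
    generalize (T (-1) : ℤ[T;T⁻¹]) = t
    match_scalars <;> ring
  rw [h1]
  simp only [map_add, map_smul, smul_eq_mul]
  rw [ph_nil, ph_one 0 (by norm_num), ph_one 1 (by norm_num), ph_one 2 (by norm_num), 
    ph_two 0 1 (by norm_num) (by norm_num), ph_two 0 2 (by norm_num) (by norm_num), 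
    ph_two 1 2 (by norm_num) (by norm_num), ph_three]
  have h2 : (T 1 : ℤ[T;T⁻¹]) * dd + (T (-1) : ℤ[T;T⁻¹]) = -((T 1 : ℤ[T;T⁻¹])) ^ 3 := by
    unfold dd
    linear_combination (-(T (-1) : ℤ[T;T⁻¹])) * TT
  calc _ = ((T 1 : ℤ[T;T⁻¹]) * dd + (T (-1) : ℤ[T;T⁻¹])) ^ 3 := by ring
    _ = _ := by rw [h2]; ring

theorem writhe_dl : (dia (braidClosure 4) dl).writhe = 3 := by
  rw [writhe_dia]
  have h1 : owr (braidClosure 4) = 0 := rfl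
  have h2 : ∀ j < 4, pat (braidClosure 4).up j = 1 := by
    intro j hj
    unfold pat
    rw [dif_pos hj]
    rfl
  rw [h1, zero_add]
  show costS [(true, 0), (true, 1), (true, 2)] _ = 3
  simp only [costS, Function.comp_apply, if_true]
  rw [h2 0 (by norm_num), h2 1 (by norm_num)]
  have e1 : (Equiv.swap 0 (0 + 1)) 1 = 0 := by decide
  have e2 : (Equiv.swap 0 (0 + 1)) (1 + 1) = 2 := by decide
  have e3 : (Equiv.swap 0 (0 + 1)) ((Equiv.swap 1 (1 + 1)) 2) = 0 := by decide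
  have e4 : (Equiv.swap 0 (0 + 1)) ((Equiv.swap 1 (1 + 1)) (2 + 1)) = 3 := by decide
  rw [e1, e2, e3, e4, h2 0 (by norm_num), h2 2 (by norm_num), h2 3 (by norm_num)]
  norm_num

theorem fPoly_dl : (dia (braidClosure 4) dl).fPoly = 1 := by
  unfold Diagram.fPoly
  rw [writhe_dl, bracket_dia]
  rw [show PhiS (by norm_num : 0 < 4) (braidClosure 4) (Zw dl) = ph (Zw dl) from rfl, ph_dl, T_pow]
  rw [if_neg (by decide)]
  rw [neg_one_mul, neg_mul_neg, ← T_add, ← T_zero]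
  norm_num

end Pool.Agent.J4.H15.RU
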