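import Pool.Agent.J4.H15.RU.Val
import Pool.Agent.J4.H15.RU.Gen
import Pool.Agent.J4.H15.RU.Small

/-!
# Nondegenerate words stay nondegenerate under a step
-/

set_option autoImplicit false

namespace Pool.Agent.J4.H15.RU

open LaurentPolynomial Pool.Agent.H891R2.Jones Pool.Agent.W639.RB Pool.Agent.Y463.SK Pool.Agent.Y463.MP


/-- the element of a word over the field -/
noncomputable def zt (w : List (Letter 4)) : TLL LL 4 := inc LL 4 (Zw w)

theorem zt_append (w w' : List (Letter 4)) : zt (w ++ w') = zt w * zt w' := by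
  unfold zt
  rw [Zw_append, map_mul]

theorem Th_ne : PF * EF 1 * MF ≠ 0 := by
  intro h
  apply top_ne 1 one_ne_zero
  rw [h, smul_zero, zero_mul, map_zero]

/-! ### the right ideal -/

theorem RI_add {y y' : TLL LL 4} (h : RI (L := LL) PF MF (EF 1) y) (h' : RI (L := LL) PF MF (EF 1) y') : 
    RI (L := LL) PF MF (EF 1) (y + y') := h.add h'

theorem RI_smul (c : LL) {y : TLL LL 4} (h : RI (L := LL) PF MF (EF 1) y) : 
    RI (L := LL) PF MF (EF 1) (c • y) := h.smul c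

theorem RI_P : RI (L := LL) PF MF (EF 1) PF := RI.self _ _ _

theorem RI_EF {y : TLL LL 4} (h : RI (L := LL) PF MF (EF 1) y) (i : Fin 3) : 
    RI (L := LL) PF MF (EF 1) (y * EF i) := by
  apply RI_gen tlL al_dd h
  fin_cases i
  · exact Or.inl rfl
  · exact Or.inr (Or.inl rfl)
  · exact Or.inr (Or.inr rfl)

theorem RI_lin {y : TLL LL 4} (h : RI (L := LL) PF MF (EF 1) y) (u v : LL) (i : Fin 3) : 
    RI (L := LL) PF MF (EF 1) (y * (u • 1 + v • EF i)) := by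
  rw [mul_add, mul_smul_comm, mul_smul_comm, mul_one]
  exact RI_add (RI_smul u h) (RI_smul v (RI_EF h i))

theorem inc_letter (x : Letter 4) : ∃ (u v : LL) (i : Fin 3), 
    inc LL 4 (sZ 4 (x.1, (x.2 : ℕ))) = u • 1 + v • EF i := by
  rcases x with ⟨p, i⟩
  cases p
  · refine ⟨al (T (-1) : ℤ[T;T⁻¹]), al (T 1 : ℤ[T;T⁻¹]), i, ?_⟩
    show inc LL 4 (ss (T (-1) : ℤ[T;T⁻¹]) (T 1 : ℤ[T;T⁻¹]) (EZ 4 i)) = _
    unfold ss
    rw [map_add, inc_al, inc_al, map_one]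
    rfl
  · refine ⟨al (T 1 : ℤ[T;T⁻¹]), al (T (-1) : ℤ[T;T⁻¹]), i, ?_⟩
    show inc LL 4 (ss (T 1 : ℤ[T;T⁻¹]) (T (-1) : ℤ[T;T⁻¹]) (EZ 4 i)) = _
    unfold ss
    rw [map_add, inc_al, inc_al, map_one]
    rfl

theorem RI_word (w : List (Letter 4)) {y : TLL LL 4} (h : RI (L := LL) PF MF (EF 1) y) : 
    RI (L := LL) PF MF (EF 1) (y * zt w) := by
  induction w generalizing y with
  | nil =>
    have : zt [] = 1 := by unfold zt; exact map_one _
    rw [this, mul_one]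
    exact h
  | cons x w ih =>
    have h0 : zt [x] = inc LL 4 (sZ 4 (x.1, (x.2 : ℕ))) := by
      unfold zt
      rw [Zw_sing]
    have h1 : zt (x :: w) = inc LL 4 (sZ 4 (x.1, (x.2 : ℕ))) * zt w := by
      rw [show x :: w = [x] ++ w from rfl, zt_append, h0]
    obtain ⟨u, v, i, hx⟩ := inc_letter x
    rw [h1, hx, ← mul_assoc]
    exact ih (RI_lin h u v i)

theorem c_one (w : List (Letter 4)) : ∃ c : LL, PF * zt w * MF = c • (PF * EF 1 * MF) := 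
  RI_M pmF (RI_word w RI_P)

theorem c_two (w : List (Letter 4)) : ∃ c : LL, 
    PF * sg (al (T (-1) : ℤ[T;T⁻¹])) (al (T 1 : ℤ[T;T⁻¹])) (EF 1) * zt w * sg (al (T 1 : ℤ[T;T⁻¹])) (al (T (-1) : ℤ[T;T⁻¹])) (EF 1) * MF = c • (PF * EF 1 * MF) := 
  RI_M pmF (RI_lin (RI_word w (RI_lin RI_P _ _ 1)) _ _ 1)

/-- a nondegenerate word -/
def Jp (w : List (Letter 4)) : Prop := PF * zt w * MF ≠ 0 ∧ 
  PF * sg (al (T (-1) : ℤ[T;T⁻¹])) (al (T 1 : ℤ[T;T⁻¹])) (EF 1) * zt w * sg (al (T 1 : ℤ[T;T⁻¹])) (al (T (-1) : ℤ[T;T⁻¹])) (EF 1) * MF ≠ 0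

/-- a nondegenerate word with nondegenerate inverse -/
def JJp (w : List (Letter 4)) : Prop := Jp w ∧ Jp (invW w)

theorem avoid {f : ℕ → LL} (hf : Function.Injective f) (R : Finset LL) : ∃ j < R.card + 1, f j ∉ R := by
  classical
  obtain ⟨x, hx, hxR⟩ := Finset.exists_mem_notMem_of_card_lt_card (s := R) 
    (t := (Finset.range (R.card + 1)).image f) (by
      rw [Finset.card_image_of_injective _ hf, Finset.card_range]
      exact Nat.lt_succ_self _)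
  obtain ⟨j, hj, rfl⟩ := Finset.mem_image.1 hx
  exact ⟨j, Finset.mem_range.1 hj, hxR⟩

theorem topAp : TopIs Ap 2 PF := TopIs.quad _ _ _
theorem topAm : TopIs Am 2 MF := TopIs.quad _ _ _
theorem topBp : TopIs Bp 2 (PMe.cj (al (T 1 : ℤ[T;T⁻¹])) (al (T (-1) : ℤ[T;T⁻¹])) (EF 1) PF) := (TopIs.quad _ _ _).conj _ _
theorem topBm : TopIs Bm 2 (PMe.cj (al (T 1 : ℤ[T;T⁻¹])) (al (T (-1) : ℤ[T;T⁻¹])) (EF 1) MF) := (TopIs.quad _ _ _).conj _ _

theorem lm_ne (m : ℕ) : lm m ≠ 0 := by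
  unfold lm
  intro h
  have h1 := congrArg al (hl' m)
  rw [map_mul, h, zero_mul, map_one] at h1
  exact zero_ne_one h1


theorem zt_cjw (g z : List (Letter 4)) : zt (cjw g z) = zt g * zt z * zt (invW g) := by
  unfold cjw
  rw [zt_append, zt_append]

theorem zt_cmw (G H : List (Letter 4)) : zt (cmw G H) = zt G * zt H * zt (invW G) * zt (invW H) := by
  unfold cmw
  rw [zt_append, zt_append, zt_append]

theorem zt_stp (z : List (Letter 4)) (m : ℕ) : zt (stp m z) = 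
    (zt (wa (2 * m)) * zt z * zt (invW (wa (2 * m)))) * (zt (wb (2 * m)) * zt z * zt (invW (wb (2 * m)))) * 
    (zt (wa (2 * m)) * zt (invW z) * zt (invW (wa (2 * m)))) * 
    (zt (wb (2 * m)) * zt (invW z) * zt (invW (wb (2 * m)))) := by
  unfold stp
  rw [zt_cmw, invW_cjw, invW_cjw, zt_cjw, zt_cjw, zt_cjw, zt_cjw]

theorem zt_stp' (z : List (Letter 4)) (m : ℕ) : zt (invW (stp m z)) = 
    (zt (wb (2 * m)) * zt z * zt (invW (wb (2 * m)))) * (zt (wa (2 * m)) * zt z * zt (invW (wa (2 * m)))) * 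
    (zt (wb (2 * m)) * zt (invW z) * zt (invW (wb (2 * m)))) * 
    (zt (wa (2 * m)) * zt (invW z) * zt (invW (wa (2 * m)))) := by
  unfold stp
  rw [invW_cmw, zt_cmw, invW_cjw, invW_cjw, zt_cjw, zt_cjw, zt_cjw, zt_cjw]

/-- a step with a small parameter keeps nondegenerate words nondegenerate -/
theorem J_step (z : List (Letter 4)) (h : JJp z) : ∃ m < 65, JJp (stp m z) := by
  classical
  obtain ⟨c1, h1⟩ := c_one z
  obtain ⟨c2, h2⟩ := c_two z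
  obtain ⟨c3, h3⟩ := c_one (invW z)
  obtain ⟨c4, h4⟩ := c_two (invW z)
  have n1 : c1 ≠ 0 := fun h0 => h.1.1 (by rw [h1, h0, zero_smul])
  have n2 : c2 ≠ 0 := fun h0 => h.1.2 (by rw [h2, h0, zero_smul])
  have n3 : c3 ≠ 0 := fun h0 => h.2.1 (by rw [h3, h0, zero_smul])
  have n4 : c4 ≠ 0 := fun h0 => h.2.2 (by rw [h4, h0, zero_smul])
  obtain ⟨R1, r1, g1⟩ := good_one pmF tlL.s2 Th_ne topAp topAm topBp topBm h1 h2 h3 h4 n1 n2 n3 n4
  obtain ⟨R2, r2, g2⟩ := good_two pmF tlL.s2 Th_ne topAp topAm topBp topBm h1 h2 h3 h4 n1 n2 n3 n4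
  obtain ⟨m, hm, hmR⟩ := avoid lm_inj (R1 ∪ R2)
  have hcard := Finset.card_union_le R1 R2
  rw [Finset.mem_union, not_or] at hmR
  have k1 := g1 _ hmR.1 (zt (wa (2 * m))) (zt (invW (wa (2 * m)))) (zt (wb (2 * m))) 
    (zt (invW (wb (2 * m)))) (ev_Ap m) (ev_Am m) (ev_Bp m) (ev_Bm m)
  have k2 := g2 _ hmR.2 (zt (wa (2 * m))) (zt (invW (wa (2 * m)))) (zt (wb (2 * m))) 
    (zt (invW (wb (2 * m)))) (ev_Ap m) (ev_Am m) (ev_Bp m) (ev_Bm m)
  rw [← zt_stp] at k1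
  rw [← zt_stp'] at k2
  exact ⟨m, by omega, k1, k2⟩

theorem ev_UP2 (k m : ℕ) : evx (lm m) (UP Ap Am Bp Bm (k + 2)).2 = 
    lm m ^ (le (k + 2)) • zt (invW (WW k (2 * m))) := by
  rw [(UP_ev (lm m) (ev_Ap m) (ev_Am m) (ev_Bp m) (ev_Bm m) (k + 2)).2, ← uF_wU, uF_inv]
  rfl

/-- nondegenerate words to start with -/
theorem J_base {N : ℕ} (hN : 1 ≤ N) : ∃ j : ℕ, JJp (WW 0 (2 * (N * (j + 1)))) := by
  classical
  obtain ⟨⟨κ, hκ, ht⟩, ⟨κ', hκ', ht'⟩⟩ := UP_top pmF topAp topAm topBp topBm (0 + 2)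
  obtain ⟨R1, g1⟩ := good_base pmF Th_ne (le_pos _) hκ ht
  obtain ⟨R2, g2⟩ := good_base pmF Th_ne (le_pos _) hκ' ht'
  have hinj : Function.Injective (fun j : ℕ => lm (N * (j + 1))) := by
    intro i j hij
    have := lm_inj hij
    have := Nat.eq_of_mul_eq_mul_left hN this
    omega
  obtain ⟨j, hj, hjR⟩ := avoid hinj (R1 ∪ R2)
  rw [Finset.mem_union, not_or] at hjR
  exact ⟨j, g1 _ hjR.1 _ (ev_UP 0 _), g2 _ hjR.2 _ (ev_UP2 0 _)⟩

/-- the last conjugation changes the Jones polynomial -/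
theorem J_fin (z : List (Letter 4)) (h : JJp z) (F : LL) : 
    ∃ m < 9, al (ph (Zw (fin m z ++ dl))) ≠ F := by
  obtain ⟨c2, h2⟩ := c_two z
  have n2 : c2 ≠ 0 := fun h0 => h.1.2 (by rw [h2, h0, zero_smul])
  obtain ⟨R, r, g⟩ := good_fin pmF topAp topAm topBp topBm h2 n2 phF (zt dl) (fun κ hκ => top_ne κ hκ) F
  obtain ⟨m, hm, hmR⟩ := avoid lm_inj R
  refine ⟨m, by omega, ?_⟩
  have k := g _ (lm_ne m) hmR (zt (wa (2 * m))) (zt (invW (wa (2 * m)))) (zt (wb (2 * m))) 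
    (zt (invW (wb (2 * m)))) (ev_Ap m) (ev_Am m) (ev_Bp m) (ev_Bm m)
  have e1 : zt (fin m z) = zt (wa (2 * m)) * (zt (wb (2 * m)) * zt z * zt (invW (wb (2 * m)))) * 
      zt (invW (wa (2 * m))) := by
    unfold fin
    rw [zt_cjw, zt_cjw]
  rw [← e1, ← zt_append] at k
  rwa [show zt (fin m z ++ dl) = inc LL 4 (Zw (fin m z ++ dl)) from rfl, phF_inc] at k

end Pool.Agent.J4.H15.RU
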