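import Pool.Agent.J4.H15.RU.Filt
import Pool.Agent.Y463.MP.Func

/-!
# The braids `σ₁ⁿ σ₃⁻ⁿ` and their conjugates in the Temperley–Lieb algebra on four strands
-/

set_option autoImplicit false

namespace Pool.Agent.J4.H15.RU

open LaurentPolynomial Pool.Agent.H891R2.Jones Pool.Agent.W639.RB Pool.Agent.Y463.SK Pool.Agent.Y463.MP


/-- the loop value -/
noncomputable def dd : ℤ[T;T⁻¹] := -(T 1) ^ 2 - (T (-1)) ^ 2

theorem tl4 : TL4 dd (EZ 4 0) (EZ 4 1) (EZ 4 2) where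
  s1 := (isTL_EZ 4).sq 0 (by norm_num)
  s2 := (isTL_EZ 4).sq 1 (by norm_num)
  s3 := (isTL_EZ 4).sq 2 (by norm_num)
  r12 := (isTL_EZ 4).up 0 (by norm_num)
  r21 := (isTL_EZ 4).down 0 (by norm_num)
  r23 := (isTL_EZ 4).up 1 (by norm_num)
  r32 := (isTL_EZ 4).down 1 (by norm_num)
  c13 := (isTL_EZ 4).far 0 2 (by norm_num) (by norm_num)

theorem gen_TLZ (x : TLZ 4) : x ∈ Algebra.adjoin ℤ[T;T⁻¹] ({EZ 4 0, EZ 4 1, EZ 4 2} : Set (TLZ 4)) := by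
  obtain ⟨x, hx⟩ := x
  refine Algebra.adjoin_induction (p := fun x hx => (⟨x, hx⟩ : TLZ 4) ∈ 
    Algebra.adjoin ℤ[T;T⁻¹] ({EZ 4 0, EZ 4 1, EZ 4 2} : Set (TLZ 4))) ?_ ?_ ?_ ?_ hx
  · rintro _ ⟨i, rfl⟩
    rcases Nat.lt_or_ge i 3 with hi | hi
    · apply Algebra.subset_adjoin
      have : i = 0 ∨ i = 1 ∨ i = 2 := by omega
      rcases this with rfl | rfl | rfl
      · exact Or.inl rfl
      · exact Or.inr (Or.inl rfl)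
      · exact Or.inr (Or.inr rfl)
    · have h0 : (⟨EB 4 i, Algebra.subset_adjoin ⟨i, rfl⟩⟩ : TLZ 4) = 0 := 
        Subtype.ext (EB_zero 4 i (by omega))
      rw [h0]
      exact Subalgebra.zero_mem _
  · intro r
    exact Subalgebra.algebraMap_mem _ r
  · intro x y hx hy h1 h2
    exact Subalgebra.add_mem _ h1 h2
  · intro x y hx hy h1 h2
    exact Subalgebra.mul_mem _ h1 h2

/-- `f_n`: `1 + d f_n = (-A⁻⁴)ⁿ` -/
noncomputable def fn : ℕ → ℤ[T;T⁻¹]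
  | 0 => 0
  | (n+1) => fn n + (T (-1)) ^ 2 + dd * fn n * (T (-1)) ^ 2

theorem TT : (T 1 : ℤ[T;T⁻¹]) * T (-1) = 1 := T_mul_inv

theorem lam_step : 1 + dd * (T (-1)) ^ 2 = -(T (-1) : ℤ[T;T⁻¹]) ^ 4 := by
  unfold dd
  linear_combination (-(T 1 * T (-1) + 1) : ℤ[T;T⁻¹]) * TT

theorem fn_spec (n : ℕ) : 1 + dd * fn n = (-(T (-1) : ℤ[T;T⁻¹]) ^ 4) ^ n := by
  induction n with
  | zero => rw [fn, mul_zero, add_zero, pow_zero]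
  | succ n ih =>
    rw [pow_succ, ← ih, ← lam_step, fn]
    ring

/-- `(A + A' e)ⁿ = Aⁿ (1 + f_n e)` -/
theorem ss_pow {B : Type*} [Ring B] [Algebra ℤ[T;T⁻¹] B] {e : B} (he : e * e = dd • e) (n : ℕ) : 
    (ss (T 1 : ℤ[T;T⁻¹]) (T (-1) : ℤ[T;T⁻¹]) e) ^ n = ((T 1 : ℤ[T;T⁻¹]) ^ n) • (1 + fn n • e) := by
  induction n with
  | zero => rw [pow_zero, pow_zero, fn, zero_smul, add_zero, one_smul]
  | succ n ih =>
    rw [pow_succ, ih, pow_succ, fn]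
    have h1 : ss (T 1 : ℤ[T;T⁻¹]) (T (-1) : ℤ[T;T⁻¹]) e = (T 1 : ℤ[T;T⁻¹]) • (1 + ((T (-1) : ℤ[T;T⁻¹]) ^ 2) • e) := by
      unfold ss
      rw [smul_add, smul_smul]
      have : (T 1 : ℤ[T;T⁻¹]) * T (-1) ^ 2 = T (-1) := by
        rw [pow_two, ← mul_assoc, TT, one_mul]
      rw [this]
    rw [h1, smul_mul_smul_comm]
    congr 1
    rw [mul_add, mul_one, add_mul, one_mul, smul_mul_smul_comm, he, smul_smul]
    generalize (T (-1) : ℤ[T;T⁻¹]) = t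
    module

/-- the inverse letters -/
theorem ss_pow' {B : Type*} [Ring B] [Algebra ℤ[T;T⁻¹] B] {e : B} (he : e * e = dd • e) {n : ℕ} 
    {l l' : ℤ[T;T⁻¹]} (hl : l * l' = 1) (hf : 1 + dd * fn n = l) : 
    (ss (T (-1) : ℤ[T;T⁻¹]) (T 1 : ℤ[T;T⁻¹]) e) ^ n = ((T (-1) : ℤ[T;T⁻¹]) ^ n) • (1 - (l' * fn n) • e) := by
  have h1 : ss (T 1 : ℤ[T;T⁻¹]) (T (-1) : ℤ[T;T⁻¹]) e * ss (T (-1) : ℤ[T;T⁻¹]) (T 1 : ℤ[T;T⁻¹]) e = 1 := by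
    unfold ss
    simp only [mul_add, add_mul, mul_smul_comm, smul_mul_assoc, mul_one, one_mul, smul_smul, he]
    refine Eq.trans (b := ((T 1 : ℤ[T;T⁻¹]) * T (-1)) • (1 : B) + 
      ((T (-1) : ℤ[T;T⁻¹]) * T (-1) + T 1 * T 1 + T 1 * T (-1) * dd) • e) ?_ ?_
    · generalize (T (-1) : ℤ[T;T⁻¹]) = t
      generalize (T 1 : ℤ[T;T⁻¹]) = s
      module
    · rw [TT, one_smul]
      have : ((T (-1) : ℤ[T;T⁻¹]) * T (-1) + T 1 * T 1 + 1 * dd) = 0 := by unfold dd; ring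
      rw [this, zero_smul, add_zero]
  have h2 : ss (T (-1) : ℤ[T;T⁻¹]) (T 1 : ℤ[T;T⁻¹]) e * ss (T 1 : ℤ[T;T⁻¹]) (T (-1) : ℤ[T;T⁻¹]) e = 1 := by
    unfold ss
    simp only [mul_add, add_mul, mul_smul_comm, smul_mul_assoc, mul_one, one_mul, smul_smul, he]
    refine Eq.trans (b := ((T 1 : ℤ[T;T⁻¹]) * T (-1)) • (1 : B) + 
      ((T (-1) : ℤ[T;T⁻¹]) * T (-1) + T 1 * T 1 + T 1 * T (-1) * dd) • e) ?_ ?_
    · generalize (T (-1) : ℤ[T;T⁻¹]) = t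
      generalize (T 1 : ℤ[T;T⁻¹]) = s
      module
    · rw [TT, one_smul]
      have : ((T (-1) : ℤ[T;T⁻¹]) * T (-1) + T 1 * T 1 + 1 * dd) = 0 := by unfold dd; ring
      rw [this, zero_smul, add_zero]
  have h3 : (ss (T (-1) : ℤ[T;T⁻¹]) (T 1 : ℤ[T;T⁻¹]) e) ^ n * (ss (T 1 : ℤ[T;T⁻¹]) (T (-1) : ℤ[T;T⁻¹]) e) ^ n = 1 := by
    have hc : Commute (ss (T (-1) : ℤ[T;T⁻¹]) (T 1 : ℤ[T;T⁻¹]) e) (ss (T 1 : ℤ[T;T⁻¹]) (T (-1) : ℤ[T;T⁻¹]) e) := by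
      rw [Commute, SemiconjBy, h1, h2]
    rw [← hc.mul_pow, h2, one_pow]
  have h4 : (ss (T 1 : ℤ[T;T⁻¹]) (T (-1) : ℤ[T;T⁻¹]) e) ^ n * (((T (-1) : ℤ[T;T⁻¹]) ^ n) • (1 - (l' * fn n) • e)) = 1 := by
    rw [ss_pow he, smul_mul_smul_comm, ← mul_pow, TT, one_pow, one_smul, mul_sub, mul_one, add_mul, 
      one_mul, smul_mul_smul_comm, he, smul_smul]
    have h5 : l' * (1 + dd * fn n) = 1 := by rw [hf, mul_comm, hl]
    refine Eq.trans (b := 1 + (fn n - l' * fn n - fn n * (l' * fn n) * dd) • e) (by module) ?_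
    have h6 : fn n - l' * fn n - fn n * (l' * fn n) * dd = 0 := by linear_combination (-fn n) * h5
    rw [h6, zero_smul, add_zero]
  calc (ss (T (-1) : ℤ[T;T⁻¹]) (T 1 : ℤ[T;T⁻¹]) e) ^ n = (ss (T (-1) : ℤ[T;T⁻¹]) (T 1 : ℤ[T;T⁻¹]) e) ^ n * ((ss (T 1 : ℤ[T;T⁻¹]) (T (-1) : ℤ[T;T⁻¹]) e) ^ n * 
      (((T (-1) : ℤ[T;T⁻¹]) ^ n) • (1 - (l' * fn n) • e))) := by rw [h4, mul_one]
    _ = _ := by rw [← mul_assoc, h3, one_mul]

/-! ### words -/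

/-- the element of a word -/
noncomputable def Zw (w : List (Letter 4)) : TLZ 4 := (w.map (fun x => sZ 4 (x.1, (x.2 : ℕ)))).prod

theorem Zw_append (w w' : List (Letter 4)) : Zw (w ++ w') = Zw w * Zw w' := by
  unfold Zw
  rw [List.map_append, List.prod_append]

theorem Zw_val (w : List (Letter 4)) : (Zw w : BB 4) = bb 4 (toN w) := by
  unfold Zw bb wd toN
  induction w with
  | nil => rfl
  | cons x w ih =>
    rw [List.map_cons, List.prod_cons, Subalgebra.coe_mul, ih, sZ_val]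
    rfl

theorem invW_invW (w : List (Letter 4)) : invW (invW w) = w := by
  unfold invW
  rw [← List.map_reverse, List.reverse_reverse, List.map_map]
  conv_rhs => rw [← List.map_id w]
  apply List.map_congr_left
  intro x _
  simp

theorem Zw_inv (w : List (Letter 4)) : Zw w * Zw (invW w) = 1 := by
  apply Subtype.ext
  rw [Subalgebra.coe_mul, Zw_val, Zw_val, toN_inv]
  exact bb_inv _ (toN_lt w)

theorem Zw_inv' (w : List (Letter 4)) : Zw (invW w) * Zw w = 1 := by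
  have := Zw_inv (invW w)
  rwa [invW_invW] at this

/-- the unit of a word -/
noncomputable def vu (w : List (Letter 4)) : (TLZ 4)ˣ := ⟨Zw w, Zw (invW w), Zw_inv w, Zw_inv' w⟩

theorem vu_append (w w' : List (Letter 4)) : vu (w ++ w') = vu w * vu w' := 
  Units.ext (Zw_append w w')

theorem vu_inv (w : List (Letter 4)) : vu (invW w) = (vu w)⁻¹ := Units.ext rfl

/-- the iterated commutators as words -/
def wU (a b : List (Letter 4)) : ℕ → List (Letter 4)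
  | 0 => a ++ b ++ invW a
  | (k+1) => a ++ (wU a b k ++ (b ++ wU a b k ++ invW b) ++ invW (wU a b k) ++ 
      invW (b ++ wU a b k ++ invW b)) ++ invW a

theorem vu_wU (a b : List (Letter 4)) (k : ℕ) : vu (wU a b k) = uu (vu a) (vu b) k := by
  induction k with
  | zero => rw [wU, uu, vu_append, vu_append, vu_inv]
  | succ k ih =>
    rw [wU, uu, vu_append, vu_append, vu_append, vu_append, vu_append, vu_inv, vu_inv, vu_inv, vu_append, 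
      vu_append, vu_inv, ih]

/-- `σ₁ⁿ σ₃⁻ⁿ` -/
def wa (n : ℕ) : List (Letter 4) := List.replicate n (true, 0) ++ List.replicate n (false, 2)

/-- its conjugate by `σ₂` -/
def wb (n : ℕ) : List (Letter 4) := [(true, 1)] ++ wa n ++ [(false, 1)]

theorem Zw_rep (n : ℕ) (x : Letter 4) : Zw (List.replicate n x) = (sZ 4 (x.1, (x.2 : ℕ))) ^ n := by
  unfold Zw
  rw [List.map_replicate, List.prod_replicate]

theorem sZ_true (i : Fin (4 - 1)) : sZ 4 (true, (i : ℕ)) = ss (T 1 : ℤ[T;T⁻¹]) (T (-1) : ℤ[T;T⁻¹]) (EZ 4 i) := rfl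
theorem sZ_false (i : Fin (4 - 1)) : sZ 4 (false, (i : ℕ)) = ss (T (-1) : ℤ[T;T⁻¹]) (T 1 : ℤ[T;T⁻¹]) (EZ 4 i) := rfl

theorem invW_wa (n : ℕ) : invW (wa n) = List.replicate n (true, 2) ++ List.replicate n (false, 0) := by
  unfold invW wa
  rw [List.map_append, List.map_replicate, List.map_replicate, List.reverse_append, 
    List.reverse_replicate, List.reverse_replicate]
  rfl

theorem Zw_wa {n : ℕ} {l l' : ℤ[T;T⁻¹]} (hl : l * l' = 1) (hf : 1 + dd * fn n = l) : 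
    Zw (wa n) = 1 + fn n • ya (fn n) l' (EZ 4 0) (EZ 4 2) := by
  unfold wa
  rw [Zw_append, Zw_rep, Zw_rep]
  show (ss (T 1 : ℤ[T;T⁻¹]) (T (-1) : ℤ[T;T⁻¹]) (EZ 4 0)) ^ n * (ss (T (-1) : ℤ[T;T⁻¹]) (T 1 : ℤ[T;T⁻¹]) (EZ 4 2)) ^ n = _
  rw [ss_pow tl4.s1, ss_pow' tl4.s3 hl hf, smul_mul_smul_comm, ← mul_pow, TT, one_pow, one_smul, mul_sub, 
    mul_one, add_mul, one_mul, smul_mul_smul_comm]
  unfold ya
  module

theorem Zw_wa_inv {n : ℕ} {l l' : ℤ[T;T⁻¹]} (hl : l * l' = 1) (hf : 1 + dd * fn n = l) : 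
    Zw (invW (wa n)) = 1 + fn n • ya (fn n) l' (EZ 4 2) (EZ 4 0) := by
  rw [invW_wa, Zw_append, Zw_rep, Zw_rep]
  show (ss (T 1 : ℤ[T;T⁻¹]) (T (-1) : ℤ[T;T⁻¹]) (EZ 4 2)) ^ n * (ss (T (-1) : ℤ[T;T⁻¹]) (T 1 : ℤ[T;T⁻¹]) (EZ 4 0)) ^ n = _
  rw [ss_pow tl4.s3, ss_pow' tl4.s1 hl hf, smul_mul_smul_comm, ← mul_pow, TT, one_pow, one_smul, mul_sub, 
    mul_one, add_mul, one_mul, smul_mul_smul_comm]
  unfold ya
  module

theorem Zw_sing (x : Letter 4) : Zw [x] = sZ 4 (x.1, (x.2 : ℕ)) := by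
  unfold Zw
  rw [List.map_cons, List.map_nil, List.prod_cons, List.prod_nil, mul_one]

theorem s2_inv : ss (T 1 : ℤ[T;T⁻¹]) (T (-1) : ℤ[T;T⁻¹]) (EZ 4 1) * ss (T (-1) : ℤ[T;T⁻¹]) (T 1 : ℤ[T;T⁻¹]) (EZ 4 1) = 1 := 
  ss_mul tl4 TT rfl

theorem Zw_conj (w : List (Letter 4)) : Zw ([(true, 1)] ++ w ++ [(false, 1)]) = 
    ss (T 1 : ℤ[T;T⁻¹]) (T (-1) : ℤ[T;T⁻¹]) (EZ 4 1) * Zw w * ss (T (-1) : ℤ[T;T⁻¹]) (T 1 : ℤ[T;T⁻¹]) (EZ 4 1) := by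
  rw [Zw_append, Zw_append, Zw_sing, Zw_sing]
  rfl

theorem invW_wb (n : ℕ) : invW (wb n) = [(true, 1)] ++ invW (wa n) ++ [(false, 1)] := by
  unfold wb
  unfold invW
  rw [List.map_append, List.map_append, List.reverse_append, List.reverse_append]
  simp

theorem conj_one (z : TLZ 4) (f : ℤ[T;T⁻¹]) : 
    ss (T 1 : ℤ[T;T⁻¹]) (T (-1) : ℤ[T;T⁻¹]) (EZ 4 1) * (1 + f • z) * ss (T (-1) : ℤ[T;T⁻¹]) (T 1 : ℤ[T;T⁻¹]) (EZ 4 1) = 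
    1 + f • (ss (T 1 : ℤ[T;T⁻¹]) (T (-1) : ℤ[T;T⁻¹]) (EZ 4 1) * z * ss (T (-1) : ℤ[T;T⁻¹]) (T 1 : ℤ[T;T⁻¹]) (EZ 4 1)) := by
  rw [mul_add, mul_one, add_mul, s2_inv, mul_smul_comm, smul_mul_assoc]

/-- the generators of the filtration -/
noncomputable def YY (n : ℕ) (l' : ℤ[T;T⁻¹]) : Submodule ℤ[T;T⁻¹] (TLZ 4) := 
  Submodule.span ℤ[T;T⁻¹] (Ys (T 1 : ℤ[T;T⁻¹]) (T (-1) : ℤ[T;T⁻¹]) (fn n) l' (EZ 4 0) (EZ 4 1) (EZ 4 2))

theorem deep_all {n : ℕ} {l l' : ℤ[T;T⁻¹]} (hl : l * l' = 1) (hf : 1 + dd * fn n = l) (k : ℕ) : 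
    Deep (YY n l') (fn n) (2 ^ k) (Zw (wU (wa n) (wb n) k)) := by
  have hY : ∀ y ∈ Ys (T 1 : ℤ[T;T⁻¹]) (T (-1) : ℤ[T;T⁻¹]) (fn n) l' (EZ 4 0) (EZ 4 1) (EZ 4 2), y ∈ JJ (YY n l') 1 := 
    fun y hy => Y_le _ (Submodule.subset_span hy)
  have hmk : ∀ y ∈ Ys (T 1 : ℤ[T;T⁻¹]) (T (-1) : ℤ[T;T⁻¹]) (fn n) l' (EZ 4 0) (EZ 4 1) (EZ 4 2), 
      Deep (YY n l') (fn n) 1 (1 + fn n • y) := fun y hy => ⟨y, hY y hy, by rw [pow_one]⟩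
  have ha : Deep (YY n l') (fn n) 1 ((vu (wa n) : (TLZ 4)ˣ) : TLZ 4) := by
    show Deep (YY n l') (fn n) 1 (Zw (wa n))
    rw [Zw_wa hl hf]
    exact hmk _ (Or.inl rfl)
  have ha' : (((vu (wa n))⁻¹ : (TLZ 4)ˣ) : TLZ 4) ∈ JJ (YY n l') 0 := by
    show Zw (invW (wa n)) ∈ _
    rw [Zw_wa_inv hl hf]
    exact (hmk _ (Or.inr (Or.inl rfl))).mem
  have hb : Deep (YY n l') (fn n) 1 ((vu (wb n) : (TLZ 4)ˣ) : TLZ 4) := by
    show Deep (YY n l') (fn n) 1 (Zw (wb n))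
    unfold wb
    rw [Zw_conj, Zw_wa hl hf, conj_one]
    exact hmk _ (Or.inr (Or.inr (Or.inl rfl)))
  have hb' : (((vu (wb n))⁻¹ : (TLZ 4)ˣ) : TLZ 4) ∈ JJ (YY n l') 0 := by
    show Zw (invW (wb n)) ∈ _
    rw [invW_wb, Zw_conj, Zw_wa_inv hl hf, conj_one]
    exact (hmk _ (Or.inr (Or.inr (Or.inr rfl)))).mem
  have h := (uu_deep ha hb ha' hb' k).1
  rw [← vu_wU] at h
  exact h

/-- the difference of a word and `1` is divisible by the power of `l - 1` -/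
theorem div_all {n : ℕ} {l l' : ℤ[T;T⁻¹]} (hl : l * l' = 1) (hf : 1 + dd * fn n = l) (k : ℕ) : 
    ∃ z : TLZ 4, Zw (wU (wa n) (wb n) (k + 2)) - 1 = ((l - 1) ^ (2 ^ k)) • z := by
  obtain ⟨z, hz, h1⟩ := deep_all hl hf (k + 2)
  have h2 : 2 ^ (k + 2) = 4 * 2 ^ k := by ring
  rw [h2] at hz h1
  have hD : Dat ℤ[T;T⁻¹] dd (T 1 : ℤ[T;T⁻¹]) (T (-1) : ℤ[T;T⁻¹]) l l' (fn n) := ⟨TT, rfl, hl, hf⟩
  obtain ⟨w, rfl⟩ := mem_Dm.1 (JJ_four tl4 gen_TLZ hD (2 ^ k) hz)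
  refine ⟨(fn n) ^ (3 * 2 ^ k) • w, ?_⟩
  rw [h1, add_sub_cancel_left, smul_smul, smul_smul, ← hf, add_sub_cancel_left]
  congr 1
  rw [mul_pow]
  have : 4 * 2 ^ k = 2 ^ k + 3 * 2 ^ k := by ring
  rw [this, pow_add]
  ring

end Pool.Agent.J4.H15.RU
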