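import Pool.Agent.J4.H15.RU.Filt
import Mathlib

/-!
# Leading coefficients
-/

set_option autoImplicit false

namespace Pool.Agent.J4.H15.RU

open Polynomial

variable {L B : Type*} [Field L] [Ring B] [Algebra L B]

/-- the relations of the two idempotents and the middle generator -/
structure PMe (a b d : L) (P M e : B) : Prop where
  ab : a * b = 1
  hd : d = -a ^ 2 - b ^ 2
  d0 : d ≠ 0
  PP : P * P = P
  MM : M * M = M
  PM : P * M = 0
  MP : M * P = 0
  PeP : P * e * P = d⁻¹ • P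
  MeM : M * e * M = d⁻¹ • M
  PeMeP : P * e * M * e * P = (d⁻¹ ^ 2) • P

namespace PMe

variable {a b d : L} {P M e : B}

/-- conjugation by `s` -/
def cj (a b : L) (e x : B) : B := (a • 1 + b • e) * x * (b • 1 + a • e)

theorem cj_eq (hab : a * b = 1) (e x : B) : cj a b e x = x + a ^ 2 • (x * e) + b ^ 2 • (e * x) + e * x * e := by
  unfold cj
  simp only [add_mul, mul_add, smul_mul_assoc, mul_smul_comm, smul_smul, one_mul, mul_one, smul_add]
  have h : b * a = 1 := by rw [mul_comm, hab]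
  rw [h, one_smul, ← pow_two, ← pow_two, hab, one_smul]
  abel

variable (H : PMe a b d P M e)
include H

theorem a2d : a ^ 2 * d + 1 = - a ^ 4 := by
  have := H.ab
  rw [H.hd]
  linear_combination (-(a * b + 1)) * this

theorem b2d : b ^ 2 * d + 1 = - b ^ 4 := by
  have := H.ab
  rw [H.hd]
  linear_combination (-(a * b + 1)) * this

theorem a0 : a ≠ 0 := left_ne_zero_of_mul_eq_one H.ab
theorem b0 : b ≠ 0 := right_ne_zero_of_mul_eq_one H.ab

theorem sum1 : 1 + a ^ 2 * d⁻¹ + b ^ 2 * d⁻¹ + d⁻¹ * d⁻¹ = d⁻¹ ^ 2 := by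
  have : d * d⁻¹ = 1 := mul_inv_cancel₀ H.d0
  have h5 := H.hd
  linear_combination (-1 : L) * this + d⁻¹ * h5

theorem top1 : P * cj a b e P * M = (-(a ^ 4) * d⁻¹) • (P * e * M) := by
  rw [cj_eq H.ab]
  have h1 : P * (P + a ^ 2 • (P * e) + b ^ 2 • (e * P) + e * P * e) * M = 
      P * P * M + a ^ 2 • (P * P * e * M) + b ^ 2 • (P * e * (P * M)) + P * e * P * e * M := by
    simp only [add_mul, mul_add, smul_mul_assoc, mul_smul_comm, mul_assoc]
  rw [h1, H.PP, H.PM, H.PeP, mul_zero, smul_zero, add_zero, zero_add, smul_mul_assoc, smul_mul_assoc, 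
    ← add_smul]
  congr 1
  rw [← H.a2d]
  field_simp [H.d0]

theorem top2 : P * cj a b e M * M = (-(b ^ 4) * d⁻¹) • (P * e * M) := by
  rw [cj_eq H.ab]
  have h1 : P * (M + a ^ 2 • (M * e) + b ^ 2 • (e * M) + e * M * e) * M = 
      P * M * M + a ^ 2 • (P * M * e * M) + b ^ 2 • (P * e * (M * M)) + P * e * (M * e * M) := by
    simp only [add_mul, mul_add, smul_mul_assoc, mul_smul_comm, mul_assoc]
  rw [h1, H.MM, H.PM, H.MeM, zero_mul, zero_mul, zero_mul, smul_zero, add_zero, zero_add, mul_smul_comm, 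
    ← add_smul]
  congr 1
  rw [← H.b2d]
  field_simp [H.d0]

theorem th1 : (P * e * M) * cj a b e P * (P * e * M) = (-(b ^ 4) * d⁻¹ ^ 3) • (P * e * M) := by
  rw [cj_eq H.ab]
  have h1 : (P * e * M) * (P + a ^ 2 • (P * e) + b ^ 2 • (e * P) + e * P * e) * (P * e * M) = 
      P * e * (M * P) * (P * e * M) + a ^ 2 • (P * e * (M * P) * e * (P * e * M)) + 
      b ^ 2 • (P * e * M * e * P * P * (e * M)) + P * e * M * e * P * e * P * (e * M) := by
    simp only [add_mul, mul_add, smul_mul_assoc, mul_smul_comm, mul_assoc]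
  rw [h1, H.MP, H.PeMeP]
  simp only [mul_zero, zero_mul, smul_zero, zero_add, smul_mul_assoc, H.PP, H.PeP, smul_smul]
  rw [← add_smul, ← mul_assoc]
  congr 1
  rw [← H.b2d]
  field_simp [H.d0]

theorem th2 : (P * e * M) * cj a b e M * (P * e * M) = (-(a ^ 4) * d⁻¹ ^ 3) • (P * e * M) := by
  rw [cj_eq H.ab]
  have h1 : (P * e * M) * (M + a ^ 2 • (M * e) + b ^ 2 • (e * M) + e * M * e) * (P * e * M) = 
      P * e * M * (M * P) * (e * M) + a ^ 2 • (P * e * (M * M) * e * P * (e * M)) + 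
      b ^ 2 • (P * e * M * e * (M * P) * (e * M)) + P * e * (M * e * M) * e * P * (e * M) := by
    simp only [add_mul, mul_add, smul_mul_assoc, mul_smul_comm, mul_assoc]
  rw [h1, H.MP, H.MM, H.MeM]
  simp only [mul_zero, zero_mul, smul_zero, zero_add, add_zero, mul_smul_comm, smul_mul_assoc, H.PeMeP, 
    smul_smul]
  rw [← add_smul, ← mul_assoc]
  congr 1
  rw [← H.a2d]
  field_simp [H.d0]

theorem ed1 : P * cj a b e P * (P * e * M) = (d⁻¹ ^ 2) • (P * e * M) := by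
  rw [cj_eq H.ab]
  have h1 : P * (P + a ^ 2 • (P * e) + b ^ 2 • (e * P) + e * P * e) * (P * e * M) = 
      (P * P * P) * (e * M) + a ^ 2 • (P * P * e * P * (e * M)) + 
      b ^ 2 • (P * e * P * P * (e * M)) + P * e * P * e * P * (e * M) := by
    simp only [add_mul, mul_add, smul_mul_assoc, mul_smul_comm, mul_assoc]
  rw [h1]
  simp only [H.PP, H.PeP, smul_mul_assoc, smul_smul]
  rw [mul_assoc P e M, ← H.sum1]
  module

theorem ed2 : (P * e * M) * cj a b e M * M = (d⁻¹ ^ 2) • (P * e * M) := by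
  rw [cj_eq H.ab]
  have h1 : (P * e * M) * (M + a ^ 2 • (M * e) + b ^ 2 • (e * M) + e * M * e) * M = 
      (P * e) * (M * M * M) + a ^ 2 • ((P * e) * (M * M * e * M)) + 
      b ^ 2 • ((P * e) * (M * e * M * M)) + (P * e) * (M * e * M * e * M) := by
    simp only [add_mul, mul_add, smul_mul_assoc, mul_smul_comm, mul_assoc]
  rw [h1]
  simp only [H.MM, H.MeM, smul_mul_assoc, mul_smul_comm, smul_smul]
  rw [← H.sum1]
  module

theorem P_th : P * (P * e * M) = P * e * M := by rw [← mul_assoc, ← mul_assoc, H.PP]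
theorem th_M : P * e * M * M = P * e * M := by rw [mul_assoc, H.MM]

end PMe

/-! ### polynomials -/

/-- degree at most `n`, with coefficient `c` at `n` -/
structure TopIs (p : B[X]) (n : ℕ) (c : B) : Prop where
  deg : p.natDegree ≤ n
  top : p.coeff n = c

theorem TopIs.mul {p q : B[X]} {m n : ℕ} {c c' : B} (h : TopIs p m c) (h' : TopIs q n c') : 
    TopIs (p * q) (m + n) (c * c') :=
  ⟨natDegree_mul_le_of_le h.deg h'.deg, by 
    rw [coeff_mul_add_eq_of_natDegree_le h.deg h'.deg, h.top, h'.top]⟩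

theorem TopIs.conj {p : B[X]} {n : ℕ} {c : B} (h : TopIs p n c) (s s' : B) : 
    TopIs (C s * p * C s') n (s * c * s') := by
  have h1 : ∀ s : B, TopIs (C s) 0 s := fun s => ⟨by simp, by simp⟩
  have := ((h1 s).mul h).mul (h1 s')
  rwa [zero_add, add_zero] at this

theorem TopIs.quad (x y z : B) : TopIs (C x * X ^ 2 + C y * X + C z) 2 x := by
  refine ⟨natDegree_quadratic_le, ?_⟩
  simp

/-- the lengths -/
def le : ℕ → ℕ
  | 0 => 3
  | (k+1) => 4 * le k + 6

/-- the two polynomials of the iterated commutators -/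
noncomputable def UP (Ap Am Bp Bm : B[X]) : ℕ → B[X] × B[X]
  | 0 => (Ap * Bp * Am, Ap * Bm * Am)
  | (k+1) => 
    (Ap * (UP Ap Am Bp Bm k).1 * Bp * (UP Ap Am Bp Bm k).1 * Bm * (UP Ap Am Bp Bm k).2 * Bp * 
      (UP Ap Am Bp Bm k).2 * Bm * Am,
     Ap * Bp * (UP Ap Am Bp Bm k).1 * Bm * (UP Ap Am Bp Bm k).1 * Bp * (UP Ap Am Bp Bm k).2 * Bm * 
      (UP Ap Am Bp Bm k).2 * Am)

theorem UP_top {a b d : L} {P M e : B} (H : PMe a b d P M e) {Ap Am Bp Bm : B[X]} 
    (hAp : TopIs Ap 2 P) (hAm : TopIs Am 2 M) (hBp : TopIs Bp 2 (PMe.cj a b e P)) 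
    (hBm : TopIs Bm 2 (PMe.cj a b e M)) (k : ℕ) : 
    (∃ κ : L, κ ≠ 0 ∧ TopIs (UP Ap Am Bp Bm k).1 (2 * le k) (κ • (P * e * M))) ∧ 
    (∃ κ : L, κ ≠ 0 ∧ TopIs (UP Ap Am Bp Bm k).2 (2 * le k) (κ • (P * e * M))) := by
  have ha4 : -(a ^ 4) ≠ 0 := neg_ne_zero.2 (pow_ne_zero _ H.a0)
  have hb4 : -(b ^ 4) ≠ 0 := neg_ne_zero.2 (pow_ne_zero _ H.b0)
  have hd : d⁻¹ ≠ 0 := inv_ne_zero H.d0
  have L1 : ∀ c κ : L, c • (P * e * M) * PMe.cj a b e P * (κ • (P * e * M)) = 
      (c * κ * (-(b ^ 4) * d⁻¹ ^ 3)) • (P * e * M) := by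
    intro c κ
    rw [smul_mul_assoc, smul_mul_smul_comm, H.th1, smul_smul]
  have L2 : ∀ c κ : L, c • (P * e * M) * PMe.cj a b e M * (κ • (P * e * M)) = 
      (c * κ * (-(a ^ 4) * d⁻¹ ^ 3)) • (P * e * M) := by
    intro c κ
    rw [smul_mul_assoc, smul_mul_smul_comm, H.th2, smul_smul]
  have L3 : ∀ c : L, c • (P * e * M) * PMe.cj a b e M * M = (c * d⁻¹ ^ 2) • (P * e * M) := by
    intro c
    rw [smul_mul_assoc, smul_mul_assoc, H.ed2, smul_smul]
  have L4 : ∀ κ : L, P * PMe.cj a b e P * (κ • (P * e * M)) = (κ * d⁻¹ ^ 2) • (P * e * M) := by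
    intro κ
    rw [mul_smul_comm, H.ed1, smul_smul]
  have L5 : ∀ κ : L, P * (κ • (P * e * M)) = κ • (P * e * M) := by
    intro κ
    rw [mul_smul_comm, H.P_th]
  have L6 : ∀ κ : L, κ • (P * e * M) * M = κ • (P * e * M) := by
    intro κ
    rw [smul_mul_assoc, H.th_M]
  induction k with
  | zero =>
    refine ⟨⟨-(a ^ 4) * d⁻¹, mul_ne_zero ha4 hd, ?_⟩, ⟨-(b ^ 4) * d⁻¹, mul_ne_zero hb4 hd, ?_⟩⟩
    · have := (hAp.mul hBp).mul hAm
      rw [H.top1] at this
      exact this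
    · have := (hAp.mul hBm).mul hAm
      rw [H.top2] at this
      exact this
  | succ k ih =>
    obtain ⟨⟨κ, hκ, h1⟩, ⟨κ', hκ', h2⟩⟩ := ih
    constructor
    · have h := (((((((((hAp.mul h1).mul hBp).mul h1).mul hBm).mul h2).mul hBp).mul h2).mul hBm).mul hAm)
      rw [L5, L1, L2, L1, L3] at h
      refine ⟨κ * κ * (-(b ^ 4) * d⁻¹ ^ 3) * κ' * (-(a ^ 4) * d⁻¹ ^ 3) * κ' * (-(b ^ 4) * d⁻¹ ^ 3) * 
        d⁻¹ ^ 2, ?_, ?_⟩
      rotate_left
      · convert h using 1
        · rfl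
        · show 2 * (4 * le k + 6) = _
          ring
      · refine mul_ne_zero (mul_ne_zero (mul_ne_zero (mul_ne_zero (mul_ne_zero (mul_ne_zero 
          (mul_ne_zero hκ hκ) ?_) hκ') ?_) hκ') ?_) ?_
        all_goals first | exact mul_ne_zero hb4 (pow_ne_zero _ hd) | exact mul_ne_zero ha4 (pow_ne_zero _ hd) | exact pow_ne_zero _ hd
    · have h := (((((((((hAp.mul hBp).mul h1).mul hBm).mul h1).mul hBp).mul h2).mul hBm).mul h2).mul hAm)
      rw [L4, L2, L1, L2, L6] at h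
      refine ⟨κ * d⁻¹ ^ 2 * κ * (-(a ^ 4) * d⁻¹ ^ 3) * κ' * (-(b ^ 4) * d⁻¹ ^ 3) * κ' * 
        (-(a ^ 4) * d⁻¹ ^ 3), ?_, ?_⟩
      rotate_left
      · convert h using 1
        · rfl
        · show 2 * (4 * le k + 6) = _
          ring
      · refine mul_ne_zero (mul_ne_zero (mul_ne_zero (mul_ne_zero (mul_ne_zero (mul_ne_zero 
          (mul_ne_zero hκ ?_) hκ) ?_) hκ') ?_) hκ') ?_
        all_goals first | exact mul_ne_zero hb4 (pow_ne_zero _ hd) | exact mul_ne_zero ha4 (pow_ne_zero _ hd) | exact pow_ne_zero _ hd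

/-! ### evaluation at a scalar -/

/-- evaluation at the scalar `x` -/
noncomputable def evx (x : L) : B[X] →+* B := 
  eval₂RingHom' (RingHom.id B) (algebraMap L B x) (fun b => (Algebra.commutes x b).symm)

theorem evx_C (x : L) (b : B) : evx x (C b) = b := by
  unfold evx
  simp

theorem evx_X (x : L) : evx x (X : B[X]) = algebraMap L B x := by
  unfold evx
  simp

theorem evx_quad (x : L) (u v w : B) : evx x (C u * X ^ 2 + C v * X + C w) = x ^ 2 • u + x • v + w := by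
  rw [map_add, map_add, map_mul, map_mul, map_pow, evx_C, evx_C, evx_C, evx_X, ← map_pow, 
    ← Algebra.commutes, ← Algebra.commutes, Algebra.smul_def, Algebra.smul_def]

theorem UP_ev (x : L) {Ap Am Bp Bm : B[X]} {α β : Bˣ} (hAp : evx x Ap = x • (α : B)) 
    (hAm : evx x Am = x • ((α⁻¹ : Bˣ) : B)) (hBp : evx x Bp = x • (β : B)) 
    (hBm : evx x Bm = x • ((β⁻¹ : Bˣ) : B)) (k : ℕ) : 
    evx x (UP Ap Am Bp Bm k).1 = x ^ (le k) • ((uu α β k : Bˣ) : B) ∧ 
    evx x (UP Ap Am Bp Bm k).2 = x ^ (le k) • (((uu α β k)⁻¹ : Bˣ) : B) := by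
  induction k with
  | zero =>
    unfold UP uu le
    simp only [map_mul, hAp, hAm, hBp, hBm, smul_mul_smul_comm, mul_inv_rev, inv_inv, Units.val_mul, 
      mul_assoc]
    constructor
    · congr 1
      ring
    · congr 1
      ring
  | succ k ih =>
    unfold UP uu le
    simp only [map_mul, hAp, hAm, hBp, hBm, ih.1, ih.2, smul_mul_smul_comm, mul_inv_rev, inv_inv, 
      Units.val_mul, mul_assoc]
    constructor
    · congr 1
      ring
    · congr 1
      ring

/-- a scalar polynomial from a linear functional -/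
theorem fin_roots (p : B[X]) (l : ℕ) (hl : 1 ≤ l) (c : B) (hp : TopIs p (2 * l) c) (φ : B →ₗ[L] L) 
    (D : B) (hc : φ (c * D) ≠ 0) (F : L) : {x : L | φ (evx x p * D) = x ^ l * F}.Finite := by
  classical
  set Q : L[X] := (∑ i ∈ Finset.range (2 * l + 1), C (φ (p.coeff i * D)) * X ^ i) - C F * X ^ l with hQ
  have hcoef : Q.coeff (2 * l) ≠ 0 := by
    rw [hQ, coeff_sub, finsetSum_coeff]
    simp only [coeff_C_mul_X_pow]
    rw [Finset.sum_ite_eq, if_pos (Finset.mem_range.2 (Nat.lt_succ_self _)), if_neg (by omega), sub_zero, 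
      hp.top]
    exact hc
  have hQ0 : Q ≠ 0 := by
    intro h
    rw [h, coeff_zero] at hcoef
    exact hcoef rfl
  refine Set.Finite.subset (Q.roots.toFinset.finite_toSet) ?_
  intro x hx
  rw [Set.mem_ofPred_eq] at hx
  rw [Finset.mem_coe, Multiset.mem_toFinset, mem_roots hQ0, IsRoot.def, hQ, eval_sub, eval_finsetSum]
  simp only [eval_mul, eval_C, eval_pow, eval_X]
  rw [mul_comm F, ← hx, sub_eq_zero]
  have h1 : evx x p = ∑ i ∈ Finset.range (2 * l + 1), x ^ i • p.coeff i := by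
    unfold evx
    show eval₂ _ _ p = _
    rw [eval₂_eq_sum_range' _ (lt_of_le_of_lt hp.deg (Nat.lt_succ_self _))]
    refine Finset.sum_congr rfl fun i _ => ?_
    rw [RingHom.id_apply, ← map_pow, ← Algebra.commutes, Algebra.smul_def]
  rw [h1, Finset.sum_mul, map_sum]
  refine Finset.sum_congr rfl fun i _ => ?_
  rw [smul_mul_assoc, map_smul, smul_eq_mul, mul_comm]

end Pool.Agent.J4.H15.RU
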