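import Pool.Agent.J4.H15.RU.Cl
import Pool.Agent.J4.H15.RU.Pm

/-!
# Each value is attained finitely often
-/

set_option autoImplicit false

namespace Pool.Agent.J4.H15.RU

open LaurentPolynomial Pool.Agent.H891R2.Jones Pool.Agent.W639.RB Pool.Agent.Y463.SK Pool.Agent.Y463.MP


/-- the field of fractions -/
abbrev LL : Type := FractionRing ℤ[T;T⁻¹]

theorem uu_map {G G' : Type*} [Group G] [Group G'] (φ : G →* G') (a b : G) (k : ℕ) : 
    φ (uu a b k) = uu (φ a) (φ b) k := by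
  induction k with
  | zero => simp [uu]
  | succ k ih => simp [uu, ih]

/-- the generators over the field -/
noncomputable def EF (i : ℕ) : TLL LL 4 := inc LL 4 (EZ 4 i)

/-- the scalars -/
noncomputable def al : ℤ[T;T⁻¹] →+* LL := algebraMap ℤ[T;T⁻¹] LL

theorem al_inj : Function.Injective al := IsFractionRing.injective ℤ[T;T⁻¹] LL

theorem inc_al (r : ℤ[T;T⁻¹]) (z : TLZ 4) : inc LL 4 (r • z) = al r • inc LL 4 z := inc_smul (L := LL) (m := 4) (r := r) (b := z)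

theorem tlL : TL4 (al dd) (EF 0) (EF 1) (EF 2) where
  s1 := by unfold EF; rw [← map_mul, tl4.s1, inc_al]
  s2 := by unfold EF; rw [← map_mul, tl4.s2, inc_al]
  s3 := by unfold EF; rw [← map_mul, tl4.s3, inc_al]
  r12 := by unfold EF; rw [← map_mul, ← map_mul, tl4.r12]
  r21 := by unfold EF; rw [← map_mul, ← map_mul, tl4.r21]
  r23 := by unfold EF; rw [← map_mul, ← map_mul, tl4.r23]
  r32 := by unfold EF; rw [← map_mul, ← map_mul, tl4.r32]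
  c13 := by unfold EF; rw [← map_mul, ← map_mul, tl4.c13]

theorem dd_ne : dd ≠ 0 := by
  intro h
  have h1 := ev_dd ⟨3, le_rfl⟩
  rw [h, map_zero] at h1
  norm_num at h1

theorem dd_sq : dd ^ 2 - 1 ≠ 0 := by
  intro h
  have h1 := congrArg (ev 3 le_rfl) h
  rw [map_sub, map_pow, map_one, map_zero] at h1
  have h2 := ev_dd ⟨3, le_rfl⟩
  simp only at h2
  rw [h2] at h1
  norm_num at h1

theorem al_dd : al dd ≠ 0 := fun h => dd_ne (al_inj (by rw [h, map_zero]))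

theorem al_ab : al (T 1 : ℤ[T;T⁻¹]) * al (T (-1) : ℤ[T;T⁻¹]) = 1 := by rw [← map_mul, TT, map_one]

theorem al_hd : al dd = -(al (T 1 : ℤ[T;T⁻¹])) ^ 2 - (al (T (-1) : ℤ[T;T⁻¹])) ^ 2 := by
  unfold dd
  rw [map_sub, map_neg, map_pow, map_pow]

/-- the two idempotents -/
noncomputable def PF : TLL LL 4 := (al dd)⁻¹ • EF 0 - ((al dd)⁻¹ • EF 0) * ((al dd)⁻¹ • EF 2)
noncomputable def MF : TLL LL 4 := (al dd)⁻¹ • EF 2 - ((al dd)⁻¹ • EF 0) * ((al dd)⁻¹ • EF 2)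

theorem pmF : PMe (al (T 1 : ℤ[T;T⁻¹])) (al (T (-1) : ℤ[T;T⁻¹])) (al dd) PF MF (EF 1) := pme_TL tlL al_ab al_hd al_dd

/-- the quadratic polynomials -/
noncomputable def Ap : Polynomial (TLL LL 4) := Polynomial.C PF * Polynomial.X ^ 2 + 
  Polynomial.C (1 - PF - MF) * Polynomial.X + Polynomial.C MF
noncomputable def Am : Polynomial (TLL LL 4) := Polynomial.C MF * Polynomial.X ^ 2 + 
  Polynomial.C (1 - PF - MF) * Polynomial.X + Polynomial.C PF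

/-- the conjugating elements -/
noncomputable def sF : TLL LL 4 := al (T 1 : ℤ[T;T⁻¹]) • 1 + al (T (-1) : ℤ[T;T⁻¹]) • EF 1
noncomputable def sF' : TLL LL 4 := al (T (-1) : ℤ[T;T⁻¹]) • 1 + al (T 1 : ℤ[T;T⁻¹]) • EF 1

noncomputable def Bp : Polynomial (TLL LL 4) := Polynomial.C sF * Ap * Polynomial.C sF'
noncomputable def Bm : Polynomial (TLL LL 4) := Polynomial.C sF * Am * Polynomial.C sF'

theorem inc_ya (f l' : ℤ[T;T⁻¹]) (i j : ℕ) : 
    inc LL 4 (ya f l' (EZ 4 i) (EZ 4 j)) = ya (al f) (al l') (EF i) (EF j) := by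
  unfold ya EF
  rw [map_sub, map_sub, inc_al, inc_al, map_mul, map_mul]

theorem inc_one_ya (f l' : ℤ[T;T⁻¹]) (i j : ℕ) : 
    inc LL 4 (1 + f • ya f l' (EZ 4 i) (EZ 4 j)) = 1 + al f • ya (al f) (al l') (EF i) (EF j) := by
  rw [map_add, map_one, inc_al, inc_ya]

theorem inc_s : inc LL 4 (ss (T 1 : ℤ[T;T⁻¹]) (T (-1) : ℤ[T;T⁻¹]) (EZ 4 1)) = sF := by
  unfold ss sF
  rw [map_add, inc_al, inc_al, map_one]
  rfl

theorem inc_s' : inc LL 4 (ss (T (-1) : ℤ[T;T⁻¹]) (T 1 : ℤ[T;T⁻¹]) (EZ 4 1)) = sF' := by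
  unfold ss sF'
  rw [map_add, inc_al, inc_al, map_one]
  rfl

/-- the units -/
noncomputable def uF (w : List (Letter 4)) : (TLL LL 4)ˣ := 
  Units.map ((inc LL 4 : TLZ 4 →ₐ[ℤ[T;T⁻¹]] TLL LL 4) : TLZ 4 →* TLL LL 4) (vu w)

theorem uF_val (w : List (Letter 4)) : ((uF w : (TLL LL 4)ˣ) : TLL LL 4) = inc LL 4 (Zw w) := rfl

theorem uF_inv (w : List (Letter 4)) : (((uF w)⁻¹ : (TLL LL 4)ˣ) : TLL LL 4) = inc LL 4 (Zw (invW w)) := rfl

theorem uF_wU (a b : List (Letter 4)) (k : ℕ) : uF (wU a b k) = uu (uF a) (uF b) k := by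
  unfold uF
  rw [vu_wU, uu_map]

/-- the scalar -/
noncomputable def lm (m : ℕ) : LL := al (T (-(8 * (m : ℤ))))

theorem lm_inj : Function.Injective lm := by
  intro m m' h
  have h1 := al_inj h
  have h2 : (-(8 * (m : ℤ))) = (-(8 * (m' : ℤ))) := by
    have := congrArg (fun p : ℤ[T;T⁻¹] => p.degree) h1
    simp at this
    omega
  omega

theorem hl' (m : ℕ) : (T (-(8 * (m : ℤ))) : ℤ[T;T⁻¹]) * T (8 * (m : ℤ)) = 1 := by
  rw [← T_add, neg_add_cancel, T_zero]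

theorem hf' (m : ℕ) : 1 + dd * fn (2 * m) = T (-(8 * (m : ℤ))) := by rw [fn_spec, lam_even]

theorem ev_Ap (m : ℕ) : evx (lm m) Ap = lm m • ((uF (wa (2 * m)) : (TLL LL 4)ˣ) : TLL LL 4) := by
  rw [uF_val, Zw_wa (hl' m) (hf' m), inc_one_ya]
  unfold Ap
  rw [evx_quad]
  apply quad_ev tlL al_dd
  · unfold lm; rw [← map_mul, hl', map_one]
  · unfold lm; rw [← map_mul, ← hf' m, map_add, map_one]

theorem ev_Am (m : ℕ) : evx (lm m) Am = lm m • (((uF (wa (2 * m)))⁻¹ : (TLL LL 4)ˣ) : TLL LL 4) := by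
  rw [uF_inv, Zw_wa_inv (hl' m) (hf' m), inc_one_ya]
  unfold Am
  rw [evx_quad]
  have h := quad_ev tlL.swap al_dd (f := al (fn (2 * m))) (l := lm m) (l' := al (T (8 * (m : ℤ)))) 
    (by unfold lm; rw [← map_mul, hl', map_one]) 
    (by unfold lm; rw [← map_mul, ← hf' m, map_add, map_one])
  rw [← h]
  have hc : ((al dd)⁻¹ • EF 2) * ((al dd)⁻¹ • EF 0) = ((al dd)⁻¹ • EF 0) * ((al dd)⁻¹ • EF 2) := by
    rw [smul_mul_smul_comm, smul_mul_smul_comm, tlL.c13]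
  rw [hc]
  unfold PF MF
  congr 3
  abel

theorem ev_Bp (m : ℕ) : evx (lm m) Bp = lm m • ((uF (wb (2 * m)) : (TLL LL 4)ˣ) : TLL LL 4) := by
  unfold Bp
  rw [map_mul, map_mul, evx_C, evx_C, ev_Ap, mul_smul_comm, smul_mul_assoc, uF_val, uF_val, wb, Zw_conj, 
    map_mul, map_mul, inc_s, inc_s']

theorem ev_Bm (m : ℕ) : evx (lm m) Bm = lm m • (((uF (wb (2 * m)))⁻¹ : (TLL LL 4)ˣ) : TLL LL 4) := by
  unfold Bm
  rw [map_mul, map_mul, evx_C, evx_C, ev_Am, mul_smul_comm, smul_mul_assoc, uF_inv, uF_inv, invW_wb, Zw_conj, 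
    map_mul, map_mul, inc_s, inc_s']

theorem ev_UP (k m : ℕ) : evx (lm m) (UP Ap Am Bp Bm (k + 2)).1 = 
    lm m ^ (le (k + 2)) • inc LL 4 (Zw (WW k (2 * m))) := by
  rw [(UP_ev (lm m) (ev_Ap m) (ev_Am m) (ev_Bp m) (ev_Bm m) (k + 2)).1, ← uF_wU, uF_val]
  rfl

/-- the functional over the field -/
noncomputable def phF : TLL LL 4 →ₗ[LL] LL := phiL LL (by norm_num : 0 < 4) (braidClosure 4)

theorem phF_inc (z : TLZ 4) : phF (inc LL 4 z) = al (ph z) := phiL_inc LL _ _ z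

theorem le_pos (k : ℕ) : 1 ≤ le k := by
  cases k with
  | zero => unfold le; omega
  | succ k => unfold le; omega

theorem Zw_dl : inc LL 4 (Zw dl) = (al (T 1 : ℤ[T;T⁻¹]) • 1 + al (T (-1) : ℤ[T;T⁻¹]) • EF 0) * (al (T 1 : ℤ[T;T⁻¹]) • 1 + al (T (-1) : ℤ[T;T⁻¹]) • EF 1) * 
    (al (T 1 : ℤ[T;T⁻¹]) • 1 + al (T (-1) : ℤ[T;T⁻¹]) • EF 2) := by
  have : Zw dl = ss (T 1 : ℤ[T;T⁻¹]) (T (-1) : ℤ[T;T⁻¹]) (EZ 4 0) * ss (T 1 : ℤ[T;T⁻¹]) (T (-1) : ℤ[T;T⁻¹]) (EZ 4 1) * ss (T 1 : ℤ[T;T⁻¹]) (T (-1) : ℤ[T;T⁻¹]) (EZ 4 2) := by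
    unfold Zw dl
    simp only [List.map_cons, List.map_nil, List.prod_cons, List.prod_nil, mul_one, mul_assoc]
    rfl
  rw [this, map_mul, map_mul]
  unfold ss
  simp only [map_add, inc_al, map_one]
  rfl

theorem top_ne (κ : LL) (hκ : κ ≠ 0) : phF ((κ • (PF * EF 1 * MF)) * inc LL 4 (Zw dl)) ≠ 0 := by
  rw [smul_mul_assoc, map_smul, smul_eq_mul, Zw_dl]
  apply mul_ne_zero hκ
  unfold PF MF
  rw [theta_D tlL al_ab al_hd al_dd, map_smul, map_sub, map_smul, map_smul]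
  unfold EF
  rw [← map_mul, ← map_mul, ← map_mul, phF_inc, phF_inc, ph_two 0 1 (by norm_num) (by norm_num), ph_three']
  simp only [smul_eq_mul, map_one, mul_one]
  apply mul_ne_zero
  · exact left_ne_zero_of_mul_eq_one al_ab
  · have h1 : (al dd)⁻¹ ^ 2 * al dd - (al dd)⁻¹ ^ 3 = (al dd)⁻¹ ^ 3 * (al (dd ^ 2 - 1)) := by
      rw [map_sub, map_pow, map_one]
      have := al_dd
      field_simp
    rw [h1]
    exact mul_ne_zero (pow_ne_zero _ (inv_ne_zero al_dd)) 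
      (fun h => dd_sq (al_inj (by rw [h, map_zero])))

/-- each value is attained finitely often -/
theorem fin_ph (k : ℕ) (F : LL) : {m : ℕ | al (ph (Zw (WW k (2 * m) ++ dl))) = F}.Finite := by
  obtain ⟨κ, hκ, ht⟩ := (UP_top pmF (Ap := Ap) (Am := Am) (Bp := Bp) (Bm := Bm) (TopIs.quad _ _ _) 
    (TopIs.quad _ _ _) ((TopIs.quad _ _ _).conj _ _) ((TopIs.quad _ _ _).conj _ _) (k + 2)).1
  have h := fin_roots (UP Ap Am Bp Bm (k + 2)).1 (le (k + 2)) (le_pos _) _ ht phF (inc LL 4 (Zw dl)) 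
    (top_ne κ hκ) F
  refine Set.Finite.subset (h.preimage (lm_inj.injOn)) ?_
  intro m hm
  rw [Set.mem_ofPred_eq] at hm
  rw [Set.mem_preimage, Set.mem_ofPred_eq, ev_UP, smul_mul_assoc, map_smul, smul_eq_mul, ← map_mul, 
    ← Zw_append, phF_inc, hm]

end Pool.Agent.J4.H15.RU
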